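import Pool.Agent.W82.D11
import Pool.Agent.H209R3.Red2

set_option autoImplicit false
set_option linter.unusedSectionVars false

namespace Pool.Agent.W82

open Polynomial Module

section
variable {K : Type*} [Field K] [F2 K]


lemma wp_ne_zero {z : (RatFunc K)} (h0 : z ≠ 0) (h1 : z ≠ 1) : z ^ 2 + z ≠ 0 := by
  intro h
  have h2 : z * (z + 1) = 0 := by linear_combination h
  rcases mul_eq_zero.1 h2 with h3 | h3
  · exact h0 h3
  · exact h1 (CharTwo.add_eq_zero.1 h3)

/-- the case where 1 is in the kernel, blocks with a kernel of dimension one, first kind -/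
lemma typeC6 (Δ z u : (RatFunc K)) (hΔ : Δ ≠ 0) (hz : ph2 (RatFunc.X + Δ) Δ z = 1) (hu0 : u ≠ 0)
    (hu : ph2 (RatFunc.X + Δ) Δ u = u) (key : ∀ (g Δ a b u : (RatFunc K)), Δ ≠ 0 → a ≠ 0 → b ≠ 0 → a ≠ b →
      u ≠ 0 → ph2 g Δ a = 0 → ph2 g Δ b = 0 → ph2 g Δ u = u → False) : False := by
  have hch : CharP (RatFunc K) 2 := inferInstance
  have hone : ph2 (RatFunc.X + Δ) Δ (1 : (RatFunc K)) = 0 := by unfold ph2; (first | ring1 | (ring_nf; reduce_mod_char!) | (ring_nf; reduce_mod_char!; ring_nf))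
  have hX0 : (RatFunc.X : (RatFunc K)) ≠ 0 := RatFunc.X_ne_zero
  obtain ⟨B0, hB0⟩ : ∃ B0, B0 = RatFunc.X / Δ := ⟨_, rfl⟩
  have hB0' : Δ * B0 = RatFunc.X := by rw [hB0]; field_simp
  have hB00 : B0 ≠ 0 := by
    rw [hB0]; exact div_ne_zero RatFunc.X_ne_zero hΔ
  have hψB : RatFunc.X * B0 + Δ * B0 ^ 2 = 0 := by
    linear_combination (norm := (first | ring1 | (ring_nf; reduce_mod_char!) | (ring_nf; reduce_mod_char!; ring_nf))) (B0 * hB0')
  have hφB : ph2 (RatFunc.X ^ 2 + Δ) (Δ ^ 2) B0 = 0 := by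
    unfold ph2
    linear_combination (norm := (first | ring1 | (ring_nf; reduce_mod_char!) | (ring_nf; reduce_mod_char!; ring_nf))) (hψB + (RatFunc.X * B0 + Δ * B0 ^ 2) * hψB)
  have hz0 : z ≠ 0 := by
    rintro rfl
    rw [ph2_zero] at hz
    exact zero_ne_one hz
  have hz1 : z ≠ 1 := by
    rintro rfl
    rw [hone] at hz
    exact zero_ne_one hz
  have hu1 : u ≠ 1 := by
    rintro rfl
    rw [hone] at hu
    exact zero_ne_one hu
  refine key (RatFunc.X ^ 2 + Δ) (Δ ^ 2) B0 (z ^ 2 + z) (u ^ 2 + u) (pow_ne_zero 2 hΔ) hB00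
    (wp_ne_zero hz0 hz1) ?_ (wp_ne_zero hu0 hu1) hφB ?_ ?_
  · intro h
    rw [ph2_fac, ← h, hψB] at hz
    exact zero_ne_one hz
  · rw [ph2_wp, hz]; (first | ring1 | (ring_nf; reduce_mod_char!) | (ring_nf; reduce_mod_char!; ring_nf))
  · rw [ph2_wp, hu]

lemma typeC5 (Δ z y : (RatFunc K)) (hΔ : Δ ≠ 0) (hz : ph2 (RatFunc.X + Δ) Δ z = 1)
    (hy : ph2 (RatFunc.X + Δ) Δ y = z) (key : ∀ (g Δ a b z : (RatFunc K)), Δ ≠ 0 → a ≠ 0 → b ≠ 0 → a ≠ b →
      ph2 g Δ a = 0 → ph2 g Δ b = 0 → ph2 g Δ z = a → False) : False := by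
  have hch : CharP (RatFunc K) 2 := inferInstance
  have hone : ph2 (RatFunc.X + Δ) Δ (1 : (RatFunc K)) = 0 := by unfold ph2; (first | ring1 | (ring_nf; reduce_mod_char!) | (ring_nf; reduce_mod_char!; ring_nf))
  have hX0 : (RatFunc.X : (RatFunc K)) ≠ 0 := RatFunc.X_ne_zero
  obtain ⟨B0, hB0⟩ : ∃ B0, B0 = RatFunc.X / Δ := ⟨_, rfl⟩
  have hB0' : Δ * B0 = RatFunc.X := by rw [hB0]; field_simp
  have hB00 : B0 ≠ 0 := by
    rw [hB0]; exact div_ne_zero RatFunc.X_ne_zero hΔ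
  have hψB : RatFunc.X * B0 + Δ * B0 ^ 2 = 0 := by
    linear_combination (norm := (first | ring1 | (ring_nf; reduce_mod_char!) | (ring_nf; reduce_mod_char!; ring_nf))) (B0 * hB0')
  have hφB : ph2 (RatFunc.X ^ 2 + Δ) (Δ ^ 2) B0 = 0 := by
    unfold ph2
    linear_combination (norm := (first | ring1 | (ring_nf; reduce_mod_char!) | (ring_nf; reduce_mod_char!; ring_nf))) (hψB + (RatFunc.X * B0 + Δ * B0 ^ 2) * hψB)
  have hz0 : z ≠ 0 := by
    rintro rfl
    rw [ph2_zero] at hz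
    exact zero_ne_one hz
  have hz1 : z ≠ 1 := by
    rintro rfl
    rw [hone] at hz
    exact zero_ne_one hz
  refine key (RatFunc.X ^ 2 + Δ) (Δ ^ 2) (z ^ 2 + z) B0 (y ^ 2 + y) (pow_ne_zero 2 hΔ)
    (wp_ne_zero hz0 hz1) hB00 ?_ ?_ hφB ?_
  · intro h
    rw [ph2_fac, h, hψB] at hz
    exact zero_ne_one hz
  · rw [ph2_wp, hz]; (first | ring1 | (ring_nf; reduce_mod_char!) | (ring_nf; reduce_mod_char!; ring_nf))
  · rw [ph2_wp, hy]

lemma kernel_one {g Δ a : (RatFunc K)} (ha : a ≠ 0) (h : ph2 g Δ a = 0) :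
    g * a = RatFunc.X + Δ * a ^ 3 := by
  have hch : CharP (RatFunc K) 2 := inferInstance
  have h1 : a * (RatFunc.X + g * a + Δ * a ^ 3) = 0 := by
    rw [← h]; unfold ph2; ring
  have h2 := (mul_eq_zero.1 h1).resolve_left ha
  linear_combination (norm := (first | ring1 | (ring_nf; reduce_mod_char!) | (ring_nf; reduce_mod_char!; ring_nf))) h2

lemma scale_eq {g Δ a w v : (RatFunc K)} (ha : a ≠ 0) (h : ph2 g Δ a = 0) (hw : ph2 g Δ w = v) :
    ph2 (RatFunc.X + Δ * a ^ 3) (Δ * a ^ 3) (a⁻¹ * w) = a⁻¹ * v := by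
  rw [← kernel_one ha h, ph2_scale g Δ w ha, hw]

lemma T3 (g Δ a u : (RatFunc K)) (hΔ : Δ ≠ 0) (ha0 : a ≠ 0) (hu0 : u ≠ 0) (ha : ph2 g Δ a = 0)
    (hu : ph2 g Δ (ph2 g Δ u) = ph2 g Δ u + u) : False := by
  have h1 := scale_eq ha0 ha (w := u) rfl
  have h2 := scale_eq ha0 ha (w := ph2 g Δ u) rfl
  apply type3 (Δ * a ^ 3) (a⁻¹ * u) (mul_ne_zero hΔ (pow_ne_zero 3 ha0))
    (mul_ne_zero (inv_ne_zero ha0) hu0)
  rw [h1, h2, hu]; ring

lemma T6 (g Δ a b u : (RatFunc K)) (hΔ : Δ ≠ 0) (ha0 : a ≠ 0) (hb0 : b ≠ 0) (hab : a ≠ b) (hu0 : u ≠ 0)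
    (ha : ph2 g Δ a = 0) (hb : ph2 g Δ b = 0) (hu : ph2 g Δ u = u) : False := by
  refine type6 (Δ * a ^ 3) (a⁻¹ * b) (a⁻¹ * u) (mul_ne_zero hΔ (pow_ne_zero 3 ha0))
    (mul_ne_zero (inv_ne_zero ha0) hb0) ?_ ?_ (mul_ne_zero (inv_ne_zero ha0) hu0)
    (scale_eq ha0 ha hu)
  · intro h
    apply hab
    field_simp at h
    exact h.symm
  · rw [scale_eq ha0 ha hb, mul_zero]

lemma T5 (g Δ a b z : (RatFunc K)) (hΔ : Δ ≠ 0) (ha0 : a ≠ 0) (hb0 : b ≠ 0) (hab : a ≠ b)
    (ha : ph2 g Δ a = 0) (hb : ph2 g Δ b = 0) (hz : ph2 g Δ z = a) : False := by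
  refine type5 (Δ * a ^ 3) (a⁻¹ * b) (a⁻¹ * z) (mul_ne_zero (inv_ne_zero ha0) hb0) ?_ ?_ ?_
  · intro h
    apply hab
    field_simp at h
    exact h.symm
  · rw [scale_eq ha0 ha hb, mul_zero]
  · rw [scale_eq ha0 ha hz, inv_mul_cancel₀ ha0]

theorem noCfg (g Δ : (RatFunc K)) (hΔ : Δ ≠ 0) : ¬ Cfg (ph2 g Δ) := by
  rintro (⟨a, u, ha0, hu0, ha, hu⟩ | ⟨a, b, u, ha0, hb0, hab, hu0, ha, hb, hu⟩ |
    ⟨a, b, z, ha0, hb0, hab, ha, hb, hz⟩ | ⟨a, z, u, ha0, hu0, ha, hz, hu⟩ |
    ⟨a, z, y, ha0, ha, hz, hy⟩)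
  · exact T3 g Δ a u hΔ ha0 hu0 ha hu
  · exact T6 g Δ a b u hΔ ha0 hb0 hab hu0 ha hb hu
  · exact T5 g Δ a b z hΔ ha0 hb0 hab ha hb hz
  · have hz' := scale_eq ha0 ha hz
    rw [inv_mul_cancel₀ ha0] at hz'
    exact typeC6 (Δ * a ^ 3) (a⁻¹ * z) (a⁻¹ * u) (mul_ne_zero hΔ (pow_ne_zero 3 ha0)) hz'
      (mul_ne_zero (inv_ne_zero ha0) hu0) (scale_eq ha0 ha hu) T6
  · have hz' := scale_eq ha0 ha hz
    rw [inv_mul_cancel₀ ha0] at hz'
    exact typeC5 (Δ * a ^ 3) (a⁻¹ * z) (a⁻¹ * y) (mul_ne_zero hΔ (pow_ne_zero 3 ha0)) hz'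
      (scale_eq ha0 ha hy) T5

/-- the substitution X to X + 1 -/
lemma exists_mirror (K : Type*) [Field K] [F2 K] : ∃ σ : RatFunc K →+* RatFunc K,
    Function.Injective σ ∧ σ RatFunc.X = RatFunc.X + 1 := by
  let f : K[X] →+* RatFunc K := (algebraMap K[X] (RatFunc K)).comp (taylorAlgHom (1 : K)).toRingHom
  have hf : Function.Injective f := by
    intro a b hab
    apply taylor_injective (1 : K)
    exact RatFunc.algebraMap_injective K hab
  let σ : RatFunc K →+* RatFunc K := IsFractionRing.lift hf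
  refine ⟨σ, σ.injective, ?_⟩
  · rw [← RatFunc.algebraMap_X]
    show IsFractionRing.lift hf (algebraMap K[X] (RatFunc K) X) = _
    rw [IsFractionRing.lift_algebraMap]
    show algebraMap K[X] (RatFunc K) (taylor (1 : K) X) = _
    rw [taylor_X, map_add, RatFunc.algebraMap_X, C_1, map_one]

lemma Cfg_map {M M' : Type*} [AddCommGroup M] [AddCommGroup M'] (i : M →+ M')
    (hi : Function.Injective i) (t : M → M) (t' : M' → M') (h : ∀ x, i (t x) = t' (i x))
    (hC : Cfg t) : Cfg t' := by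
  have hn : ∀ x, x ≠ 0 → i x ≠ 0 := fun x hx h0 => hx (hi (h0.trans (map_zero i).symm))
  have hd : ∀ x y, x ≠ y → i x ≠ i y := fun x y hxy h0 => hxy (hi h0)
  rcases hC with ⟨a, u, ha0, hu0, ha, hu⟩ | ⟨a, b, u, ha0, hb0, hab, hu0, ha, hb, hu⟩ |
    ⟨a, b, z, ha0, hb0, hab, ha, hb, hz⟩ | ⟨a, z, u, ha0, hu0, ha, hz, hu⟩ |
    ⟨a, z, y, ha0, ha, hz, hy⟩
  · refine Or.inl ⟨i a, i u, hn a ha0, hn u hu0, ?_, ?_⟩
    · rw [← h, ha, map_zero]
    · rw [← h, ← h, hu, map_add]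
  · refine Or.inr (Or.inl ⟨i a, i b, i u, hn a ha0, hn b hb0, hd a b hab, hn u hu0, ?_, ?_, ?_⟩)
    · rw [← h, ha, map_zero]
    · rw [← h, hb, map_zero]
    · rw [← h, hu]
  · refine Or.inr (Or.inr (Or.inl ⟨i a, i b, i z, hn a ha0, hn b hb0, hd a b hab, ?_, ?_, ?_⟩))
    · rw [← h, ha, map_zero]
    · rw [← h, hb, map_zero]
    · rw [← h, hz]
  · refine Or.inr (Or.inr (Or.inr (Or.inl ⟨i a, i z, i u, hn a ha0, hn u hu0, ?_, ?_, ?_⟩)))
    · rw [← h, ha, map_zero]
    · rw [← h, hz]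
    · rw [← h, hu]
  · refine Or.inr (Or.inr (Or.inr (Or.inr ⟨i a, i z, i y, hn a ha0, ?_, ?_, ?_⟩)))
    · rw [← h, ha, map_zero]
    · rw [← h, hz]
    · rw [← h, hy]

theorem noCfg' (g Δ : (RatFunc K)) (hΔ : Δ ≠ 0) : ¬ Cfg (fun w => ph2 g Δ w + w) := by
  intro hC
  have hch : CharP (RatFunc K) 2 := inferInstance
  obtain ⟨σ, hσ, hσX⟩ := exists_mirror K
  have hΔ' : σ Δ ≠ 0 := fun h0 => hΔ (hσ (h0.trans (map_zero σ).symm))
  apply noCfg (σ g) (σ Δ) hΔ'
  refine Cfg_map (σ : (RatFunc K) →+ (RatFunc K)) hσ _ _ ?_ hC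
  intro x
  show σ (ph2 g Δ x + x) = ph2 (σ g) (σ Δ) (σ x)
  unfold ph2
  simp only [map_add, map_mul, map_pow, hσX]
  (first | ring1 | (ring_nf; reduce_mod_char!) | (ring_nf; reduce_mod_char!; ring_nf))

variable (K) in
lemma finite_F2 : Finite K := by
  have : Finite (Option Unit) := inferInstance
  classical
  refine Finite.of_injective (fun a : K => if a = 0 then (none : Option Unit) else some ()) ?_
  intro a b hab
  rcases F2.out a with ha | ha <;> rcases F2.out b with hb | hb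
  · rw [ha, hb]
  · simp [ha, hb] at hab
  · simp [ha, hb] at hab
  · rw [ha, hb]

lemma toFinset_of_finrank (W : Submodule K (RatFunc K)) (h3 : 3 ≤ finrank K W) :
    ∃ S : Finset (RatFunc K), (∀ x, x ∈ S ↔ x ∈ W) ∧ 4 < S.card := by
  classical
  have hK : Finite K := finite_F2 K
  have : FiniteDimensional K W := Module.finite_of_finrank_pos (by omega)
  have hW : Finite W := Module.finite_of_finite K
  have h1 : Nat.card W = Nat.card K ^ finrank K W := Module.natCard_eq_pow_finrank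
  have h2 : 1 < Nat.card K := Finite.one_lt_card
  have h4 : 4 < Nat.card W := by
    rw [h1]
    calc 4 < 2 ^ 3 := by norm_num
      _ ≤ Nat.card K ^ 3 := Nat.pow_le_pow_left (by omega) 3
      _ ≤ Nat.card K ^ finrank K W := Nat.pow_le_pow_right (by omega) h3
  have hfin : (W : Set (RatFunc K)).Finite := Set.toFinite _
  refine ⟨hfin.toFinset, ?_, ?_⟩
  · intro x
    rw [Set.Finite.mem_toFinset]; rfl
  · have h5 : hfin.toFinset.card = Nat.card W := by
      rw [← Set.ncard_eq_toFinset_card (W : Set (RatFunc K)) hfin]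
      rfl
    omega

/-- the operator as a linear map -/
noncomputable def phL (g Δ : (RatFunc K)) : (RatFunc K) →ₗ[K] (RatFunc K) where
  toFun := ph2 g Δ
  map_add' := ph2_add g Δ
  map_smul' c x := by
    rcases F2.out c with h | h
    · rw [h, zero_smul, ph2_zero, RingHom.id_apply, zero_smul]
    · rw [h, one_smul, RingHom.id_apply, one_smul]

/-- no stable subspace of dimension at least three -/
theorem no_stable (g Δ : (RatFunc K)) (hΔ : Δ ≠ 0) (V : Submodule K (RatFunc K)) (h3 : 3 ≤ finrank K V)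
    (hs : ∀ v ∈ V, ph2 g Δ v ∈ V) : False := by
  have hch : CharP (RatFunc K) 2 := inferInstance
  have : FiniteDimensional K V := Module.finite_of_finrank_pos (by omega)
  obtain ⟨S, hS, hS4⟩ := toFinset_of_finrank V h3
  let t : V →ₗ[K] V := (phL g Δ).restrict hs
  have ht : ∀ v : V, ((t v : V) : (RatFunc K)) = ph2 g Δ v := fun v => rfl
  have hne0 : ∃ w, t w ≠ 0 := by
    by_contra hcon
    push Not at hcon
    have h1 := root_bound S RatFunc.X g Δ 0 (by
      intro w hw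
      have h2 := congrArg (fun z : V => (z : (RatFunc K))) (hcon ⟨w, (hS w).1 hw⟩)
      simp only [ht] at h2
      have h3 : ph2 g Δ w = 0 := h2
      unfold ph2 at h3
      linear_combination h3) (Or.inr ⟨rfl, hS4⟩)
    exact RatFunc.X_ne_zero h1.1
  have hne1 : ∃ w, t w ≠ w := by
    by_contra hcon
    push Not at hcon
    have h1 := root_bound S (RatFunc.X + 1) g Δ 0 (by
      intro w hw
      have h2 := congrArg (fun z : V => (z : (RatFunc K))) (hcon ⟨w, (hS w).1 hw⟩)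
      simp only [ht] at h2
      have h3 : ph2 g Δ w = w := h2
      unfold ph2 at h3
      linear_combination (norm := (first | ring1 | (ring_nf; reduce_mod_char!) | (ring_nf; reduce_mod_char!; ring_nf))) h3) (Or.inr ⟨rfl, hS4⟩)
    exact X1_ne h1.1
  rcases classify t h3 hne0 hne1 with ⟨W, hW3, hWs, hWe⟩ | hC | hC
  · have hW3' : 3 ≤ finrank K (W.map V.subtype) := by
      rw [Submodule.finrank_map_subtype_eq]; exact hW3
    obtain ⟨S', hS', hS'4⟩ := toFinset_of_finrank (W.map V.subtype) hW3'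
    refine no_sys (g := g) (Δ := Δ) (V := S') ⟨hΔ, ?_, ?_, ?_, hS'4, ?_⟩
    · rw [hS']; exact Submodule.zero_mem _
    · intro x hx y hy
      rw [hS'] at *
      exact Submodule.add_mem _ hx hy
    · intro x hx
      rw [hS'] at *
      obtain ⟨w, hw, rfl⟩ := hx
      exact ⟨t w, hWs w hw, ht w⟩
    · intro x hx hx0
      rw [hS'] at hx
      obtain ⟨w, hw, rfl⟩ := hx
      have hw0 : w ≠ 0 := by
        rintro rfl
        simp at hx0
      obtain ⟨h1, h2⟩ := hWe w hw hw0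
      constructor
      · intro h4
        apply h1
        apply Subtype.ext
        rw [ht]
        exact h4
      · intro h4
        apply h2
        apply Subtype.ext
        rw [ht]
        exact h4
  · apply noCfg g Δ hΔ
    exact Cfg_map (V.subtype : V →ₗ[K] (RatFunc K)).toAddMonoidHom Subtype.val_injective t (ph2 g Δ) ht hC
  · apply noCfg' g Δ hΔ
    refine Cfg_map (V.subtype : V →ₗ[K] (RatFunc K)).toAddMonoidHom Subtype.val_injective _ _ ?_ hC
    intro x
    rfl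

end

/-- the bound for the field with two elements -/
theorem bound_two {K : Type*} [Field K] [Fintype K] (hK : Fintype.card K = 2) (g D : RatFunc K)
    (hD : D ≠ 0) : {x : RatFunc K | ∃ m n : ℕ, m < n ∧
          (fun y : RatFunc K => RatFunc.X * y + g * y ^ Fintype.card K
              + D * y ^ (Fintype.card K ^ 2))^[m] x
            = (fun y : RatFunc K => RatFunc.X * y + g * y ^ Fintype.card K
              + D * y ^ (Fintype.card K ^ 2))^[n] x}.encard
        ≤ ((Fintype.card K ^ 2 : ℕ) : ℕ∞) := by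
  classical
  have hF2 : F2 K := by
    constructor
    intro a
    have h1 : ({0, 1} : Finset K) = Finset.univ := by
      apply Finset.eq_univ_of_card
      rw [hK]
      exact Finset.card_pair zero_ne_one
    have h2 : a ∈ ({0, 1} : Finset K) := by rw [h1]; exact Finset.mem_univ a
    simpa using h2
  by_contra hbig
  let f : RatFunc K → RatFunc K := fun y : RatFunc K => RatFunc.X * y + g * y ^ Fintype.card K
              + D * y ^ (Fintype.card K ^ 2)
  have hf : ∀ y, ph2 g D y = f y := by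
    intro y
    simp only [f, ph2, hK]
    norm_num
  have hlt : ((Fintype.card K ^ 2 + 1 : ℕ) : ℕ∞) ≤ {x : RatFunc K | ∃ m n : ℕ, m < n ∧
      f^[m] x = f^[n] x}.encard := by
    rw [not_le] at hbig
    have := Order.add_one_le_of_lt hbig
    simpa using this
  obtain ⟨A, hA, hAc⟩ := Set.exists_subset_encard_eq hlt
  have hAfin : A.Finite := by
    apply Set.finite_of_encard_eq_coe hAc
  let Gs : Set (RatFunc K) := ⋃ x ∈ A, Set.range (fun i => f^[i] x)
  have hGs : Gs.Finite := by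
    apply hAfin.biUnion
    intro x hx
    obtain ⟨m, n, hmn, h⟩ := hA hx
    exact Pool.Agent.H209R3.orbit_finite f x m n hmn h
  let V := Submodule.span K Gs
  have : FiniteDimensional K V := FiniteDimensional.span_of_finite K hGs
  have hstab : ∀ v ∈ V, ph2 g D v ∈ V := by
    have : V ≤ V.comap (phL g D) := by
      apply Submodule.span_le.2
      intro v hv
      simp only [Gs, Set.mem_iUnion, Set.mem_range] at hv
      obtain ⟨x, hx, i, rfl⟩ := hv
      apply Submodule.subset_span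
      simp only [Gs, Set.mem_iUnion, Set.mem_range]
      refine ⟨x, hx, i + 1, ?_⟩
      rw [Function.iterate_succ_apply', ← hf]
      rfl
    exact this
  have hAV : A ⊆ (V : Set (RatFunc K)) := by
    intro x hx
    apply Submodule.subset_span
    simp only [Gs, Set.mem_iUnion, Set.mem_range]
    exact ⟨x, hx, 0, rfl⟩
  have hfr : 3 ≤ finrank K V := by
    by_contra hcon
    have : Finite V := Module.finite_of_finite K
    have h1 : Nat.card V = Nat.card K ^ finrank K V := Module.natCard_eq_pow_finrank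
    have h2 : A.encard ≤ (V : Set (RatFunc K)).encard := Set.encard_le_encard hAV
    have h3 : (V : Set (RatFunc K)).encard = (Nat.card V : ℕ∞) := by
      have hfin : (V : Set (RatFunc K)).Finite := Set.toFinite _
      rw [← hfin.cast_ncard_eq]
      rfl
    rw [h3, hAc, h1, Nat.card_eq_fintype_card] at h2
    have h4 : Fintype.card K ^ 2 + 1 ≤ Fintype.card K ^ finrank K V := by exact_mod_cast h2
    have h5 : Fintype.card K ^ finrank K V ≤ Fintype.card K ^ 2 :=
      Nat.pow_le_pow_right Fintype.card_pos (by omega)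
    omega
  exact no_stable g D hD V hfr hstab

end Pool.Agent.W82
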