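import Mathlib

set_option autoImplicit false

namespace Pool.Agent.W82

open Polynomial



/-- the field with two elements -/
class F2 (K : Type*) [Field K] : Prop where
  out : ∀ a : K, a = 0 ∨ a = 1

section
variable {K : Type*} [Field K] [F2 K]

instance (priority := 2000) F2.charP : CharP K 2 := by
  have h : (1 : K) + 1 = 0 := by
    rcases F2.out ((1 : K) + 1) with h | h
    · exact h
    · exact absurd (left_eq_add.1 h.symm) one_ne_zero
  exact CharTwo.of_one_ne_zero_of_two_eq_zero one_ne_zero (by rw [← one_add_one_eq_two, h])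

instance (priority := 2000) : CharP (RatFunc K) 2 :=
  charP_of_injective_algebraMap (algebraMap K (RatFunc K)).injective 2

instance (priority := 2000) : CharP K[X] 2 := Polynomial.instCharP 2

lemma ne_zero_eq_one {a : K} (h : a ≠ 0) : a = 1 := (F2.out a).resolve_left h

lemma expand_two (f : K[X]) : expand K 2 f = f ^ 2 := by
  have h : frobenius K 2 = RingHom.id K := by
    ext a
    rcases F2.out a with h | h <;> simp [h, frobenius_def]
  have := Polynomial.map_frobenius_expand (R := K) (p := 2) (f := f)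
  rw [h, Polynomial.map_id] at this
  exact this

lemma isUnit_eq_one {f : K[X]} (h : IsUnit f) : f = 1 := by
  obtain ⟨a, ha, rfl⟩ := Polynomial.isUnit_iff.1 h
  rw [ne_zero_eq_one ha.ne_zero, C_1]

lemma leadingCoeff_one {f : K[X]} (h : f ≠ 0) : f.leadingCoeff = 1 :=
  ne_zero_eq_one (leadingCoeff_ne_zero.2 h)

/-- decomposition of polynomials into even and odd parts -/
lemma poly_decomp (f : K[X]) : ∃ a b : K[X], f = a ^ 2 + X * b ^ 2 ∧
    2 * a.natDegree ≤ f.natDegree ∧ (b ≠ 0 → 2 * b.natDegree + 1 ≤ f.natDegree) := by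
  refine ⟨contract 2 f, contract 2 (divX f), ?_, ?_, ?_⟩
  · rw [← expand_two, ← expand_two]
    ext n
    rw [coeff_add, coeff_expand (by norm_num : 0 < 2)]
    rcases Nat.even_or_odd' n with ⟨m, hm | hm⟩
    · subst hm
      rw [if_pos (Dvd.intro _ rfl), coeff_contract (by norm_num)]
      have h1 : 2 * m / 2 * 2 = 2 * m := by omega
      rw [h1]
      rcases Nat.eq_zero_or_pos m with h0 | h0
      · subst h0; simp
      · obtain ⟨m', rfl⟩ : ∃ m', m = m' + 1 := ⟨m - 1, by omega⟩
        rw [show 2 * (m' + 1) = (2 * m' + 1) + 1 by ring, coeff_X_mul,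
          coeff_expand (by norm_num : 0 < 2), if_neg (by omega)]; simp
    · subst hm
      rw [if_neg (by omega), coeff_X_mul, coeff_expand (by norm_num : 0 < 2), if_pos (by omega),
        coeff_contract (by norm_num), coeff_divX, zero_add]
      congr 1
      omega
  · have : (contract 2 f).natDegree ≤ f.natDegree / 2 := by
      rw [natDegree_le_iff_coeff_eq_zero]
      intro N hN
      rw [coeff_contract (by norm_num)]
      apply coeff_eq_zero_of_natDegree_lt
      omega
    omega
  · intro hb
    have : (contract 2 (divX f)).natDegree ≤ (f.natDegree - 1) / 2 := by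
      rw [natDegree_le_iff_coeff_eq_zero]
      intro N hN
      rw [coeff_contract (by norm_num), coeff_divX]
      apply coeff_eq_zero_of_natDegree_lt
      omega
    have h1 : f.natDegree ≠ 0 := by
      intro h0
      apply hb
      rw [eq_C_of_natDegree_eq_zero h0, divX_C]
      ext n
      rw [coeff_contract (by norm_num)]; simp
    omega

lemma poly_decomp_zero {a b : K[X]} (h : a ^ 2 + X * b ^ 2 = 0) : a = 0 ∧ b = 0 := by
  have h2 : a ^ 2 = X * b ^ 2 := by
    have : CharP K 2 := inferInstance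
    linear_combination (norm := (first | ring1 | (ring_nf; reduce_mod_char!) | (ring_nf; reduce_mod_char!; ring_nf))) h
  by_cases hb : b = 0
  · refine ⟨?_, hb⟩
    rw [hb] at h2
    simpa using h2
  · exfalso
    have ha : a ≠ 0 := by
      rintro rfl
      have h3 : X * b ^ 2 = 0 := by rw [← h2]; ring
      exact (mul_ne_zero X_ne_zero (pow_ne_zero 2 hb)) h3
    have h3 := congrArg natDegree h2
    rw [natDegree_pow, natDegree_mul X_ne_zero (pow_ne_zero 2 hb), natDegree_X, natDegree_pow] at h3
    omega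


lemma dec_zero {a b : (RatFunc K)} (h : a ^ 2 + RatFunc.X * b ^ 2 = 0) : a = 0 ∧ b = 0 := by
  have h2 : a ^ 2 = RatFunc.X * b ^ 2 := by
    have : CharP (RatFunc K) 2 := inferInstance
    linear_combination (norm := (first | ring1 | (ring_nf; reduce_mod_char!) | (ring_nf; reduce_mod_char!; ring_nf))) h
  by_cases hb : b = 0
  · refine ⟨?_, hb⟩
    rw [hb] at h2
    simpa using h2
  · exfalso
    have ha : a ≠ 0 := by
      rintro rfl
      have h3 : RatFunc.X * b ^ 2 = 0 := by rw [← h2]; ring
      exact (mul_ne_zero RatFunc.X_ne_zero (pow_ne_zero 2 hb)) h3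
    have h3 := congrArg RatFunc.intDegree h2
    rw [pow_two, pow_two, RatFunc.intDegree_mul ha ha, RatFunc.intDegree_mul RatFunc.X_ne_zero (mul_ne_zero hb hb),
      RatFunc.intDegree_mul hb hb, RatFunc.intDegree_X] at h3
    omega

omit [F2 K] in
lemma exists_frac (f : (RatFunc K)) : ∃ p q : K[X], q ≠ 0 ∧ IsCoprime p q ∧
    f = algebraMap K[X] (RatFunc K) p / algebraMap K[X] (RatFunc K) q :=
  ⟨f.num, f.denom, f.denom_ne_zero, f.isCoprime_num_denom, (RatFunc.num_div_denom f).symm⟩

lemma dec_exists (f : (RatFunc K)) : ∃ a b : (RatFunc K), f = a ^ 2 + RatFunc.X * b ^ 2 := by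
  obtain ⟨p, q, hq, -, rfl⟩ := exists_frac f
  obtain ⟨a, b, hab, -, -⟩ := poly_decomp (p * q)
  have hq' : algebraMap K[X] (RatFunc K) q ≠ 0 := by
    intro h0
    exact hq ((RatFunc.algebraMap_injective K) (h0.trans (map_zero _).symm))
  refine ⟨algebraMap K[X] (RatFunc K) a / algebraMap K[X] (RatFunc K) q, algebraMap K[X] (RatFunc K) b / algebraMap K[X] (RatFunc K) q, ?_⟩
  have h1 := congrArg (algebraMap K[X] (RatFunc K)) hab
  rw [map_mul, map_add, map_mul, map_pow, map_pow, RatFunc.algebraMap_X] at h1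
  field_simp
  exact h1

/-- even part -/
noncomputable def ev (f : (RatFunc K)) : (RatFunc K) := (dec_exists f).choose
/-- odd part -/
noncomputable def od (f : (RatFunc K)) : (RatFunc K) := (dec_exists f).choose_spec.choose

lemma ev_od (f : (RatFunc K)) : f = ev f ^ 2 + RatFunc.X * od f ^ 2 :=
  (dec_exists f).choose_spec.choose_spec

lemma dec_unique {a b c d : (RatFunc K)} (h : a ^ 2 + RatFunc.X * b ^ 2 = c ^ 2 + RatFunc.X * d ^ 2) :
    a = c ∧ b = d := by
  have hch : CharP (RatFunc K) 2 := inferInstance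
  have h1 : (a + c) ^ 2 + RatFunc.X * (b + d) ^ 2 = 0 := by
    linear_combination (norm := (first | ring1 | (ring_nf; reduce_mod_char!) | (ring_nf; reduce_mod_char!; ring_nf))) h
  obtain ⟨h2, h3⟩ := dec_zero h1
  exact ⟨CharTwo.add_eq_zero.1 h2, CharTwo.add_eq_zero.1 h3⟩

lemma ev_eq {f a b : (RatFunc K)} (h : f = a ^ 2 + RatFunc.X * b ^ 2) : ev f = a :=
  (dec_unique ((ev_od f).symm.trans h)).1

lemma od_eq {f a b : (RatFunc K)} (h : f = a ^ 2 + RatFunc.X * b ^ 2) : od f = b :=
  (dec_unique ((ev_od f).symm.trans h)).2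

lemma od_add (f g : (RatFunc K)) : od (f + g) = od f + od g := by
  have hch : CharP (RatFunc K) 2 := inferInstance
  apply od_eq (a := ev f + ev g)
  have h1 := ev_od f
  have h2 := ev_od g
  linear_combination (norm := (first | ring1 | (ring_nf; reduce_mod_char!) | (ring_nf; reduce_mod_char!; ring_nf))) (h1 + h2)

lemma od_sq_mul (s f : (RatFunc K)) : od (s ^ 2 * f) = s * od f := by
  apply od_eq (a := s * ev f)
  have h1 := ev_od f
  linear_combination (s ^ 2) * h1

lemma od_sq (s : (RatFunc K)) : od (s ^ 2) = 0 := by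
  apply od_eq (a := s)
  ring

lemma od_X : od (RatFunc.X : (RatFunc K)) = 1 := by
  apply od_eq (a := 0)
  ring

lemma od_zero : od (0 : (RatFunc K)) = 0 := by
  apply od_eq (a := 0)
  ring

lemma od_one : od (1 : (RatFunc K)) = 0 := by
  apply od_eq (a := 1)
  ring

/-- the derivation -/
noncomputable def dd (f : (RatFunc K)) : (RatFunc K) := od f ^ 2

lemma dd_add (f g : (RatFunc K)) : dd (f + g) = dd f + dd g := by
  have hch : CharP (RatFunc K) 2 := inferInstance
  unfold dd
  rw [od_add]
  (first | ring1 | (ring_nf; reduce_mod_char!) | (ring_nf; reduce_mod_char!; ring_nf))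

lemma dd_sq_mul (s f : (RatFunc K)) : dd (s ^ 2 * f) = s ^ 2 * dd f := by
  unfold dd
  rw [od_sq_mul]; ring

lemma dd_sq (s : (RatFunc K)) : dd (s ^ 2) = 0 := by
  unfold dd
  rw [od_sq]; ring

lemma dd_X : dd (RatFunc.X : (RatFunc K)) = 1 := by
  unfold dd
  rw [od_X]; ring

lemma dd_zero : dd (0 : (RatFunc K)) = 0 := by
  unfold dd
  rw [od_zero]; ring

lemma dd_one : dd (1 : (RatFunc K)) = 0 := by
  unfold dd
  rw [od_one]; ring

lemma dd_mul (f g : (RatFunc K)) : dd (f * g) = f * dd g + g * dd f := by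
  have hch : CharP (RatFunc K) 2 := inferInstance
  have h1 := ev_od f
  have h2 := ev_od g
  have h3 : od (f * g) = ev f * od g + od f * ev g := by
    apply od_eq (a := ev f * ev g + RatFunc.X * od f * od g)
    conv_lhs => rw [h1, h2]
    (first | ring1 | (ring_nf; reduce_mod_char!) | (ring_nf; reduce_mod_char!; ring_nf))
  unfold dd
  rw [h3]
  conv_rhs => rw [h1, h2]
  have h4 : od (ev f ^ 2 + RatFunc.X * od f ^ 2) = od f := by rw [← h1]
  have h5 : od (ev g ^ 2 + RatFunc.X * od g ^ 2) = od g := by rw [← h2]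
  rw [h4, h5]
  (first | ring1 | (ring_nf; reduce_mod_char!) | (ring_nf; reduce_mod_char!; ring_nf))

lemma dd_eq_zero {f : (RatFunc K)} (h : dd f = 0) : ∃ s, f = s ^ 2 := by
  have h1 : od f = 0 := by
    unfold dd at h
    exact pow_eq_zero_iff (two_ne_zero) |>.1 h
  refine ⟨ev f, ?_⟩
  have h2 := ev_od f
  rw [h1] at h2
  rw [h2]
  conv_rhs => rw [← h2]
  ring

end

end Pool.Agent.W82
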