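import Pool.Agent.W82.D9

set_option autoImplicit false
set_option linter.unusedSectionVars false

namespace Pool.Agent.W82

open Polynomial

section
variable {K : Type*} [Field K] [F2 K]


lemma X_not_wp (ξ : (RatFunc K)) : ξ ^ 2 + ξ ≠ RatFunc.X := by
  intro h
  have h1 := wp_even (plInf K) ξ (by rw [h]; exact RatFunc.X_ne_zero)
    (by rw [h, plInf_X]; norm_num)
  obtain ⟨k, hk⟩ := h1
  rw [h, plInf_X] at hk
  omega

lemma natDegree_zero_one {f : K[X]} (hf : f ≠ 0) (hd : f.natDegree = 0) : f = 1 := by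
  rw [eq_C_of_natDegree_eq_zero hd] at hf ⊢
  have : f.coeff 0 ≠ 0 := by
    intro h0; apply hf; rw [h0, C_0]
  rw [ne_zero_eq_one this, C_1]

/-- choice of a root with prescribed valuation -/
lemma choose_root (P : Plc K) (hX : P.v RatFunc.X = 1) {x a : (RatFunc K)} (hx : x ≠ 0) (hvx : P.v x ≤ 0)
    (ha : a ^ 2 + a = RatFunc.X / x ^ 2) :
    ∃ y : (RatFunc K), y ≠ 0 ∧ y + x ≠ 0 ∧ y * (y + x) = RatFunc.X ∧ P.v y = P.v x ∧
      P.v (y + x) = 1 - P.v x := by
  have hch : CharP (RatFunc K) 2 := inferInstance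
  have hX0 : (RatFunc.X : (RatFunc K)) ≠ 0 := RatFunc.X_ne_zero
  have h1 : (x * a) * (x * a + x) = RatFunc.X := by
    have h2 : (x * a) * (x * a + x) = x ^ 2 * (a ^ 2 + a) := by ring
    rw [h2, ha]; field_simp
  obtain ⟨y, hy⟩ : ∃ y, y = x * a := ⟨_, rfl⟩
  rw [← hy] at h1
  have hy0 : y ≠ 0 := by
    rintro rfl
    rw [zero_mul] at h1
    exact hX0 h1.symm
  have hz0 : y + x ≠ 0 := by
    intro h0
    rw [h0, mul_zero] at h1
    exact hX0 h1.symm
  have hsum : P.v y + P.v (y + x) = 1 := by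
    rw [← P.map_mul _ _ hy0 hz0, h1, hX]
  have hback : y + x + x = y := add_right_self' y x
  rcases lt_trichotomy (P.v y) (P.v x) with h2 | h2 | h2
  · exfalso
    have h3 := (P.v_add hy0 (b := x) (P.ge_of_le (by omega))).2
    omega
  · exact ⟨y, hy0, hz0, h1, h2, by omega⟩
  · have h3 := (P.v_add hx (b := y) (P.ge_of_le (by omega))).2
    rw [add_comm] at h3
    refine ⟨y + x, hz0, by rw [hback]; exact hy0, by rw [hback, mul_comm]; exact h1, h3, ?_⟩
    rw [hback]; omega

lemma lemE (N : ℕ) : ∀ h e : K[X], h ≠ 0 → e ≠ 0 → h + X * e ≠ 0 → IsCoprime h e →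
    h.natDegree ≤ N → e.natDegree ≤ N →
    ∀ a b : (RatFunc K), a ^ 2 + a = RatFunc.X / (algebraMap K[X] (RatFunc K) h / algebraMap K[X] (RatFunc K) e) ^ 2 →
    b ^ 2 + b = RatFunc.X / (algebraMap K[X] (RatFunc K) h / algebraMap K[X] (RatFunc K) e + RatFunc.X) ^ 2 → False := by
  induction N using Nat.strong_induction_on with
  | _ N ih =>
    intro h e hh he hhe hc hdh hde a b ha hb
    have hch : CharP (RatFunc K) 2 := inferInstance
    have hchK : CharP K 2 := inferInstance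
    have hX0 : (RatFunc.X : (RatFunc K)) ≠ 0 := RatFunc.X_ne_zero
    have hAe : algebraMap K[X] (RatFunc K) e ≠ 0 := aX_ne he
    have hAh : algebraMap K[X] (RatFunc K) h ≠ 0 := aX_ne hh
    obtain ⟨x, hx⟩ : ∃ x, x = algebraMap K[X] (RatFunc K) h / algebraMap K[X] (RatFunc K) e := ⟨_, rfl⟩
    rw [← hx] at ha hb
    have hx0 : x ≠ 0 := by rw [hx]; exact div_ne_zero hAh hAe
    have hxX : x + RatFunc.X ≠ 0 := by
      intro h0
      apply aX_ne hhe
      rw [map_add, map_mul, RatFunc.algebraMap_X]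
      rw [hx] at h0
      field_simp at h0
      linear_combination h0
    let P := plX K
    have hPX : P.v RatFunc.X = 1 := plX_X
    have hvx : P.v x ≤ 0 := by
      by_contra hcon
      push Not at hcon
      have h1 : P.v (a ^ 2 + a) = 1 - 2 * P.v x := by
        rw [ha, div_eq_mul_inv, P.map_mul _ _ hX0 (inv_ne_zero (pow_ne_zero 2 hx0)),
          P.v_inv (pow_ne_zero 2 hx0), P.v_pow hx0, hPX]
        push_cast; ring
      obtain ⟨k, hk⟩ := wp_even P a (by
        rw [ha]; exact div_ne_zero hX0 (pow_ne_zero 2 hx0)) (by omega)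
      omega
    have hvxX : P.v (x + RatFunc.X) = P.v x :=
      (P.v_add hx0 (b := RatFunc.X) (P.ge_of_le (by omega))).2
    obtain ⟨y, hy0, hy1, hy, hvy, -⟩ := choose_root P hPX hx0 hvx ha
    obtain ⟨y', hy'0, hy'1, hy', hvy', hvy'2⟩ := choose_root P hPX hxX (by omega) hb
    -- take z = y' + (x + X), with larger valuation
    obtain ⟨z, hz⟩ : ∃ z, z = y' + (x + RatFunc.X) := ⟨_, rfl⟩
    rw [← hz] at hy'1 hy' hvy'2
    have hz' : z * (z + (x + RatFunc.X)) = RatFunc.X := by
      have h1 : z + (x + RatFunc.X) = y' := by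
        rw [hz]; exact add_right_self' _ _
      rw [h1, mul_comm]; exact hy'
    obtain ⟨S, hS⟩ : ∃ S, S = y + z := ⟨_, rfl⟩
    have hvS : S ≠ 0 ∧ P.v S = P.v x := by
      have h1 := P.v_add hy0 (b := z) (P.ge_of_le (by omega))
      rw [← hS, hvy] at h1
      exact h1
    have hS0 := hvS.1
    have hkey : y * z * (S + RatFunc.X) = RatFunc.X * S := by
      rw [hS]
      linear_combination (norm := (first | ring1 | (ring_nf; reduce_mod_char!) | (ring_nf; reduce_mod_char!; ring_nf))) (z * hy + y * hz')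
    have hSX : S + RatFunc.X ≠ 0 := by
      intro h0
      rw [h0, mul_zero] at hkey
      exact (mul_ne_zero hX0 hS0) hkey.symm
    -- c = y / S
    obtain ⟨c, hcd⟩ : ∃ c, c = y / S := ⟨_, rfl⟩
    have hcS : c * S = y := by rw [hcd]; field_simp
    have hcrel : (c ^ 2 + c) * (S * (S + RatFunc.X)) = RatFunc.X := by
      apply mul_left_cancel₀ hS0
      have h1 : S * ((c ^ 2 + c) * (S * (S + RatFunc.X))) = (c * S) * (c * S + S) * (S + RatFunc.X) := by
        ring
      rw [h1, hcS]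
      have h2 : y + S = z := by rw [hS]; (first | ring1 | (ring_nf; reduce_mod_char!) | (ring_nf; reduce_mod_char!; ring_nf))
      rw [h2, hkey]; ring
    obtain ⟨m, n, hm, hn, hmn, hSe⟩ := exists_frac' hS0
    have hAm : algebraMap K[X] (RatFunc K) m ≠ 0 := aX_ne hm
    have hAn : algebraMap K[X] (RatFunc K) n ≠ 0 := aX_ne hn
    have hXm : ¬ X ∣ m := by
      intro h1
      have h2 : ¬ X ∣ n := fun h3 => prime_X.not_isUnit (hmn.isUnit_of_dvd' h1 h3)
      have h3 : P.v S = (multiplicity X m : ℤ) - multiplicity X n := by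
        rw [hSe]; exact plP_div prime_X hm hn
      rw [multiplicity_eq_zero.2 h2] at h3
      have h4 := le_mult (π := X) prime_X hm (k := 1) (by rw [pow_one]; exact h1)
      have := hvS.2
      omega
    have hmX : IsCoprime X m := coprime_X hXm
    have hmXn0 : m + X * n ≠ 0 := by
      intro h0
      apply hSX
      rw [hSe]
      have h1 := congrArg (algebraMap K[X] (RatFunc K)) h0
      rw [map_add, map_mul, RatFunc.algebraMap_X, map_zero] at h1
      field_simp
      linear_combination h1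
    have hcf : c ^ 2 + c = algebraMap K[X] (RatFunc K) (X * n ^ 2) / algebraMap K[X] (RatFunc K) (m * (m + X * n)) := by
      have h1 : algebraMap K[X] (RatFunc K) (m * (m + X * n)) ≠ 0 := aX_ne (mul_ne_zero hm hmXn0)
      rw [eq_div_iff h1]
      simp only [map_mul, map_add, map_pow, RatFunc.algebraMap_X]
      rw [hSe] at hcrel
      field_simp at hcrel
      linear_combination hcrel
    have c1 : IsCoprime X (m + X * n) := hmX.add_mul_left_right n
    have c2 : IsCoprime n (m + X * n) := by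
      have := hmn.symm.add_mul_left_right X
      rwa [mul_comm n X] at this
    have c3 : IsCoprime m (m + X * n) := by
      have h1 : IsCoprime m (X * n) := hmX.symm.mul_right hmn
      have h2 := h1.add_mul_left_right 1
      rwa [mul_one, add_comm] at h2
    have hUV : IsCoprime (X * n ^ 2) (m * (m + X * n)) :=
      (hmX.mul_right c1).mul_left ((hmn.symm.mul_right c2).pow_left)
    obtain ⟨-, n0, -, hV, -⟩ := wp_lowest (mul_ne_zero hm hmXn0) hUV hcf
    obtain ⟨μ, hμ⟩ := sq_of_coprime_mul c3 hV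
    obtain ⟨ν, hν⟩ := sq_of_coprime_mul c3.symm (by rw [mul_comm]; exact hV)
    have hsum : (μ + ν) ^ 2 = X * n := by
      have h1 : X * n = (m + X * n) + m := by (first | ring1 | (ring_nf; reduce_mod_char!) | (ring_nf; reduce_mod_char!; ring_nf))
      rw [h1, hν, hμ]; (first | ring1 | (ring_nf; reduce_mod_char!) | (ring_nf; reduce_mod_char!; ring_nf))
    have hXs : X ∣ μ + ν := by
      apply prime_X.dvd_of_dvd_pow (n := 2)
      rw [hsum]; exact Dvd.intro _ rfl
    obtain ⟨lam, hlam⟩ := hXs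
    have hnl : n = X * lam ^ 2 := by
      rw [hlam] at hsum
      apply mul_left_cancel₀ (X_ne_zero (R := K))
      rw [← hsum]; ring
    have hνe : ν = μ + X * lam := by
      rw [← hlam]; (first | ring1 | (ring_nf; reduce_mod_char!) | (ring_nf; reduce_mod_char!; ring_nf))
    have hlam0 : lam ≠ 0 := by
      rintro rfl
      apply hn
      rw [hnl]; ring
    have hμ0 : μ ≠ 0 := by
      rintro rfl
      apply hm
      rw [hμ]; ring
    have hν0 : ν ≠ 0 := by
      rintro rfl
      apply hmXn0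
      rw [hν]; ring
    have hμlam : IsCoprime μ lam := by
      rw [hμ, hnl] at hmn
      have h1 := (IsCoprime.pow_left_iff (by norm_num)).1 hmn
      have h2 := h1.of_mul_right_right
      exact (IsCoprime.pow_right_iff (by norm_num)).1 h2
    have hXμ : IsCoprime X μ := by
      rw [hμ] at hmX
      exact (IsCoprime.pow_right_iff (by norm_num)).1 hmX
    have hμν : IsCoprime μ ν := by
      rw [hν, hμ] at c3
      have h1 := (IsCoprime.pow_left_iff (by norm_num)).1 c3
      exact (IsCoprime.pow_right_iff (by norm_num)).1 h1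
    obtain ⟨M, hM⟩ : ∃ M, M = algebraMap K[X] (RatFunc K) μ := ⟨_, rfl⟩
    obtain ⟨Lm, hL⟩ : ∃ Lm, Lm = algebraMap K[X] (RatFunc K) lam := ⟨_, rfl⟩
    obtain ⟨Nu, hNu⟩ : ∃ Nu, Nu = algebraMap K[X] (RatFunc K) ν := ⟨_, rfl⟩
    have hM0 : M ≠ 0 := by rw [hM]; exact aX_ne hμ0
    have hL0 : Lm ≠ 0 := by rw [hL]; exact aX_ne hlam0
    have hNu0 : Nu ≠ 0 := by rw [hNu]; exact aX_ne hν0
    have hNuM : Nu = M + RatFunc.X * Lm := by
      rw [hNu, hνe, map_add, map_mul, RatFunc.algebraMap_X, hM, hL]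
    have hSL : S * (RatFunc.X * Lm ^ 2) = M ^ 2 := by
      rw [hSe, hμ, hnl, hM, hL]
      simp only [map_mul, map_pow, RatFunc.algebraMap_X]
      rw [← hL]
      field_simp
    have hSXL : (S + RatFunc.X) * (RatFunc.X * Lm ^ 2) = Nu ^ 2 := by
      rw [hNuM]
      linear_combination (norm := (first | ring1 | (ring_nf; reduce_mod_char!) | (ring_nf; reduce_mod_char!; ring_nf))) hSL
    have hsplit : c ^ 2 + c = algebraMap K[X] (RatFunc K) (X * lam ^ 2) / algebraMap K[X] (RatFunc K) μ ^ 2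
        + algebraMap K[X] (RatFunc K) (X * lam ^ 2) / algebraMap K[X] (RatFunc K) ν ^ 2 := by
      simp only [map_mul, map_pow, RatFunc.algebraMap_X]
      rw [← hM, ← hL, ← hNu, div_add_div _ _ (pow_ne_zero 2 hM0) (pow_ne_zero 2 hNu0),
        eq_div_iff (mul_ne_zero (pow_ne_zero 2 hM0) (pow_ne_zero 2 hNu0))]
      have h1 : M ^ 2 * Nu ^ 2 = (S * (S + RatFunc.X)) * (RatFunc.X * Lm ^ 2) ^ 2 := by
        rw [← hSL, ← hSXL]; ring
      have h2 : RatFunc.X * Lm ^ 2 * Nu ^ 2 + M ^ 2 * (RatFunc.X * Lm ^ 2)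
          = RatFunc.X * (RatFunc.X * Lm ^ 2) ^ 2 := by
        rw [hNuM]; (first | ring1 | (ring_nf; reduce_mod_char!) | (ring_nf; reduce_mod_char!; ring_nf))
      rw [h1, h2]
      linear_combination ((RatFunc.X * Lm ^ 2) ^ 2) * hcrel
    have hdl : (X * lam ^ 2 : K[X]).natDegree = 1 + 2 * lam.natDegree := by
      rw [natDegree_mul X_ne_zero (pow_ne_zero 2 hlam0), natDegree_X, natDegree_pow]
    have hdXl : (X * lam : K[X]).natDegree = 1 + lam.natDegree := by
      rw [natDegree_mul X_ne_zero hlam0, natDegree_X]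
    -- both summands are Artin-Schreier values
    obtain ⟨a1, b1, ha1, hb1⟩ : ∃ a1 b1 : (RatFunc K),
        a1 ^ 2 + a1 = algebraMap K[X] (RatFunc K) (X * lam ^ 2) / algebraMap K[X] (RatFunc K) μ ^ 2 ∧
        b1 ^ 2 + b1 = algebraMap K[X] (RatFunc K) (X * lam ^ 2) / algebraMap K[X] (RatFunc K) ν ^ 2 := by
      by_cases hdeg : (X * lam ^ 2 : K[X]).natDegree < 2 * μ.natDegree
      · obtain ⟨a1, ha1⟩ := wp_split hμ0 hν0 hμν hsplit hdeg
        refine ⟨a1, c + a1, ha1, ?_⟩
        have h3 : (c + a1) ^ 2 + (c + a1) = (a1 ^ 2 + a1) + (c ^ 2 + c) := by (first | ring1 | (ring_nf; reduce_mod_char!) | (ring_nf; reduce_mod_char!; ring_nf))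
        rw [h3, ha1, hsplit, ← add_assoc, CharTwo.add_self_eq_zero, zero_add]
      · have hνd : ν.natDegree = 1 + lam.natDegree := by
          rw [hνe, natDegree_add_eq_right_of_natDegree_lt (by rw [hdXl]; omega), hdXl]
        obtain ⟨b1, hb1⟩ := wp_split hν0 hμ0 hμν.symm (by rw [hsplit]; ring)
          (show (X * lam ^ 2 : K[X]).natDegree < 2 * ν.natDegree by omega)
        refine ⟨c + b1, b1, ?_, hb1⟩
        have h3 : (c + b1) ^ 2 + (c + b1) = (c ^ 2 + c) + (b1 ^ 2 + b1) := by (first | ring1 | (ring_nf; reduce_mod_char!) | (ring_nf; reduce_mod_char!; ring_nf))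
        rw [h3, hb1, hsplit]
        exact add_right_self' _ _
    -- height comparison
    have hyz : y * z * Nu ^ 2 = RatFunc.X * M ^ 2 := by
      rw [← hSXL, ← hSL]
      linear_combination (RatFunc.X * Lm ^ 2) * hkey
    have hxx : x * (x + RatFunc.X) * (y * z) = (y * z) ^ 2 + RatFunc.X * S ^ 2 + RatFunc.X ^ 2 := by
      have h1 : x * y = y ^ 2 + RatFunc.X := by linear_combination (norm := (first | ring1 | (ring_nf; reduce_mod_char!) | (ring_nf; reduce_mod_char!; ring_nf))) (-1 * hy)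
      have h2 : (x + RatFunc.X) * z = z ^ 2 + RatFunc.X := by linear_combination (norm := (first | ring1 | (ring_nf; reduce_mod_char!) | (ring_nf; reduce_mod_char!; ring_nf))) (-1 * hz')
      have h3 : x * (x + RatFunc.X) * (y * z) = (x * y) * ((x + RatFunc.X) * z) := by ring
      rw [h3, h1, h2, hS]
      (first | ring1 | (ring_nf; reduce_mod_char!) | (ring_nf; reduce_mod_char!; ring_nf))
    have hbig : x * (x + RatFunc.X) * (RatFunc.X ^ 2 * M ^ 2 * Nu ^ 2 * Lm ^ 4)
        = M ^ 4 * Nu ^ 4 + RatFunc.X ^ 7 * Lm ^ 8 := by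
      apply mul_left_cancel₀ (mul_ne_zero hX0 (pow_ne_zero 2 hM0))
      have h1 : RatFunc.X * M ^ 2 * (x * (x + RatFunc.X) * (RatFunc.X ^ 2 * M ^ 2 * Nu ^ 2 * Lm ^ 4))
          = (x * (x + RatFunc.X) * (y * z)) * (Nu ^ 4 * RatFunc.X ^ 2 * M ^ 2 * Lm ^ 4) := by
        rw [← hyz]; ring
      rw [h1, hxx]
      have h2 : ((y * z) ^ 2 + RatFunc.X * S ^ 2 + RatFunc.X ^ 2) * (Nu ^ 4 * RatFunc.X ^ 2 * M ^ 2 * Lm ^ 4)
          = (y * z * Nu ^ 2) ^ 2 * (RatFunc.X ^ 2 * M ^ 2 * Lm ^ 4)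
            + RatFunc.X * (S * (RatFunc.X * Lm ^ 2)) ^ 2 * (Nu ^ 4 * M ^ 2)
            + RatFunc.X ^ 4 * (Nu ^ 4 * M ^ 2 * Lm ^ 4) := by ring
      rw [h2, hyz, hSL]
      have h3 : Nu ^ 4 = M ^ 4 + RatFunc.X ^ 4 * Lm ^ 4 := by rw [hNuM]; (first | ring1 | (ring_nf; reduce_mod_char!) | (ring_nf; reduce_mod_char!; ring_nf))
      linear_combination (norm := (first | ring1 | (ring_nf; reduce_mod_char!) | (ring_nf; reduce_mod_char!; ring_nf))) ((RatFunc.X ^ 4 * M ^ 2 * Lm ^ 4) * h3)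
    have hpoly : h * (h + X * e) * (X ^ 2 * μ ^ 2 * ν ^ 2 * lam ^ 4)
        = (μ ^ 4 * ν ^ 4 + X ^ 7 * lam ^ 8) * e ^ 2 := by
      apply RatFunc.algebraMap_injective K
      simp only [map_mul, map_add, map_pow, RatFunc.algebraMap_X]
      rw [← hM, ← hL, ← hNu, ← hbig]
      have h1 : algebraMap K[X] (RatFunc K) h = x * algebraMap K[X] (RatFunc K) e := by
        rw [hx]; field_simp
      rw [h1]; ring
    have hN1 : IsCoprime (μ ^ 4 * ν ^ 4 + X ^ 7 * lam ^ 8) (X ^ 2 * μ ^ 2 * ν ^ 2 * lam ^ 4) := by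
      have hXν : IsCoprime X ν := by
        rw [hνe]; exact hXμ.add_mul_left_right lam
      have hlν : IsCoprime lam ν := by
        rw [hνe, mul_comm X lam]; exact hμlam.symm.add_mul_left_right X
      have k1 : IsCoprime (μ ^ 4 * ν ^ 4 + X ^ 7 * lam ^ 8) X := by
        have h1 : IsCoprime (μ ^ 4 * ν ^ 4) X := hXμ.symm.pow_left.mul_left hXν.symm.pow_left
        have h2 := h1.add_mul_left_left (X ^ 6 * lam ^ 8)
        have h3 : μ ^ 4 * ν ^ 4 + X * (X ^ 6 * lam ^ 8) = μ ^ 4 * ν ^ 4 + X ^ 7 * lam ^ 8 := by ring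
        rwa [h3] at h2
      have k2 : IsCoprime (μ ^ 4 * ν ^ 4 + X ^ 7 * lam ^ 8) lam := by
        have h1 : IsCoprime (μ ^ 4 * ν ^ 4) lam := hμlam.pow_left.mul_left hlν.symm.pow_left
        have h2 := h1.add_mul_left_left (X ^ 7 * lam ^ 7)
        have h3 : μ ^ 4 * ν ^ 4 + lam * (X ^ 7 * lam ^ 7) = μ ^ 4 * ν ^ 4 + X ^ 7 * lam ^ 8 := by ring
        rwa [h3] at h2
      have k3 : IsCoprime (μ ^ 4 * ν ^ 4 + X ^ 7 * lam ^ 8) μ := by
        have h1 : IsCoprime (X ^ 7 * lam ^ 8) μ := hXμ.pow_left.mul_left hμlam.symm.pow_left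
        have h2 := h1.add_mul_left_left (μ ^ 3 * ν ^ 4)
        have h3 : X ^ 7 * lam ^ 8 + μ * (μ ^ 3 * ν ^ 4) = μ ^ 4 * ν ^ 4 + X ^ 7 * lam ^ 8 := by ring
        rwa [h3] at h2
      have k4 : IsCoprime (μ ^ 4 * ν ^ 4 + X ^ 7 * lam ^ 8) ν := by
        have h1 : IsCoprime (X ^ 7 * lam ^ 8) ν := hXν.pow_left.mul_left hlν.pow_left
        have h2 := h1.add_mul_left_left (μ ^ 4 * ν ^ 3)
        have h3 : X ^ 7 * lam ^ 8 + ν * (μ ^ 4 * ν ^ 3) = μ ^ 4 * ν ^ 4 + X ^ 7 * lam ^ 8 := by ring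
        rwa [h3] at h2
      exact ((k1.pow_right.mul_right k3.pow_right).mul_right k4.pow_right).mul_right k2.pow_right
    have hdvd : (μ ^ 4 * ν ^ 4 + X ^ 7 * lam ^ 8) ∣ h * (h + X * e) := by
      apply hN1.dvd_of_dvd_mul_right
      rw [hpoly]; exact Dvd.intro _ rfl
    have hdeg1 := natDegree_le_of_dvd hdvd (mul_ne_zero hh hhe)
    have hdeg2 : (h * (h + X * e)).natDegree ≤ 2 * max h.natDegree e.natDegree + 1 := by
      rw [natDegree_mul hh hhe]
      have h1 : (h + X * e).natDegree ≤ max h.natDegree e.natDegree + 1 := by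
        apply natDegree_add_le_of_degree_le
        · omega
        · rw [natDegree_mul X_ne_zero he, natDegree_X]; omega
      omega
    have hd1 : (μ ^ 4 * ν ^ 4).natDegree = 4 * μ.natDegree + 4 * ν.natDegree := by
      rw [natDegree_mul (pow_ne_zero 4 hμ0) (pow_ne_zero 4 hν0), natDegree_pow, natDegree_pow]
    have hd2 : (X ^ 7 * lam ^ 8 : K[X]).natDegree = 7 + 8 * lam.natDegree := by
      rw [natDegree_mul (pow_ne_zero 7 X_ne_zero) (pow_ne_zero 8 hlam0), natDegree_pow, natDegree_X,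
        natDegree_pow]
    have hd3 : (μ ^ 4 * ν ^ 4 + X ^ 7 * lam ^ 8 : K[X]).natDegree
        = max (4 * μ.natDegree + 4 * ν.natDegree) (7 + 8 * lam.natDegree) := by
      rcases lt_or_gt_of_ne (show 4 * μ.natDegree + 4 * ν.natDegree ≠ 7 + 8 * lam.natDegree by omega)
        with h1 | h1
      · rw [natDegree_add_eq_right_of_natDegree_lt (by rw [hd1, hd2]; exact h1), hd2]
        omega
      · rw [natDegree_add_eq_left_of_natDegree_lt (by rw [hd1, hd2]; exact h1), hd1]
        omega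
    have hνd2 : 1 + lam.natDegree < μ.natDegree → ν.natDegree = μ.natDegree := by
      intro h1
      rw [hνe, natDegree_add_eq_left_of_natDegree_lt (by rw [hdXl]; exact h1)]
    by_cases hpos : μ.natDegree = 0 ∧ lam.natDegree = 0
    · rw [natDegree_zero_one hμ0 hpos.1, natDegree_zero_one hlam0 hpos.2] at ha1
      apply X_not_wp a1
      rw [ha1]
      simp
    · apply ih (max μ.natDegree lam.natDegree) (by
        by_cases h1 : 1 + lam.natDegree < μ.natDegree
        · have := hνd2 h1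
          omega
        · omega) μ lam hμ0 hlam0 (by rw [← hνe]; exact hν0) hμlam (le_max_left _ _)
        (le_max_right _ _) a1 b1
      · rw [ha1]
        simp only [map_mul, map_pow, RatFunc.algebraMap_X]
        rw [← hM, ← hL]
        field_simp
      · rw [hb1]
        simp only [map_mul, map_pow, RatFunc.algebraMap_X]
        rw [← hM, ← hL, ← hNu]
        have h1 : M / Lm + RatFunc.X = Nu / Lm := by
          rw [hNuM]; field_simp
        rw [h1]
        field_simp

/-- a nilpotent block of size two together with a two-dimensional kernel does not occur -/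
theorem type5 (Δ a z : (RatFunc K)) (ha0 : a ≠ 0) (ha1 : a ≠ 1)
    (ha : ph2 (RatFunc.X + Δ) Δ a = 0) (hz : ph2 (RatFunc.X + Δ) Δ z = 1) : False := by
  have hch : CharP (RatFunc K) 2 := inferInstance
  have hX0 : (RatFunc.X : (RatFunc K)) ≠ 0 := RatFunc.X_ne_zero
  have hs : a ^ 2 + a ≠ 0 := by
    intro h
    have h1 : a * (a + 1) = 0 := by linear_combination h
    rcases mul_eq_zero.1 h1 with h2 | h2
    · exact ha0 h2
    · exact ha1 (CharTwo.add_eq_zero.1 h2)
  have e1 : Δ * (a ^ 2 + a) = RatFunc.X := by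
    rw [ph2_fac] at ha
    apply mul_left_cancel₀ hs
    linear_combination (norm := (first | ring1 | (ring_nf; reduce_mod_char!) | (ring_nf; reduce_mod_char!; ring_nf))) ha
  rw [ph2_fac] at hz
  obtain ⟨s, hsd⟩ : ∃ s, s = z ^ 2 + z := ⟨_, rfl⟩
  rw [← hsd] at hz
  have hs0 : s ≠ 0 := by
    rintro h0
    rw [h0] at hz
    apply one_ne_zero (α := (RatFunc K))
    rw [← hz]; ring
  obtain ⟨c, hcd⟩ : ∃ c, c = 1 + RatFunc.X * s := ⟨_, rfl⟩
  have e2 : (a ^ 2 + a) * c = RatFunc.X * s ^ 2 := by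
    rw [hcd]
    linear_combination (norm := (first | ring1 | (ring_nf; reduce_mod_char!) | (ring_nf; reduce_mod_char!; ring_nf))) (-1 * (a ^ 2 + a) * hz + s ^ 2 * e1)
  have hc0 : c ≠ 0 := by
    intro h0
    rw [h0, mul_zero] at e2
    exact (mul_ne_zero hX0 (pow_ne_zero 2 hs0)) e2.symm
  have e3 : ((a + z) ^ 2 + (a + z)) * c = s := by
    have h1 : ((a + z) ^ 2 + (a + z)) * c = (a ^ 2 + a) * c + (z ^ 2 + z) * c := by (first | ring1 | (ring_nf; reduce_mod_char!) | (ring_nf; reduce_mod_char!; ring_nf))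
    rw [h1, e2, ← hsd, hcd]; (first | ring1 | (ring_nf; reduce_mod_char!) | (ring_nf; reduce_mod_char!; ring_nf))
  have hw0 : (a + z) ^ 2 + (a + z) ≠ 0 := by
    intro h0
    rw [h0, zero_mul] at e3
    exact hs0 e3.symm
  obtain ⟨γ, hγ⟩ := sq_of_even hc0 (by
    intro π hπ
    obtain ⟨P, hP⟩ : ∃ P, P = plP π hπ := ⟨_, rfl⟩
    rw [← hP]
    have hX01 : P.v RatFunc.X = 0 ∨ P.v RatFunc.X = 1 := by
      rw [hP, ← RatFunc.algebraMap_X]
      rcases v_linear (degree_X (R := K)) hπ with h1 | h1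
      · exact Or.inl h1.1
      · exact Or.inr h1.1
    have hv3 : P.v ((a + z) ^ 2 + (a + z)) + P.v c = P.v s := by
      rw [← P.map_mul _ _ hw0 hc0, e3]
    have hXs0 : RatFunc.X * s ≠ 0 := mul_ne_zero hX0 hs0
    have hvXs : P.v (RatFunc.X * s) = P.v RatFunc.X + P.v s := P.map_mul _ _ hX0 hs0
    have hss : s = z ^ 2 + z := hsd
    have hc1 : RatFunc.X * s = 1 + c := by rw [hcd]; (first | ring1 | (ring_nf; reduce_mod_char!) | (ring_nf; reduce_mod_char!; ring_nf))
    rcases lt_trichotomy (P.v c) 0 with h1 | h1 | h1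
    · have h2 := (P.v_add hc0 (b := 1) (P.ge_of_le (by rw [P.v_one]; omega))).2
      rw [add_comm, ← hc1, hvXs] at h2
      obtain ⟨k, hk⟩ := wp_even P z (by rw [← hss]; exact hs0) (by rw [← hss]; omega)
      rw [← hss] at hk
      rcases hX01 with h3 | h3
      · exact ⟨k, by omega⟩
      · exfalso
        obtain ⟨k', hk'⟩ := wp_even P (a + z) hw0 (by omega)
        omega
    · exact ⟨0, by omega⟩
    · have h2 := (P.v_add one_ne_zero (b := c) (P.ge_of_le (by rw [P.v_one]; omega))).2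
      rw [← hc1, hvXs, P.v_one] at h2
      obtain ⟨k', hk'⟩ := wp_even P (a + z) hw0 (by omega)
      rcases hX01 with h3 | h3
      · exact ⟨-k', by omega⟩
      · exfalso
        obtain ⟨k, hk⟩ := wp_even P z (by rw [← hss]; exact hs0) (by rw [← hss]; omega)
        rw [← hss] at hk
        omega)
  have hγ0 : γ ≠ 0 := by
    rintro rfl
    apply hc0
    rw [hγ]; ring
  have e4 : RatFunc.X * s = (γ + 1) ^ 2 := by
    rw [hγ] at hcd
    linear_combination (norm := (first | ring1 | (ring_nf; reduce_mod_char!) | (ring_nf; reduce_mod_char!; ring_nf))) (-1 * hcd)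
  have hγ1 : γ + 1 ≠ 0 := by
    intro h0
    rw [h0] at e4
    apply (mul_ne_zero hX0 hs0)
    rw [e4]; ring
  have hx0 : RatFunc.X / (γ + 1) ≠ 0 := div_ne_zero hX0 hγ1
  have hxX : RatFunc.X / (γ + 1) + RatFunc.X = RatFunc.X * γ / (γ + 1) := by
    field_simp
    (first | ring1 | (ring_nf; reduce_mod_char!) | (ring_nf; reduce_mod_char!; ring_nf))
  obtain ⟨h, e, hh, he, hc, hhe⟩ := exists_frac' hx0
  have hAe : algebraMap K[X] (RatFunc K) e ≠ 0 := aX_ne he
  refine lemE (max h.natDegree e.natDegree) h e hh he ?_ hc (le_max_left _ _) (le_max_right _ _)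
    z (a + z) ?_ ?_
  · intro h0
    have h1 := congrArg (algebraMap K[X] (RatFunc K)) h0
    rw [map_add, map_mul, RatFunc.algebraMap_X, map_zero] at h1
    have h2 : RatFunc.X * γ / (γ + 1) = 0 := by
      rw [← hxX, hhe]
      field_simp
      linear_combination h1
    exact (div_ne_zero (mul_ne_zero hX0 hγ0) hγ1) h2
  · rw [← hhe, ← hsd]
    field_simp
    linear_combination e4
  · rw [← hhe, hxX]
    apply mul_right_cancel₀ hc0
    rw [e3, hγ]
    field_simp
    linear_combination e4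

end

end Pool.Agent.W82
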