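import Pool.Agent.W82.D10

set_option autoImplicit false
set_option linter.unusedSectionVars false

namespace Pool.Agent.W82

open Module

section LA
variable {K : Type*} [Field K] [F2 K] {M : Type*} [AddCommGroup M] [Module K M]

/-- the configurations to be excluded -/
def Cfg {M : Type*} [AddCommGroup M] (t : M → M) : Prop :=
  (∃ a u, a ≠ 0 ∧ u ≠ 0 ∧ t a = 0 ∧ t (t u) = t u + u) ∨
  (∃ a b u, a ≠ 0 ∧ b ≠ 0 ∧ a ≠ b ∧ u ≠ 0 ∧ t a = 0 ∧ t b = 0 ∧ t u = u) ∨
  (∃ a b z, a ≠ 0 ∧ b ≠ 0 ∧ a ≠ b ∧ t a = 0 ∧ t b = 0 ∧ t z = a) ∨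
  (∃ a z u, a ≠ 0 ∧ u ≠ 0 ∧ t a = 0 ∧ t z = a ∧ t u = u) ∨
  (∃ a z y, a ≠ 0 ∧ t a = 0 ∧ t z = a ∧ t y = z)

variable (K) in
include K in
lemma self_add (x : M) : x + x = 0 := by
  have h : (2 : K) • x = 0 := by
    rw [CharTwo.two_eq_zero, zero_smul]
  rwa [two_smul] at h

variable (K) in
include K in
lemma eq_of_add {x y : M} (h : x + y = 0) : x = y := by
  have h1 : x + y + y = y := by rw [h, zero_add]
  rwa [add_assoc, self_add K, add_zero] at h1

lemma finrank_le_one_of (W : Submodule K M)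
    (h : ∀ x ∈ W, ∀ y ∈ W, x ≠ 0 → y ≠ 0 → x = y) : finrank K W ≤ 1 := by
  by_cases hx : ∃ x ∈ W, x ≠ 0
  · obtain ⟨x, hx, hx0⟩ := hx
    apply finrank_le_one (⟨x, hx⟩ : W)
    intro w
    by_cases hw : (w : M) = 0
    · refine ⟨0, ?_⟩
      rw [zero_smul]
      exact Subtype.ext hw.symm
    · refine ⟨1, ?_⟩
      rw [one_smul]
      exact Subtype.ext (h x hx w w.2 hx0 hw)
  · push Not at hx
    apply finrank_le_one (0 : W)
    intro w
    refine ⟨0, ?_⟩
    rw [smul_zero]
    exact Subtype.ext (hx w w.2).symm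

lemma exists_two (W : Submodule K M) (h : 2 ≤ finrank K W) :
    ∃ x ∈ W, ∃ y ∈ W, x ≠ 0 ∧ y ≠ 0 ∧ x ≠ y := by
  by_contra hcon
  push Not at hcon
  have := finrank_le_one_of W (fun x hx y hy h1 h2 => hcon x hx y hy h1 h2)
  omega

lemma chain2 (t : M →ₗ[K] M) (N : ℕ) (w : M) (h1 : t w ≠ 0) (hN : (t ^ N) w = 0) :
    ∃ z a, a ≠ 0 ∧ t a = 0 ∧ t z = a := by
  classical
  have hex : ∃ k, (t ^ k) w = 0 := ⟨N, hN⟩
  obtain ⟨k, hk⟩ : ∃ k, k = Nat.find hex := ⟨_, rfl⟩
  have hk0 : (t ^ k) w = 0 := by rw [hk]; exact Nat.find_spec hex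
  have hmin : ∀ j, j < k → (t ^ j) w ≠ 0 := by
    intro j hj
    rw [hk] at hj
    exact Nat.find_min hex hj
  have hk2 : 2 ≤ k := by
    by_contra hcon
    have h2 : k = 0 ∨ k = 1 := by omega
    rcases h2 with h2 | h2
    · rw [h2, pow_zero] at hk0
      apply h1
      have : w = 0 := hk0
      rw [this, map_zero]
    · rw [h2, pow_one] at hk0
      exact h1 hk0
  obtain ⟨j, rfl⟩ : ∃ j, k = j + 2 := ⟨k - 2, by omega⟩
  refine ⟨(t ^ j) w, (t ^ (j + 1)) w, hmin _ (by omega), ?_, ?_⟩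
  · rw [← hk0, pow_succ' t (j + 1)]; rfl
  · rw [pow_succ' t j]; rfl

lemma chain3 (t : M →ₗ[K] M) (N : ℕ) (w : M) (h1 : t (t w) ≠ 0) (hN : (t ^ N) w = 0) :
    ∃ y z a, a ≠ 0 ∧ t a = 0 ∧ t z = a ∧ t y = z := by
  classical
  have hex : ∃ k, (t ^ k) w = 0 := ⟨N, hN⟩
  obtain ⟨k, hk⟩ : ∃ k, k = Nat.find hex := ⟨_, rfl⟩
  have hk0 : (t ^ k) w = 0 := by rw [hk]; exact Nat.find_spec hex
  have hmin : ∀ j, j < k → (t ^ j) w ≠ 0 := by
    intro j hj
    rw [hk] at hj
    exact Nat.find_min hex hj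
  have hk2 : 3 ≤ k := by
    by_contra hcon
    have h2 : k = 0 ∨ k = 1 ∨ k = 2 := by omega
    rcases h2 with h2 | h2 | h2
    · rw [h2, pow_zero] at hk0
      apply h1
      have : w = 0 := hk0
      rw [this, map_zero, map_zero]
    · rw [h2, pow_one] at hk0
      apply h1
      rw [hk0, map_zero]
    · rw [h2, pow_two] at hk0
      exact h1 hk0
  obtain ⟨j, rfl⟩ : ∃ j, k = j + 3 := ⟨k - 3, by omega⟩
  refine ⟨(t ^ j) w, (t ^ (j + 1)) w, (t ^ (j + 2)) w, hmin _ (by omega), ?_, ?_, ?_⟩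
  · rw [← hk0, pow_succ' t (j + 2)]; rfl
  · rw [pow_succ' t (j + 1)]; rfl
  · rw [pow_succ' t j]; rfl

variable [FiniteDimensional K M]

lemma nil_case (t : M →ₗ[K] M) (N : ℕ) (hs : ∀ x, (t ^ N) (((t + 1) ^ N) x) = 0)
    (h3 : 3 ≤ finrank K M) (hne : ∃ w, t w ≠ 0)
    (h2 : ∃ x y, x ≠ 0 ∧ y ≠ 0 ∧ x ≠ y ∧ (t ^ N) x = 0 ∧ (t ^ N) y = 0) : Cfg t := by
  by_cases hK1 : ∃ u, u ≠ 0 ∧ t u = u
  · obtain ⟨u, hu0, hu⟩ := hK1
    by_cases hK0 : ∃ a b, a ≠ 0 ∧ b ≠ 0 ∧ a ≠ b ∧ t a = 0 ∧ t b = 0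
    · obtain ⟨a, b, ha, hb, hab, hta, htb⟩ := hK0
      exact Or.inr (Or.inl ⟨a, b, u, ha, hb, hab, hu0, hta, htb, hu⟩)
    · obtain ⟨x, y, hx, hy, hxy, hNx, hNy⟩ := h2
      have hw : ∃ w, t w ≠ 0 ∧ (t ^ N) w = 0 := by
        by_contra hcon
        push Not at hcon
        apply hK0
        refine ⟨x, y, hx, hy, hxy, ?_, ?_⟩
        · by_contra h; exact hcon x h hNx
        · by_contra h; exact hcon y h hNy
      obtain ⟨w, hw1, hw2⟩ := hw
      obtain ⟨z, a, ha, hta, htz⟩ := chain2 t N w hw1 hw2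
      exact Or.inr (Or.inr (Or.inr (Or.inl ⟨a, z, u, ha, hu0, hta, htz, hu⟩)))
  · push Not at hK1
    have hinj : Function.Injective ⇑(t + 1 : M →ₗ[K] M) := by
      rw [← LinearMap.ker_eq_bot, LinearMap.ker_eq_bot']
      intro u hu
      by_contra hu0
      apply hK1 u hu0
      have h1 : t u + u = 0 := hu
      exact eq_of_add K h1
    have hsurj : Function.Surjective ⇑((t + 1 : M →ₗ[K] M) ^ N) := by
      apply LinearMap.injective_iff_surjective.1
      rw [Module.End.coe_pow]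
      exact hinj.iterate N
    have hnil : ∀ x, (t ^ N) x = 0 := by
      intro x
      obtain ⟨y, rfl⟩ := hsurj x
      exact hs y
    by_cases hK0 : ∃ a b, a ≠ 0 ∧ b ≠ 0 ∧ a ≠ b ∧ t a = 0 ∧ t b = 0
    · obtain ⟨a, b, ha, hb, hab, hta, htb⟩ := hK0
      obtain ⟨w, hw⟩ := hne
      obtain ⟨z, a', ha', hta', htz⟩ := chain2 t N w hw (hnil w)
      by_cases hba : b = a'
      · exact Or.inr (Or.inr (Or.inl ⟨a', a, z, ha', ha, fun h => hab (h.symm.trans hba.symm),
          hta', hta, htz⟩))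
      · exact Or.inr (Or.inr (Or.inl ⟨a', b, z, ha', hb, fun h => hba h.symm, hta', htb, htz⟩))
    · push Not at hK0
      have hw : ∃ w, t (t w) ≠ 0 := by
        by_contra hcon
        push Not at hcon
        have h1 : finrank K (LinearMap.ker t) ≤ 1 := by
          apply finrank_le_one_of
          intro x hx y hy hx0 hy0
          by_contra hxy
          exact hK0 x y hx0 hy0 hxy hx hy
        have h4 : LinearMap.range t ≤ LinearMap.ker t := by
          rintro _ ⟨w, rfl⟩
          exact hcon w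
        have h5 := Submodule.finrank_mono h4
        have h6 := LinearMap.finrank_range_add_finrank_ker t
        omega
      obtain ⟨w, hw⟩ := hw
      obtain ⟨y, z, a, ha, hta, htz, hty⟩ := chain3 t N w hw (hnil w)
      exact Or.inr (Or.inr (Or.inr (Or.inr ⟨a, z, y, ha, hta, htz, hty⟩)))

theorem classify (t : M →ₗ[K] M) (h3 : 3 ≤ finrank K M) (hne0 : ∃ w, t w ≠ 0)
    (hne1 : ∃ w, t w ≠ w) :
    (∃ W : Submodule K M, 3 ≤ finrank K W ∧ (∀ x ∈ W, t x ∈ W) ∧
      ∀ x ∈ W, x ≠ 0 → t x ≠ 0 ∧ t x ≠ x) ∨ Cfg ⇑t ∨ Cfg ⇑(t + 1 : M →ₗ[K] M) := by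
  have hcomm : Commute t (t + 1) := (Commute.refl t).add_right (Commute.one_right t)
  have hev := (t * (t + 1)).eventually_isCompl_ker_pow_range_pow
  rw [Filter.eventually_atTop] at hev
  obtain ⟨N0, hN0⟩ := hev
  have hcompl := hN0 (N0 + 1) (by omega)
  obtain ⟨N, hN⟩ : ∃ N, N = N0 + 1 := ⟨_, rfl⟩
  rw [← hN] at hcompl
  have hN1 : N ≠ 0 := by omega
  set s := t * (t + 1) with hsdef
  have hst : Commute t (s ^ N) := ((Commute.refl t).mul_right hcomm).pow_right N
  have hRs : ∀ x ∈ LinearMap.range (s ^ N), t x ∈ LinearMap.range (s ^ N) := by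
    rintro _ ⟨y, rfl⟩
    refine ⟨t y, ?_⟩
    have h1 : (s ^ N * t) y = (t * s ^ N) y := by rw [hst.eq]
    exact h1
  have hRe : ∀ x ∈ LinearMap.range (s ^ N), x ≠ 0 → t x ≠ 0 ∧ t x ≠ x := by
    intro x hx hx0
    have key : s x ≠ 0 := by
      intro h1
      apply hx0
      have h2 : x ∈ LinearMap.ker (s ^ N) := by
        rw [LinearMap.mem_ker]
        obtain ⟨n, rfl⟩ := Nat.exists_eq_succ_of_ne_zero hN1
        rw [pow_succ]
        show (s ^ n) (s x) = 0
        rw [h1, map_zero]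
      have h3 := hcompl.disjoint.le_bot (Submodule.mem_inf.2 ⟨h2, hx⟩)
      exact (Submodule.mem_bot K).1 h3
    have hsx : s x = t (t x + x) := rfl
    constructor
    · intro h1
      apply key
      rw [hsx, h1, zero_add, h1]
    · intro h1
      apply key
      rw [hsx, h1, self_add K, map_zero]
  by_cases hR3 : 3 ≤ finrank K (LinearMap.range (s ^ N))
  · exact Or.inl ⟨_, hR3, hRs, hRe⟩
  have hrn := LinearMap.finrank_range_add_finrank_ker (s ^ N)
  by_cases hR : ∃ u ∈ LinearMap.range (s ^ N), u ≠ 0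
  · obtain ⟨u, hu, hu0⟩ := hR
    obtain ⟨hu1, hu2⟩ := hRe u hu hu0
    have htu := hRs u hu
    have httu := hRs _ htu
    obtain ⟨hv1, hv2⟩ := hRe _ htu hu1
    have huu : t (t u) = t u + u := by
      -- otherwise three independent vectors
      by_contra hcon
      have hind : LinearIndependent K ![u, t u, t (t u)] := by
        rw [Fintype.linearIndependent_iff]
        intro c hc
        rw [Fin.sum_univ_three] at hc
        simp only [Matrix.cons_val_zero, Matrix.cons_val_one, Matrix.cons_val_two,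
          Matrix.head_cons, Matrix.tail_cons] at hc
        have h4 : t u + u ≠ 0 := fun h => hu2 (eq_of_add K h)
        have hw := (hRe _ (Submodule.add_mem _ htu hu) h4).2
        rw [map_add] at hw
        have hcases : c 0 = 0 ∧ c 1 = 0 ∧ c 2 = 0 := by
          rcases F2.out (c 0) with h0 | h0 <;> rcases F2.out (c 1) with h1 | h1 <;>
            rcases F2.out (c 2) with h2 | h2 <;> rw [h0, h1, h2] at hc <;>
            simp only [zero_smul, one_smul, zero_add, add_zero] at hc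
          · exact ⟨h0, h1, h2⟩
          · exact absurd hc hv1
          · exact absurd hc hu1
          · exfalso
            exact hv2 (eq_of_add K hc).symm
          · exact absurd hc hu0
          · exfalso
            have h5 := (eq_of_add K hc)
            apply hw
            rw [← h5, add_comm]
          · exfalso
            exact hu2 (eq_of_add K hc).symm
          · exfalso
            apply hcon
            have h5 := (eq_of_add K hc)
            rw [← h5, add_comm]
        intro i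
        fin_cases i
        · exact hcases.1
        · exact hcases.2.1
        · exact hcases.2.2
      apply hR3
      have hspan : Submodule.span K (Set.range ![u, t u, t (t u)]) ≤ LinearMap.range (s ^ N) := by
        rw [Submodule.span_le]
        rintro _ ⟨i, rfl⟩
        fin_cases i
        · exact hu
        · exact htu
        · exact httu
      have h5 := Submodule.finrank_mono hspan
      rw [finrank_span_eq_card hind] at h5
      simpa using h5
    -- an eigenvector in the complement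
    have hker : ∃ a, a ≠ 0 ∧ (s ^ N) a = 0 := by
      by_contra hcon
      push Not at hcon
      have h1 : LinearMap.ker (s ^ N) = ⊥ := by
        rw [LinearMap.ker_eq_bot']
        intro m hm
        by_contra h0
        exact hcon m h0 hm
      rw [h1, finrank_bot] at hrn
      omega
    obtain ⟨a, ha0, ha⟩ := hker
    have hsa : ∃ b, b ≠ 0 ∧ s b = 0 := by
      by_cases h1 : s a = 0
      · exact ⟨a, ha0, h1⟩
      · obtain ⟨z, b, hb, htb, -⟩ := chain2 s N a h1 ha
        exact ⟨b, hb, htb⟩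
    obtain ⟨b, hb0, hb⟩ := hsa
    have hb' : t (t b + b) = 0 := hb
    by_cases h1 : t b + b = 0
    · right; right; left
      refine ⟨b, u, hb0, hu0, h1, ?_⟩
      show t (t u + u) + (t u + u) = (t u + u) + u
      rw [map_add, huu]
      have e1 : t u + u + t u + (t u + u) = (t u + t u) + (t u + u + u) := by abel
      rw [e1, self_add K, zero_add]
    · right; left; left
      exact ⟨t b + b, u, h1, hu0, hb', huu⟩
  · push Not at hR
    have hs0 : ∀ x, (s ^ N) x = 0 := fun x => hR _ ⟨x, rfl⟩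
    have hpow : s ^ N = t ^ N * (t + 1) ^ N := hcomm.mul_pow N
    have hs1 : ∀ x, (t ^ N) (((t + 1) ^ N) x) = 0 := by
      intro x
      have := hs0 x
      rw [hpow] at this
      exact this
    have hpow' : s ^ N = (t + 1) ^ N * t ^ N := by
      rw [hpow]; exact (hcomm.pow_pow N N).eq
    have hs2 : ∀ x, ((t + 1) ^ N) ((t ^ N) x) = 0 := by
      intro x
      have := hs0 x
      rw [hpow'] at this
      exact this
    have htt : t + 1 + 1 = t := by
      ext x
      show t x + x + x = t x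
      rw [add_assoc, self_add K, add_zero]
    have hle : LinearMap.range (t ^ N) ≤ LinearMap.ker ((t + 1) ^ N) := by
      rintro _ ⟨x, rfl⟩
      exact hs2 x
    have h5 := Submodule.finrank_mono hle
    have h6 := LinearMap.finrank_range_add_finrank_ker (t ^ N)
    rcases le_or_gt 2 (finrank K (LinearMap.ker (t ^ N))) with h7 | h7
    · obtain ⟨x, hx, y, hy, hx0, hy0, hxy⟩ := exists_two _ h7
      right; left
      exact nil_case t N hs1 h3 hne0 ⟨x, y, hx0, hy0, hxy, hx, hy⟩
    · obtain ⟨x, hx, y, hy, hx0, hy0, hxy⟩ := exists_two (LinearMap.ker ((t + 1) ^ N)) (by omega)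
      right; right
      refine nil_case (t + 1) N ?_ h3 ?_ ⟨x, y, hx0, hy0, hxy, hx, hy⟩
      · intro x
        rw [htt]
        exact hs2 x
      · obtain ⟨w, hw⟩ := hne1
        refine ⟨w, ?_⟩
        intro h8
        apply hw
        exact eq_of_add K h8

end LA

end Pool.Agent.W82
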