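import Pool.Agent.W82.D1
import Pool.Agent.H209R3.Gen1

set_option autoImplicit false

namespace Pool.Agent.W82

open Polynomial Pool.Agent.H209R3.Gen

section
variable {K : Type*} [Field K] [F2 K] {κ : Type*} [Fintype κ]

lemma poly_dec_unique {a b c d : K[X]} (h : a ^ 2 + X * b ^ 2 = c ^ 2 + X * d ^ 2) :
    a = c ∧ b = d := by
  have hch : CharP K 2 := inferInstance
  have h1 : (a + c) ^ 2 + X * (b + d) ^ 2 = 0 := by
    linear_combination (norm := (first | ring1 | (ring_nf; reduce_mod_char!) | (ring_nf; reduce_mod_char!; ring_nf))) h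
  obtain ⟨h2, h3⟩ := poly_decomp_zero h1
  exact ⟨CharTwo.add_eq_zero.1 h2, CharTwo.add_eq_zero.1 h3⟩

omit [F2 K] in
lemma par_factor (a b : κ → K[X]) (hpar : ParF a b) :
    ∃ (r s : K[X]) (c : κ → K[X]), (∀ i, a i = r * c i) ∧ (∀ i, b i = s * c i) := by
  by_cases ha : a = 0
  · by_cases hb : b = 0
    · refine ⟨0, 0, 0, ?_, ?_⟩
      · intro i; rw [ha]; simp
      · intro i; rw [hb]; simp
    · obtain ⟨G, m, -, -, hm⟩ := exists_primF hb
      refine ⟨0, G, m, ?_, hm⟩
      intro i; rw [ha]; simp
  · obtain ⟨G, m, hG, hm1, hm⟩ := exists_primF ha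
    have h1 : ParF b m := by
      intro i j
      apply mul_left_cancel₀ hG
      have h2 := hpar i j
      rw [hm i, hm j] at h2
      linear_combination -h2
    obtain ⟨l, hl⟩ := primF_par hm1 h1
    exact ⟨G, l, m, hm, hl⟩

omit [F2 K] [Fintype κ] in
lemma parF_of_base {w p : κ → K[X]} (i0 : κ) (h0 : w i0 ≠ 0)
    (h : ∀ i, w i * p i0 = w i0 * p i) : ParF w p := by
  intro i j
  apply mul_left_cancel₀ h0
  have h1 := h i
  have h2 := h j
  linear_combination (-w i) * h2 + (w j) * h1

theorem L1poly (x : κ → K[X]) (t : κ → κ) (hx : PrimF x) (i0 j0 : κ) (hi0 : x i0 ≠ 0)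
    (hj0 : x j0 ≠ 0) (hij : x i0 ≠ x j0) (c g δ : K[X]) (hc : c ≠ 0) (hδ : δ ≠ 0)
    (h : ∀ i, c * (x (t i) + X * x i) = g * x i ^ 2 + δ * x i ^ 4) :
    derivative (g * δ) = 0 ∨ ∃ G : K[X], G ≠ 0 ∧ ∃ e : κ × κ → K[X],
      ∀ i j, x i * x j ^ 2 + x j * x i ^ 2 = G * e (i, j) ^ 2 := by
  have hch : CharP K 2 := inferInstance
  let p : κ × κ → K[X] := fun ij => x ij.1 * x ij.2 ^ 2 + x ij.2 * x ij.1 ^ 2
  have hp : p ≠ 0 := by
    intro h0
    have h1 : p (i0, j0) = 0 := by rw [h0]; rfl
    have h2 : x i0 * x j0 * (x i0 + x j0) = 0 := by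
      rw [← h1]
      simp only [p]
      ring
    rcases mul_eq_zero.1 h2 with h3 | h3
    · exact (mul_ne_zero hi0 hj0) h3
    · exact hij (CharTwo.add_eq_zero.1 h3)
  obtain ⟨G, π, hG, hπ, hpπ⟩ := exists_primF hp
  have hpe : ∀ i j, x i * x j ^ 2 + x j * x i ^ 2 = G * π (i, j) := fun i j => hpπ (i, j)
  choose R P hRP hRd hPd using fun i => poly_decomp (x (t i) + X * x i)
  have hBd : ∀ i, (x (t i) + X * x i).natDegree ≤ htF x + 1 := by
    intro i
    apply natDegree_add_le_of_degree_le
    · have := le_htF x (t i); omega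
    · have := le_htF x i
      exact le_trans natDegree_mul_le (by rw [natDegree_X]; omega)
  have hRd' : ∀ i, 2 * (R i).natDegree ≤ htF x + 1 := fun i => le_trans (hRd i) (hBd i)
  have hPd' : ∀ i, 2 * (P i).natDegree ≤ htF x := by
    intro i
    by_cases h0 : P i = 0
    · rw [h0]; simp
    · have := hPd i h0
      have := hBd i
      omega
  have hdet : ∀ i j k, (x (t i) + X * x i) * (x j * x k ^ 2 + x k * x j ^ 2) ^ 2
      + (x (t j) + X * x j) * (x k * x i ^ 2 + x i * x k ^ 2) ^ 2
      + (x (t k) + X * x k) * (x i * x j ^ 2 + x j * x i ^ 2) ^ 2 = 0 := by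
    intro i j k
    apply mul_left_cancel₀ hc
    rw [mul_zero]
    have h1 := h i
    have h2 := h j
    have h3 := h k
    linear_combination (norm := (first | ring1 | (ring_nf; reduce_mod_char!) | (ring_nf; reduce_mod_char!; ring_nf))) ((x j * x k ^ 2 + x k * x j ^ 2) ^ 2 * h1 + (x k * x i ^ 2 + x i * x k ^ 2) ^ 2 * h2
      + (x i * x j ^ 2 + x j * x i ^ 2) ^ 2 * h3)
  have hRPπ : ∀ i j k, R i * π (j, k) + R j * π (k, i) + R k * π (i, j) = 0 ∧
      P i * π (j, k) + P j * π (k, i) + P k * π (i, j) = 0 := by
    intro i j k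
    apply poly_decomp_zero
    have h1 := hdet i j k
    rw [hRP i, hRP j, hRP k, hpe, hpe, hpe] at h1
    have hG2 : G ^ 2 ≠ 0 := pow_ne_zero 2 hG
    apply mul_left_cancel₀ hG2
    rw [mul_zero, ← h1]
    (first | ring1 | (ring_nf; reduce_mod_char!) | (ring_nf; reduce_mod_char!; ring_nf))
  have hsymp : ∀ i j, π (i, j) = π (j, i) := by
    intro i j
    apply mul_left_cancel₀ hG
    rw [← hpe, ← hpe]
    ring
  have hdiagp : ∀ i, π (i, i) = 0 := by
    intro i
    apply mul_left_cancel₀ hG
    rw [← hpe]
    (first | ring1 | (ring_nf; reduce_mod_char!) | (ring_nf; reduce_mod_char!; ring_nf))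
  choose a b hab had hbd using fun ij => poly_decomp (π ij)
  have hxab : ∀ i j k, x i * a (j, k) + x j * a (k, i) + x k * a (i, j) = 0 ∧
      x i * b (j, k) + x j * b (k, i) + x k * b (i, j) = 0 := by
    intro i j k
    apply poly_decomp_zero
    have h1 : x i ^ 2 * π (j, k) + x j ^ 2 * π (k, i) + x k ^ 2 * π (i, j) = 0 := by
      apply mul_left_cancel₀ hG
      have e1 := hpe j k
      have e2 := hpe k i
      have e3 := hpe i j
      linear_combination (norm := (first | ring1 | (ring_nf; reduce_mod_char!) | (ring_nf; reduce_mod_char!; ring_nf))) (-(x i ^ 2 * e1) - x j ^ 2 * e2 - x k ^ 2 * e3)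
    rw [hab (j, k), hab (k, i), hab (i, j)] at h1
    rw [← h1]
    (first | ring1 | (ring_nf; reduce_mod_char!) | (ring_nf; reduce_mod_char!; ring_nf))
  have hsa : ∀ i j, a (i, j) = a (j, i) ∧ b (i, j) = b (j, i) := by
    intro i j
    apply poly_dec_unique
    rw [← hab, ← hab]
    exact hsymp i j
  have hda : ∀ i, a (i, i) = 0 ∧ b (i, i) = 0 := by
    intro i
    apply poly_decomp_zero
    rw [← hab]
    exact hdiagp i
  by_cases h1 : ∃ i j, R i * P j ≠ R j * P i
  · obtain ⟨α, β, hαβ⟩ := h1
    have hω : R α * P β + R β * P α ≠ 0 := fun h0 => hαβ (CharTwo.add_eq_zero.1 h0)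
    have s1 : ∀ i, (R i * P α + R α * P i) * π (α, β)
        = (R α * P β + R β * P α) * π (i, α) := by
      intro i
      obtain ⟨e1, e2⟩ := hRPπ i α β
      linear_combination (norm := (first | ring1 | (ring_nf; reduce_mod_char!) | (ring_nf; reduce_mod_char!; ring_nf))) (P α * e1 + R α * e2)
    have s3 : ∀ i j, (R i * P j + R j * P i) * π (α, β)
        = (R α * P β + R β * P α) * π (i, j) := by
      intro i j
      obtain ⟨e1, e2⟩ := hRPπ i j α
      have f1 := s1 i
      have f2 := s1 j
      have g1 : R α * ((R i * P j + R j * P i) * π (α, β)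
        + (R α * P β + R β * P α) * π (i, j)) = 0 := by
        have hs := hsymp α i
        rw [hs] at e1
        linear_combination (norm := (first | ring1 | (ring_nf; reduce_mod_char!) | (ring_nf; reduce_mod_char!; ring_nf))) ((R α * P β + R β * P α) * e1 + R i * f2 + R j * f1)
      have g2 : P α * ((R i * P j + R j * P i) * π (α, β)
        + (R α * P β + R β * P α) * π (i, j)) = 0 := by
        have hs := hsymp α i
        rw [hs] at e2
        linear_combination (norm := (first | ring1 | (ring_nf; reduce_mod_char!) | (ring_nf; reduce_mod_char!; ring_nf))) ((R α * P β + R β * P α) * e2 + P i * f2 + P j * f1)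
      rcases mul_eq_zero.1 g1 with g3 | g3
      · rcases mul_eq_zero.1 g2 with g4 | g4
        · exfalso
          apply hω
          rw [g3, g4]; ring
        · exact CharTwo.add_eq_zero.1 g4
      · exact CharTwo.add_eq_zero.1 g3
    have hpar : ParF (fun ij : κ × κ => R ij.1 * P ij.2 + R ij.2 * P ij.1) π :=
      parF_of_base (α, β) hω (fun ij => s3 ij.1 ij.2)
    have hH : htF π ≤ htF x := by
      refine le_trans (htF_le_of_par hπ hpar ?_) ?_
      · intro h0
        exact hω (congrFun h0 (α, β))
      · apply htF_le
        rintro ⟨i, j⟩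
        have d1 := hRd' i
        have d2 := hRd' j
        have d3 := hPd' i
        have d4 := hPd' j
        dsimp only
        apply natDegree_add_le_of_degree_le
        · exact le_trans natDegree_mul_le (by omega)
        · exact le_trans natDegree_mul_le (by omega)
    by_cases h2 : ParF a b
    · right
      obtain ⟨r, s, e, hr, hs⟩ := par_factor a b h2
      refine ⟨G * (r ^ 2 + X * s ^ 2), ?_, e, ?_⟩
      · apply mul_ne_zero hG
        intro h0
        apply primF_ne_zero hπ
        funext ij
        rw [hab ij, hr, hs]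
        simp only [Pi.zero_apply]
        linear_combination (e ij ^ 2) * h0
      · intro i j
        rw [hpe, hab, hr, hs]
        ring
    · exfalso
      have h3 : ∃ j k, a (i0, j) * b (i0, k) ≠ a (i0, k) * b (i0, j) := by
        by_contra hcon
        push Not at hcon
        apply h2
        rintro ⟨i, j⟩ ⟨k, l⟩
        have hx2 : x i0 ^ 2 ≠ 0 := pow_ne_zero 2 hi0
        apply mul_left_cancel₀ hx2
        have c1 := hcon j l
        have c2 := hcon j k
        have c3 := hcon i l
        have c4 := hcon i k
        have e1 : x i0 * a (i, j) = x i * a (i0, j) + x j * a (i0, i) := by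
          have := (hxab i0 i j).1
          rw [(hsa j i0).1] at this
          linear_combination (norm := (first | ring1 | (ring_nf; reduce_mod_char!) | (ring_nf; reduce_mod_char!; ring_nf))) this
        have e2 : x i0 * b (i, j) = x i * b (i0, j) + x j * b (i0, i) := by
          have := (hxab i0 i j).2
          rw [(hsa j i0).2] at this
          linear_combination (norm := (first | ring1 | (ring_nf; reduce_mod_char!) | (ring_nf; reduce_mod_char!; ring_nf))) this
        have e3 : x i0 * a (k, l) = x k * a (i0, l) + x l * a (i0, k) := by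
          have := (hxab i0 k l).1
          rw [(hsa l i0).1] at this
          linear_combination (norm := (first | ring1 | (ring_nf; reduce_mod_char!) | (ring_nf; reduce_mod_char!; ring_nf))) this
        have e4 : x i0 * b (k, l) = x k * b (i0, l) + x l * b (i0, k) := by
          have := (hxab i0 k l).2
          rw [(hsa l i0).2] at this
          linear_combination (norm := (first | ring1 | (ring_nf; reduce_mod_char!) | (ring_nf; reduce_mod_char!; ring_nf))) this
        have e5 : x i0 ^ 2 * (a (i, j) * b (k, l)) = (x i0 * a (i, j)) * (x i0 * b (k, l)) := by ring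
        have e6 : x i0 ^ 2 * (a (k, l) * b (i, j)) = (x i0 * a (k, l)) * (x i0 * b (i, j)) := by ring
        rw [e5, e6, e1, e2, e3, e4]
        linear_combination (x i * x k) * c1 + (x i * x l) * c2 + (x j * x k) * c3 + (x j * x l) * c4
      obtain ⟨j, k, hjk⟩ := h3
      let E : κ → K[X] := fun i => a (i, j) * b (k, i0) + a (i, k) * b (i0, j) + a (i, i0) * b (j, k)
      have hE0 : E i0 ≠ 0 := by
        intro h0
        apply hjk
        simp only [E] at h0
        rw [(hda i0).1, (hsa k i0).2] at h0
        linear_combination (norm := (first | ring1 | (ring_nf; reduce_mod_char!) | (ring_nf; reduce_mod_char!; ring_nf))) h0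
      have hEx : ∀ i, E i * x i0 = E i0 * x i := by
        intro i
        have e1 : x i0 * a (i, j) = x i * a (i0, j) + x j * a (i0, i) := by
          have := (hxab i0 i j).1
          rw [(hsa j i0).1] at this
          linear_combination (norm := (first | ring1 | (ring_nf; reduce_mod_char!) | (ring_nf; reduce_mod_char!; ring_nf))) this
        have e2 : x i0 * a (i, k) = x i * a (i0, k) + x k * a (i0, i) := by
          have := (hxab i0 i k).1
          rw [(hsa k i0).1] at this
          linear_combination (norm := (first | ring1 | (ring_nf; reduce_mod_char!) | (ring_nf; reduce_mod_char!; ring_nf))) this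
        have e3 := (hxab i0 j k).2
        simp only [E]
        rw [(hda i0).1, (hsa k i0).2, (hsa i i0).1]
        rw [(hsa k i0).2] at e3
        linear_combination (norm := (first | ring1 | (ring_nf; reduce_mod_char!) | (ring_nf; reduce_mod_char!; ring_nf))) (b (i0, k) * e1 + b (i0, j) * e2 + a (i0, i) * e3)
      have hEpar : ParF E x := by
        apply parF_of_base i0 hE0 hEx
      have hxE : htF x ≤ htF E := htF_le_of_par hx hEpar (fun h0 => hE0 (congrFun h0 i0))
      have hEd : ∀ u v, (a u * b v).natDegree + 1 ≤ htF π ∨ a u * b v = 0 := by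
        intro u v
        by_cases hbv : b v = 0
        · right; rw [hbv, mul_zero]
        · left
          have d1 := had u
          have d2 := hbd v hbv
          have d3 := le_htF π u
          have d4 := le_htF π v
          have d5 := natDegree_mul_le (p := a u) (q := b v)
          omega
      have hHpos : 1 ≤ htF π := by
        by_contra hcon
        have hz : ∀ u v, a u * b v = 0 := by
          intro u v
          rcases hEd u v with h4 | h4
          · omega
          · exact h4
        apply hE0
        simp only [E]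
        rw [hz, hz, hz]; ring
      have hEd2 : ∀ u v, (a u * b v).natDegree ≤ htF π - 1 := by
        intro u v
        rcases hEd u v with h4 | h4
        · omega
        · rw [h4]; simp
      have hE1 : htF E ≤ htF π - 1 := by
        apply htF_le
        intro i
        apply natDegree_add_le_of_degree_le
        · apply natDegree_add_le_of_degree_le
          · exact hEd2 _ _
          · exact hEd2 _ _
        · exact hEd2 _ _
      omega
  · left
    push Not at h1
    obtain ⟨r, s, m, hr, hs⟩ := par_factor R P h1
    set C' := c * (r ^ 2 + X * s ^ 2) with hC'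
    have hm : ∀ i, C' * m i ^ 2 = g * x i ^ 2 + δ * x i ^ 4 := by
      intro i
      rw [← h i, hRP i, hr, hs, hC']
      ring
    have hC0 : C' ≠ 0 := by
      intro h0
      have e1 := hm i0
      have e2 := hm j0
      rw [h0, zero_mul] at e1 e2
      have f1 : g + δ * x i0 ^ 2 = 0 := by
        have hx2 : x i0 ^ 2 ≠ 0 := pow_ne_zero 2 hi0
        apply mul_left_cancel₀ hx2
        linear_combination -e1
      have f2 : g + δ * x j0 ^ 2 = 0 := by
        have hx2 : x j0 ^ 2 ≠ 0 := pow_ne_zero 2 hj0
        apply mul_left_cancel₀ hx2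
        linear_combination -e2
      have f3 : δ * (x i0 + x j0) ^ 2 = 0 := by
        linear_combination (norm := (first | ring1 | (ring_nf; reduce_mod_char!) | (ring_nf; reduce_mod_char!; ring_nf))) (f1 + f2)
      rcases mul_eq_zero.1 f3 with f4 | f4
      · exact hδ f4
      · exact hij (CharTwo.add_eq_zero.1 (pow_eq_zero_iff (two_ne_zero) |>.1 f4))
    have hd : ∀ i, derivative C' * m i ^ 2 = derivative g * x i ^ 2 + derivative δ * x i ^ 4 := by
      intro i
      have e1 := congrArg derivative (hm i)
      have h2 : (C (2 : K) : K[X]) = 0 := by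
        rw [CharTwo.two_eq_zero, C_0]
      have h4 : (C (4 : K) : K[X]) = 0 := by
        rw [show (4 : K) = 2 * 2 by norm_num, CharTwo.two_eq_zero, mul_zero, C_0]
      simp only [derivative_mul, derivative_add, derivative_pow, Nat.cast_ofNat, h2, h4,
        zero_mul, mul_zero, add_zero] at e1
      exact e1
    have hk : ∀ i, x i ≠ 0 → (C' * derivative g + derivative C' * g)
        + (C' * derivative δ + derivative C' * δ) * x i ^ 2 = 0 := by
      intro i hi
      have hx2 : x i ^ 2 ≠ 0 := pow_ne_zero 2 hi
      apply mul_left_cancel₀ hx2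
      have e1 := hm i
      have e2 := hd i
      linear_combination (norm := (first | ring1 | (ring_nf; reduce_mod_char!) | (ring_nf; reduce_mod_char!; ring_nf))) (C' * (-e2) + derivative C' * (-e1))
    have k1 := hk i0 hi0
    have k2 := hk j0 hj0
    have k3 : (C' * derivative δ + derivative C' * δ) * (x i0 + x j0) ^ 2 = 0 := by
      linear_combination (norm := (first | ring1 | (ring_nf; reduce_mod_char!) | (ring_nf; reduce_mod_char!; ring_nf))) (k1 + k2)
    have k4 : C' * derivative δ + derivative C' * δ = 0 := by
      rcases mul_eq_zero.1 k3 with f4 | f4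
      · exact f4
      · exact absurd (CharTwo.add_eq_zero.1 (pow_eq_zero_iff (two_ne_zero) |>.1 f4)) hij
    have k5 : C' * derivative g + derivative C' * g = 0 := by
      rw [k4, zero_mul, add_zero] at k1
      exact k1
    apply mul_left_cancel₀ hC0
    rw [derivative_mul]
    linear_combination (norm := (first | ring1 | (ring_nf; reduce_mod_char!) | (ring_nf; reduce_mod_char!; ring_nf))) (δ * k5 + g * k4)

end

end Pool.Agent.W82
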