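import Pool.Agent.W82.D1

set_option autoImplicit false

namespace Pool.Agent.W82

open Polynomial

/-- a discrete valuation of the rational function field, with junk value at zero -/
structure Plc (K : Type*) [Field K] where
  v : RatFunc K → ℤ
  map_mul : ∀ a b, a ≠ 0 → b ≠ 0 → v (a * b) = v a + v b
  map_add : ∀ a b, a ≠ 0 → b ≠ 0 → a + b ≠ 0 → min (v a) (v b) ≤ v (a + b)

section
variable {K : Type*} [Field K] [F2 K]


namespace Plc
variable (P : Plc K)

/-- being zero or having valuation at least n -/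
def ge (n : ℤ) (a : (RatFunc K)) : Prop := a = 0 ∨ n ≤ P.v a

omit [F2 K] in
lemma ge_zero (n : ℤ) : P.ge n 0 := Or.inl rfl

omit [F2 K] in
lemma ge_of_le {n : ℤ} {a : (RatFunc K)} (h : n ≤ P.v a) : P.ge n a := Or.inr h

omit [F2 K] in
lemma ge_mono {n m : ℤ} {a : (RatFunc K)} (h : P.ge n a) (hm : m ≤ n) : P.ge m a := by
  rcases h with h | h
  · exact Or.inl h
  · exact Or.inr (le_trans hm h)

omit [F2 K] in
lemma le_of_ge {n : ℤ} {a : (RatFunc K)} (h : P.ge n a) (ha : a ≠ 0) : n ≤ P.v a := h.resolve_left ha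

omit [F2 K] in
lemma ge_add {n : ℤ} {a b : (RatFunc K)} (ha : P.ge n a) (hb : P.ge n b) : P.ge n (a + b) := by
  by_cases h0 : a + b = 0
  · exact Or.inl h0
  · rcases ha with ha | ha
    · right
      rw [ha, zero_add] at h0 ⊢
      exact hb.resolve_left h0
    · rcases hb with hb | hb
      · right
        rw [hb, add_zero]
        exact ha
      · by_cases ha0 : a = 0
        · right
          rw [ha0, zero_add]; exact hb
        · by_cases hb0 : b = 0
          · right
            rw [hb0, add_zero]; exact ha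
          · right
            have := P.map_add a b ha0 hb0 h0
            omega

omit [F2 K] in
lemma ge_mul {n m : ℤ} {a b : (RatFunc K)} (ha : P.ge n a) (hb : P.ge m b) : P.ge (n + m) (a * b) := by
  by_cases ha0 : a = 0
  · left; rw [ha0, zero_mul]
  by_cases hb0 : b = 0
  · left; rw [hb0, mul_zero]
  right
  rw [P.map_mul a b ha0 hb0]
  have := P.le_of_ge ha ha0
  have := P.le_of_ge hb hb0
  omega

omit [F2 K] in
lemma v_one : P.v 1 = 0 := by
  have := P.map_mul 1 1 one_ne_zero one_ne_zero
  rw [mul_one] at this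
  omega

omit [F2 K] in
lemma v_inv {a : (RatFunc K)} (ha : a ≠ 0) : P.v a⁻¹ = -P.v a := by
  have := P.map_mul a a⁻¹ ha (inv_ne_zero ha)
  rw [mul_inv_cancel₀ ha, P.v_one] at this
  omega

omit [F2 K] in
lemma v_pow {a : (RatFunc K)} (ha : a ≠ 0) (n : ℕ) : P.v (a ^ n) = n * P.v a := by
  induction n with
  | zero => rw [pow_zero, P.v_one]; simp
  | succ n ih =>
    rw [pow_succ, P.map_mul _ _ (pow_ne_zero n ha) ha, ih]
    push_cast; ring

/-- the smaller valuation wins -/
lemma v_add {a b : (RatFunc K)} (ha : a ≠ 0) (hb : P.ge (P.v a + 1) b) :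
    a + b ≠ 0 ∧ P.v (a + b) = P.v a := by
  by_cases hb0 : b = 0
  · rw [hb0, add_zero]; exact ⟨ha, rfl⟩
  have hb1 := P.le_of_ge hb hb0
  have h0 : a + b ≠ 0 := by
    intro h0
    have : a = b := CharTwo.add_eq_zero.1 h0
    rw [this] at hb1
    omega
  refine ⟨h0, ?_⟩
  have h1 := P.map_add a b ha hb0 h0
  have h2 : a = (a + b) + b := by
    have : CharP (RatFunc K) 2 := inferInstance
    (first | ring1 | (ring_nf; reduce_mod_char!) | (ring_nf; reduce_mod_char!; ring_nf))
  have h3 := P.map_add (a + b) b h0 hb0 (by rw [← h2]; exact ha)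
  rw [← h2] at h3
  omega

/-- the residue field has two elements -/
def Res : Prop := ∀ a b : (RatFunc K), a ≠ 0 → b ≠ 0 → P.v a = P.v b → P.ge (P.v a + 1) (a + b)

lemma res_add {P : Plc K} (h : P.Res) {a b : (RatFunc K)} (ha : a ≠ 0) (hb : b ≠ 0) {n : ℤ} (h1 : P.v a = n)
    (h2 : P.v b = n) : P.ge (n + 1) (a + b) := by
  have := h a b ha hb (by rw [h1, h2])
  rw [h1] at this
  exact this

end Plc

omit [F2 K] in
lemma aX_ne {p : K[X]} (h : p ≠ 0) : algebraMap K[X] (RatFunc K) p ≠ 0 := fun h0 =>
  h ((RatFunc.algebraMap_injective K) (h0.trans (map_zero _).symm))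

omit [F2 K] in
lemma exists_frac' {f : (RatFunc K)} (hf : f ≠ 0) : ∃ p q : K[X], p ≠ 0 ∧ q ≠ 0 ∧ IsCoprime p q ∧
    f = algebraMap K[X] (RatFunc K) p / algebraMap K[X] (RatFunc K) q :=
  ⟨f.num, f.denom, RatFunc.num_ne_zero hf, f.denom_ne_zero, f.isCoprime_num_denom,
    (RatFunc.num_div_denom f).symm⟩

omit [F2 K] in
lemma fin_mult {π p : K[X]} (hπ : Prime π) (hp : p ≠ 0) : FiniteMultiplicity π p :=
  FiniteMultiplicity.of_prime_left hπ hp

/-- order at a prime polynomial -/
noncomputable def ordP (π : K[X]) (f : (RatFunc K)) : ℤ :=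
  (multiplicity π f.num : ℤ) - multiplicity π f.denom

omit [F2 K] in
lemma ordP_div {π p q : K[X]} (hπ : Prime π) (hp : p ≠ 0) (hq : q ≠ 0) :
    ordP π (algebraMap K[X] (RatFunc K) p / algebraMap K[X] (RatFunc K) q)
      = (multiplicity π p : ℤ) - multiplicity π q := by
  set f : (RatFunc K) := algebraMap K[X] (RatFunc K) p / algebraMap K[X] (RatFunc K) q with hf
  have hf0 : f ≠ 0 := div_ne_zero (aX_ne hp) (aX_ne hq)
  have h1 : algebraMap K[X] (RatFunc K) f.num / algebraMap K[X] (RatFunc K) f.denom = f := RatFunc.num_div_denom f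
  have h2 : p * f.denom = f.num * q := by
    apply RatFunc.algebraMap_injective K
    rw [map_mul, map_mul]
    rw [hf, div_eq_div_iff (aX_ne f.denom_ne_zero) (aX_ne hq)] at h1
    rw [← hf] at h1
    rw [← h1]
  have h3 : multiplicity π (p * f.denom) = multiplicity π p + multiplicity π f.denom :=
    multiplicity_mul hπ (fin_mult hπ (mul_ne_zero hp f.denom_ne_zero))
  have h4 : multiplicity π (f.num * q) = multiplicity π f.num + multiplicity π q :=
    multiplicity_mul hπ (fin_mult hπ (mul_ne_zero (RatFunc.num_ne_zero hf0) hq))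
  rw [h2, h4] at h3
  unfold ordP
  omega

omit [F2 K] in
lemma le_mult {π p : K[X]} (hπ : Prime π) (hp : p ≠ 0) {k : ℕ} (h : π ^ k ∣ p) :
    k ≤ multiplicity π p := (fin_mult hπ hp).le_multiplicity_of_pow_dvd h

/-- the place of a prime polynomial -/
noncomputable def plP (π : K[X]) (hπ : Prime π) : Plc K where
  v := ordP π
  map_mul := by
    intro a b ha hb
    obtain ⟨p, q, hp, hq, -, rfl⟩ := exists_frac' ha
    obtain ⟨r, s, hr, hs, -, rfl⟩ := exists_frac' hb
    rw [div_mul_div_comm, ← map_mul, ← map_mul, ordP_div hπ hp hq, ordP_div hπ hr hs,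
      ordP_div hπ (mul_ne_zero hp hr) (mul_ne_zero hq hs),
      multiplicity_mul hπ (fin_mult hπ (mul_ne_zero hp hr)),
      multiplicity_mul hπ (fin_mult hπ (mul_ne_zero hq hs))]
    push_cast; ring
  map_add := by
    intro a b ha hb hab
    obtain ⟨p, q, hp, hq, -, rfl⟩ := exists_frac' ha
    obtain ⟨r, s, hr, hs, -, rfl⟩ := exists_frac' hb
    have h1 : algebraMap K[X] (RatFunc K) p / algebraMap K[X] (RatFunc K) q
        + algebraMap K[X] (RatFunc K) r / algebraMap K[X] (RatFunc K) s
        = algebraMap K[X] (RatFunc K) (p * s + r * q) / algebraMap K[X] (RatFunc K) (q * s) := by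
      rw [map_add, map_mul, map_mul, map_mul]
      field_simp [aX_ne hq, aX_ne hs]
    rw [h1] at hab ⊢
    have h2 : p * s + r * q ≠ 0 := by
      rintro h0
      apply hab
      rw [h0, map_zero, zero_div]
    rw [ordP_div hπ hp hq, ordP_div hπ hr hs, ordP_div hπ h2 (mul_ne_zero hq hs),
      multiplicity_mul hπ (fin_mult hπ (mul_ne_zero hq hs))]
    have h3 : multiplicity π (p * s) = multiplicity π p + multiplicity π s :=
      multiplicity_mul hπ (fin_mult hπ (mul_ne_zero hp hs))
    have h4 : multiplicity π (r * q) = multiplicity π r + multiplicity π q :=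
      multiplicity_mul hπ (fin_mult hπ (mul_ne_zero hr hq))
    have h5 : min (multiplicity π (p * s)) (multiplicity π (r * q))
        ≤ multiplicity π (p * s + r * q) := by
      apply le_mult hπ h2
      apply dvd_add
      · exact dvd_trans (pow_dvd_pow _ (min_le_left _ _)) (pow_multiplicity_dvd _ _)
      · exact dvd_trans (pow_dvd_pow _ (min_le_right _ _)) (pow_multiplicity_dvd _ _)
    omega

omit [F2 K] in
lemma plP_div {π p q : K[X]} (hπ : Prime π) (hp : p ≠ 0) (hq : q ≠ 0) :
    (plP π hπ).v (algebraMap K[X] (RatFunc K) p / algebraMap K[X] (RatFunc K) q)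
      = (multiplicity π p : ℤ) - multiplicity π q := ordP_div hπ hp hq

omit [F2 K] in
lemma plP_poly {π p : K[X]} (hπ : Prime π) (hp : p ≠ 0) :
    (plP π hπ).v (algebraMap K[X] (RatFunc K) p) = (multiplicity π p : ℤ) := by
  have := plP_div hπ hp one_ne_zero
  rw [map_one, div_one, multiplicity_of_one_right hπ.not_unit] at this
  simpa using this

omit [F2 K] in
lemma plP_X_nonneg {π : K[X]} (hπ : Prime π) : 0 ≤ (plP π hπ).v RatFunc.X := by
  rw [← RatFunc.algebraMap_X, plP_poly hπ X_ne_zero]
  omega

lemma plP_od {π : K[X]} (hπ : Prime π) {f : (RatFunc K)} (hf : (plP π hπ).ge 0 f) :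
    (plP π hπ).ge 0 (od f) := by
  rcases hf with hf | hf
  · rw [hf, od_zero]; exact Or.inl rfl
  by_cases hf0 : f = 0
  · rw [hf0, od_zero]; exact Or.inl rfl
  obtain ⟨p, q, hp, hq, hpq, hfe⟩ := exists_frac' hf0
  rw [hfe, plP_div hπ hp hq] at hf
  have hq0 : multiplicity π q = 0 := by
    by_contra hcon
    have h1 : π ∣ q := dvd_of_multiplicity_pos (Nat.pos_of_ne_zero hcon)
    have h2 : π ∣ p := dvd_of_multiplicity_pos (by omega)
    exact hπ.not_unit (hpq.isUnit_of_dvd' h2 h1)
  obtain ⟨a, b, hab, -, -⟩ := poly_decomp (p * q)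
  have hod : od f = algebraMap K[X] (RatFunc K) b / algebraMap K[X] (RatFunc K) q := by
    apply od_eq (a := algebraMap K[X] (RatFunc K) a / algebraMap K[X] (RatFunc K) q)
    have h1 := congrArg (algebraMap K[X] (RatFunc K)) hab
    rw [map_mul, map_add, map_mul, map_pow, map_pow, RatFunc.algebraMap_X] at h1
    rw [hfe]
    have := aX_ne hq
    field_simp
    exact h1
  rw [hod]
  by_cases hb : b = 0
  · left; rw [hb, map_zero, zero_div]
  · right
    rw [plP_div hπ hb hq, hq0]
    omega

/-- the place at zero -/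
noncomputable def plX (K : Type*) [Field K] : Plc K := plP X prime_X

omit [F2 K] in
lemma plX_X : (plX K).v RatFunc.X = 1 := by
  unfold plX
  rw [← RatFunc.algebraMap_X, plP_poly prime_X X_ne_zero, multiplicity_self]
  rfl

lemma plX_res : (plX K).Res := by
  intro a b ha hb h
  by_cases hab : a + b = 0
  · exact Or.inl hab
  right
  unfold plX at *
  obtain ⟨p, q, hp, hq, -, rfl⟩ := exists_frac' ha
  obtain ⟨r, s, hr, hs, -, rfl⟩ := exists_frac' hb
  have h1 : algebraMap K[X] (RatFunc K) p / algebraMap K[X] (RatFunc K) q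
      + algebraMap K[X] (RatFunc K) r / algebraMap K[X] (RatFunc K) s
      = algebraMap K[X] (RatFunc K) (p * s + r * q) / algebraMap K[X] (RatFunc K) (q * s) := by
    rw [map_add, map_mul, map_mul, map_mul]
    field_simp [aX_ne hq, aX_ne hs]
  rw [h1] at hab ⊢
  have h2 : p * s + r * q ≠ 0 := by
    rintro h0
    apply hab
    rw [h0, map_zero, zero_div]
  rw [plP_div prime_X hp hq, plP_div prime_X hr hs] at h
  rw [plP_div prime_X hp hq, plP_div prime_X h2 (mul_ne_zero hq hs),
    multiplicity_mul prime_X (fin_mult prime_X (mul_ne_zero hq hs))]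
  have h3 : multiplicity X (p * s) = multiplicity X p + multiplicity X s :=
    multiplicity_mul prime_X (fin_mult prime_X (mul_ne_zero hp hs))
  have h4 : multiplicity X (r * q) = multiplicity X r + multiplicity X q :=
    multiplicity_mul prime_X (fin_mult prime_X (mul_ne_zero hr hq))
  obtain ⟨u, hu, hu2⟩ := (fin_mult prime_X (mul_ne_zero hp hs)).exists_eq_pow_mul_and_not_dvd
  obtain ⟨w, hw, hw2⟩ := (fin_mult prime_X (mul_ne_zero hr hq)).exists_eq_pow_mul_and_not_dvd
  have hk : multiplicity X (p * s) = multiplicity X (r * q) := by omega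
  have h5 : multiplicity X (p * s) + 1 ≤ multiplicity X (p * s + r * q) := by
    apply le_mult prime_X h2
    rw [← hk] at hw
    have h6 : X ∣ u + w := by
      rw [X_dvd_iff] at hu2 hw2 ⊢
      rw [coeff_add, ne_zero_eq_one hu2, ne_zero_eq_one hw2]
      exact CharTwo.add_self_eq_zero 1
    obtain ⟨z, hz⟩ := h6
    refine ⟨z, ?_⟩
    calc p * s + r * q = X ^ multiplicity X (p * s) * u + X ^ multiplicity X (p * s) * w := by
          rw [← hu, ← hw]
      _ = X ^ multiplicity X (p * s) * (u + w) := by ring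
      _ = X ^ (multiplicity X (p * s) + 1) * z := by rw [hz]; ring
  omega

/-- the place at infinity -/
noncomputable def plInf (K : Type*) [Field K] : Plc K where
  v f := -RatFunc.intDegree f
  map_mul := by
    intro a b ha hb
    rw [RatFunc.intDegree_mul ha hb]; ring
  map_add := by
    intro a b ha hb hab
    have := RatFunc.intDegree_add_le hb hab
    omega

omit [F2 K] in
lemma plInf_X : (plInf K).v RatFunc.X = -1 := by
  show -RatFunc.intDegree RatFunc.X = -1
  rw [RatFunc.intDegree_X]

lemma plInf_res : (plInf K).Res := by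
  intro a b ha hb h
  by_cases hab : a + b = 0
  · exact Or.inl hab
  right
  change -RatFunc.intDegree a = -RatFunc.intDegree b at h
  show -RatFunc.intDegree a + 1 ≤ -RatFunc.intDegree (a + b)
  obtain ⟨p, q, hp, hq, -, rfl⟩ := exists_frac' ha
  obtain ⟨r, s, hr, hs, -, rfl⟩ := exists_frac' hb
  have h1 : algebraMap K[X] (RatFunc K) p / algebraMap K[X] (RatFunc K) q
      + algebraMap K[X] (RatFunc K) r / algebraMap K[X] (RatFunc K) s
      = algebraMap K[X] (RatFunc K) (p * s + r * q) / algebraMap K[X] (RatFunc K) (q * s) := by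
    rw [map_add, map_mul, map_mul, map_mul]
    field_simp [aX_ne hq, aX_ne hs]
  rw [h1] at hab ⊢
  have h2 : p * s + r * q ≠ 0 := by
    rintro h0
    apply hab
    rw [h0, map_zero, zero_div]
  rw [RatFunc.intDegree_div (aX_ne hp) (aX_ne hq), RatFunc.intDegree_div (aX_ne hr) (aX_ne hs),
    RatFunc.intDegree_polynomial, RatFunc.intDegree_polynomial, RatFunc.intDegree_polynomial,
    RatFunc.intDegree_polynomial] at h
  rw [RatFunc.intDegree_div (aX_ne hp) (aX_ne hq), RatFunc.intDegree_div (aX_ne h2) (aX_ne (mul_ne_zero hq hs)),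
    RatFunc.intDegree_polynomial, RatFunc.intDegree_polynomial, RatFunc.intDegree_polynomial,
    RatFunc.intDegree_polynomial, natDegree_mul hq hs]
  have h3 : (p * s).natDegree = p.natDegree + s.natDegree := natDegree_mul hp hs
  have h4 : (r * q).natDegree = r.natDegree + q.natDegree := natDegree_mul hr hq
  have hd : (p * s).natDegree = (r * q).natDegree := by omega
  have h5 : (p * s + r * q).natDegree < (p * s).natDegree := by
    have h6 : (p * s + r * q).degree < (p * s).degree := by
      have h7 : p * s + r * q = p * s - r * q := by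
        have : CharP K 2 := inferInstance
        (first | ring1 | (ring_nf; reduce_mod_char!) | (ring_nf; reduce_mod_char!; ring_nf))
      rw [h7]
      apply degree_sub_lt
      · rw [degree_eq_natDegree (mul_ne_zero hp hs), degree_eq_natDegree (mul_ne_zero hr hq), hd]
      · exact mul_ne_zero hp hs
      · rw [leadingCoeff_one (mul_ne_zero hp hs), leadingCoeff_one (mul_ne_zero hr hq)]
    exact natDegree_lt_natDegree h2 h6
  omega

end

end Pool.Agent.W82
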