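import Pool.Agent.W82.D2
import Pool.Agent.W82.D3

set_option autoImplicit false

namespace Pool.Agent.W82

open Polynomial Pool.Agent.H209R3.Gen

section
variable {K : Type*} [Field K] [F2 K]


/-- the rank two operator -/
noncomputable def ph2 (g Δ w : (RatFunc K)) : (RatFunc K) := RatFunc.X * w + g * w ^ 2 + Δ * w ^ 4

lemma ph2_add (g Δ x y : (RatFunc K)) : ph2 g Δ (x + y) = ph2 g Δ x + ph2 g Δ y := by
  have hch : CharP (RatFunc K) 2 := inferInstance
  unfold ph2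
  (first | ring1 | (ring_nf; reduce_mod_char!) | (ring_nf; reduce_mod_char!; ring_nf))

lemma ph2_zero (g Δ : (RatFunc K)) : ph2 g Δ 0 = 0 := by
  unfold ph2
  ring

/-- the dichotomy over the rational function field -/
theorem L1F (g Δ : (RatFunc K)) (hΔ : Δ ≠ 0) (S : Finset (RatFunc K)) (hS : ∀ w ∈ S, ph2 g Δ w ∈ S)
    (a b : (RatFunc K)) (ha : a ∈ S) (hb : b ∈ S) (ha0 : a ≠ 0) (hb0 : b ≠ 0) (hab : a ≠ b) :
    (∃ h, g * Δ = h ^ 2) ∨ ∃ δ0 δ1, ∀ w ∈ S, dd w = δ0 * w + δ1 * w ^ 2 := by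
  have hch : CharP (RatFunc K) 2 := inferInstance
  have hchK : CharP K 2 := inferInstance
  let A := algebraMap K[X] (RatFunc K)
  have hA : Function.Injective A := RatFunc.algebraMap_injective K
  obtain ⟨d, hd⟩ := IsLocalization.exist_integer_multiples_of_finite (nonZeroDivisors K[X])
    (fun w : S => (w : (RatFunc K)))
  choose y hy using hd
  have hd0 : (d : K[X]) ≠ 0 := nonZeroDivisors.coe_ne_zero d
  have hAd : A d ≠ 0 := aX_ne hd0
  have hy' : ∀ w : S, A (y w) = A d * (w : (RatFunc K)) := by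
    intro w
    have := hy w
    simp only [Algebra.smul_def] at this
    exact this
  have hyne : y ≠ 0 := by
    intro h0
    have h1 := hy' ⟨a, ha⟩
    rw [h0] at h1
    simp only [Pi.zero_apply, map_zero] at h1
    exact (mul_ne_zero hAd ha0) h1.symm
  obtain ⟨G, x, hG, hx, hyx⟩ := exists_primF hyne
  have hAG : A G ≠ 0 := aX_ne hG
  set lam : (RatFunc K) := A G / A d with hlam
  have hlam0 : lam ≠ 0 := div_ne_zero hAG hAd
  have hw : ∀ w : S, (w : (RatFunc K)) = lam * A (x w) := by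
    intro w
    have h1 := hy' w
    rw [hyx w, map_mul] at h1
    rw [hlam]
    field_simp
    linear_combination -h1
  obtain ⟨e, he⟩ := IsLocalization.exist_integer_multiples_of_finite (nonZeroDivisors K[X])
    (![g * lam, Δ * lam ^ 3] : Fin 2 → (RatFunc K))
  obtain ⟨g0, hg0⟩ := he 0
  obtain ⟨D0, hD0⟩ := he 1
  simp only [Matrix.cons_val_zero, Matrix.cons_val_one] at hg0 hD0
  have he0 : (e : K[X]) ≠ 0 := nonZeroDivisors.coe_ne_zero e
  have hAe : A e ≠ 0 := aX_ne he0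
  have hg0' : A g0 = A e * (g * lam) := by
    simp only [Algebra.smul_def] at hg0
    exact hg0
  have hD0' : A D0 = A e * (Δ * lam ^ 3) := by
    simp only [Algebra.smul_def] at hD0
    exact hD0
  have hD0ne : D0 ≠ 0 := by
    rintro rfl
    rw [map_zero] at hD0'
    exact (mul_ne_zero hAe (mul_ne_zero hΔ (pow_ne_zero 3 hlam0))) hD0'.symm
  let t : S → S := fun w => ⟨ph2 g Δ w, hS _ w.2⟩
  have hxa : x ⟨a, ha⟩ ≠ 0 := by
    intro h0
    have := hw ⟨a, ha⟩
    rw [h0, map_zero, mul_zero] at this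
    exact ha0 this
  have hxb : x ⟨b, hb⟩ ≠ 0 := by
    intro h0
    have := hw ⟨b, hb⟩
    rw [h0, map_zero, mul_zero] at this
    exact hb0 this
  have hxab : x ⟨a, ha⟩ ≠ x ⟨b, hb⟩ := by
    intro h0
    have h1 := hw ⟨a, ha⟩
    have h2 := hw ⟨b, hb⟩
    rw [h0] at h1
    exact hab (h1.trans h2.symm)
  have hrel : ∀ w : S, (e : K[X]) * (x (t w) + X * x w) = g0 * x w ^ 2 + D0 * x w ^ 4 := by
    intro w
    apply hA
    rw [map_mul, map_add, map_mul, map_add, map_mul, map_mul, map_pow, map_pow, hg0', hD0']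
    have h1 := hw w
    have h2 : ph2 g Δ w = lam * A (x (t w)) := hw (t w)
    unfold ph2 at h2
    rw [h1] at h2
    have hX : A X = RatFunc.X := RatFunc.algebraMap_X
    rw [hX]
    apply mul_left_cancel₀ hlam0
    linear_combination (norm := (first | ring1 | (ring_nf; reduce_mod_char!) | (ring_nf; reduce_mod_char!; ring_nf))) ((-(A e)) * h2)
  rcases L1poly x t hx _ _ hxa hxb hxab (e : K[X]) g0 D0 he0 hD0ne hrel with h1 | ⟨G2, hG2, ee, hee⟩
  · left
    obtain ⟨r, s, hrs, -, -⟩ := poly_decomp (g0 * D0)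
    rw [hrs] at h1
    have h2 : (C (2 : K) : K[X]) = 0 := by
      rw [CharTwo.two_eq_zero, C_0]
    simp only [derivative_add, derivative_mul, derivative_pow, derivative_X, Nat.cast_ofNat, h2,
      zero_mul, mul_zero, add_zero, zero_add, one_mul] at h1
    have h3 : s = 0 := pow_eq_zero_iff (two_ne_zero) |>.1 h1
    rw [h3] at hrs
    have h4 := congrArg A hrs
    rw [map_mul, map_add, map_mul, map_pow, map_pow, map_zero, hg0', hD0'] at h4
    refine ⟨A r / (A e * lam ^ 2), ?_⟩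
    field_simp
    linear_combination h4
  · right
    set Γ : (RatFunc K) := lam ^ 3 * A G2 with hΓ
    have hΓ0 : Γ ≠ 0 := mul_ne_zero (pow_ne_zero 3 hlam0) (aX_ne hG2)
    have hp : ∀ w z : S, (w : (RatFunc K)) * (z : (RatFunc K)) ^ 2 + (z : (RatFunc K)) * (w : (RatFunc K)) ^ 2 = A (ee (w, z)) ^ 2 * Γ := by
      intro w z
      have h1 := congrArg A (hee w z)
      rw [map_add, map_mul, map_mul, map_pow, map_pow, map_mul, map_pow] at h1
      rw [hw w, hw z, hΓ]
      linear_combination (lam ^ 3) * h1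
    set γ : (RatFunc K) := dd Γ / Γ with hγ
    have hγ' : γ * Γ = dd Γ := by rw [hγ]; field_simp
    have hpd : ∀ w z : S, (z : (RatFunc K)) ^ 2 * (dd (w : (RatFunc K)) + γ * w) = (w : (RatFunc K)) ^ 2 * (dd (z : (RatFunc K)) + γ * z) := by
      intro w z
      have h1 := congrArg dd (hp w z)
      rw [dd_add, dd_sq_mul, mul_comm (w : (RatFunc K)), mul_comm (z : (RatFunc K)), dd_sq_mul, dd_sq_mul, ← hγ'] at h1
      have h2 := hp w z
      linear_combination (norm := (first | ring1 | (ring_nf; reduce_mod_char!) | (ring_nf; reduce_mod_char!; ring_nf))) (h1 + γ * h2)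
    refine ⟨γ, (dd a + γ * a) / a ^ 2, ?_⟩
    intro w hwS
    have h1 := hpd ⟨w, hwS⟩ ⟨a, ha⟩
    simp only at h1
    have ha2 : a ^ 2 ≠ 0 := pow_ne_zero 2 ha0
    apply mul_left_cancel₀ ha2
    have h2 : a ^ 2 * (γ * w + (dd a + γ * a) / a ^ 2 * w ^ 2)
        = a ^ 2 * γ * w + (dd a + γ * a) * w ^ 2 := by
      field_simp
    rw [h2]
    linear_combination (norm := (first | ring1 | (ring_nf; reduce_mod_char!) | (ring_nf; reduce_mod_char!; ring_nf))) h1

/-- the Riccati relation -/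
def Ric (δ0 δ1 : (RatFunc K)) (S : Finset (RatFunc K)) : Prop := ∀ w ∈ S, dd w = δ0 * w + δ1 * w ^ 2

lemma ric_identity (g Δ δ0 δ1 : (RatFunc K)) (S : Finset (RatFunc K)) (hS : ∀ w ∈ S, ph2 g Δ w ∈ S)
    (hR : Ric δ0 δ1 S) (w : (RatFunc K)) (hw : w ∈ S) :
    1 * w + (RatFunc.X * δ1 + dd g + δ0 * g + δ1 * RatFunc.X ^ 2) * w ^ 2
      + (dd Δ + δ0 * Δ + δ1 * g ^ 2) * w ^ 4 + (δ1 * Δ ^ 2) * w ^ 8 = 0 := by
  have hch : CharP (RatFunc K) 2 := inferInstance
  have h1 := hR _ (hS w hw)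
  have h2 := hR w hw
  unfold ph2 at h1
  have h3 : w ^ 4 = (w ^ 2) ^ 2 := by ring
  have h4 : dd (RatFunc.X * w + g * w ^ 2 + Δ * w ^ 4)
      = RatFunc.X * dd w + w + w ^ 2 * dd g + w ^ 4 * dd Δ := by
    rw [dd_add, dd_add, dd_mul, dd_X, mul_comm g, dd_sq_mul, h3, mul_comm Δ, dd_sq_mul]
    ring
  rw [h4] at h1
  linear_combination (norm := (first | ring1 | (ring_nf; reduce_mod_char!) | (ring_nf; reduce_mod_char!; ring_nf))) (h1 - RatFunc.X * h2)

lemma root_bound (S : Finset (RatFunc K)) (α β γ ε : (RatFunc K))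
    (h : ∀ w ∈ S, α * w + β * w ^ 2 + γ * w ^ 4 + ε * w ^ 8 = 0)
    (hc : 8 < S.card ∨ (ε = 0 ∧ 4 < S.card)) : α = 0 ∧ β = 0 ∧ γ = 0 ∧ ε = 0 := by
  classical
  let p : (RatFunc K)[X] := C α * X + C β * X ^ 2 + C γ * X ^ 4 + C ε * X ^ 8
  have hp : p = 0 := by
    by_contra hp
    have hsub : S ⊆ p.roots.toFinset := by
      intro w hw
      rw [Multiset.mem_toFinset, mem_roots hp]
      simp only [p, IsRoot.def, eval_add, eval_mul, eval_C, eval_X, eval_pow]
      exact h w hw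
    have h1 : S.card ≤ p.natDegree :=
      le_trans (Finset.card_le_card hsub) (le_trans (Multiset.toFinset_card_le _) (card_roots' p))
    rcases hc with hc | ⟨hc0, hc⟩
    · have : p.natDegree ≤ 8 := by
        simp only [p]
        compute_degree
      omega
    · have : p.natDegree ≤ 4 := by
        simp only [p, hc0, C_0, zero_mul, add_zero]
        compute_degree
      omega
  have hcf : ∀ n, p.coeff n = 0 := by intro n; rw [hp]; simp
  refine ⟨?_, ?_, ?_, ?_⟩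
  · have := hcf 1
    simpa [p, coeff_X, coeff_X_pow, coeff_C_mul] using this
  · have := hcf 2
    simpa [p, coeff_X, coeff_X_pow, coeff_C_mul] using this
  · have := hcf 4
    simpa [p, coeff_X, coeff_X_pow, coeff_C_mul] using this
  · have := hcf 8
    simpa [p, coeff_X, coeff_X_pow, coeff_C_mul] using this

/-- the Riccati relation on a system with exactly the roots of an additive polynomial -/
lemma ric_coeffs (g Δ δ0 δ1 : (RatFunc K)) (S : Finset (RatFunc K)) (hS : ∀ w ∈ S, ph2 g Δ w ∈ S)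
    (hR : Ric δ0 δ1 S) (c0 c1 c2 : (RatFunc K))
    (hP : ∀ w ∈ S, w ^ 8 + c2 * w ^ 4 + c1 * w ^ 2 + c0 * w = 0) (hc : 4 < S.card) :
    δ1 * Δ ^ 2 * c0 = 1 ∧ dd c2 = 0 ∧ Δ ^ 2 * dd c1 = 1 := by
  have hch : CharP (RatFunc K) 2 := inferInstance
  have h1 : ∀ w ∈ S, (1 + δ1 * Δ ^ 2 * c0) * w
      + ((RatFunc.X * δ1 + dd g + δ0 * g + δ1 * RatFunc.X ^ 2) + δ1 * Δ ^ 2 * c1) * w ^ 2
      + ((dd Δ + δ0 * Δ + δ1 * g ^ 2) + δ1 * Δ ^ 2 * c2) * w ^ 4 + 0 * w ^ 8 = 0 := by
    intro w hw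
    have e1 := ric_identity g Δ δ0 δ1 S hS hR w hw
    have e2 := hP w hw
    linear_combination (norm := (first | ring1 | (ring_nf; reduce_mod_char!) | (ring_nf; reduce_mod_char!; ring_nf))) (e1 + δ1 * Δ ^ 2 * e2)
  have h2 : ∀ w ∈ S, (dd c0 + c0 * δ0) * w + (dd c1 + c0 * δ1) * w ^ 2 + dd c2 * w ^ 4
      + 0 * w ^ 8 = 0 := by
    intro w hw
    have e1 := congrArg dd (hP w hw)
    have e2 := hR w hw
    have h8 : w ^ 8 = (w ^ 4) ^ 2 := by ring
    have h4 : w ^ 4 = (w ^ 2) ^ 2 := by ring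
    rw [dd_add, dd_add, dd_add, h8, dd_sq, h4, mul_comm c2, dd_sq_mul, mul_comm c1, dd_sq_mul,
      dd_mul, dd_zero] at e1
    linear_combination (norm := (first | ring1 | (ring_nf; reduce_mod_char!) | (ring_nf; reduce_mod_char!; ring_nf))) (e1 + c0 * e2)
  obtain ⟨k1, -, -, -⟩ := root_bound S _ _ _ _ h1 (Or.inr ⟨rfl, hc⟩)
  obtain ⟨-, k2, k3, -⟩ := root_bound S _ _ _ _ h2 (Or.inr ⟨rfl, hc⟩)
  have k1' : δ1 * Δ ^ 2 * c0 = 1 := by linear_combination (norm := (first | ring1 | (ring_nf; reduce_mod_char!) | (ring_nf; reduce_mod_char!; ring_nf))) k1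
  refine ⟨k1', k3, ?_⟩
  linear_combination (norm := (first | ring1 | (ring_nf; reduce_mod_char!) | (ring_nf; reduce_mod_char!; ring_nf))) (Δ ^ 2 * k2 + k1')

end

end Pool.Agent.W82
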