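import Pool.Agent.W82.D4

set_option autoImplicit false
set_option linter.unusedSectionVars false

namespace Pool.Agent.W82

open Polynomial

section
variable {K : Type*} [Field K] [F2 K]


/-- a finite stable subspace without eigenvectors, of dimension at least three -/
structure Sys (g Δ : (RatFunc K)) (V : Finset (RatFunc K)) : Prop where
  hΔ : Δ ≠ 0
  zero : (0 : (RatFunc K)) ∈ V
  add : ∀ x ∈ V, ∀ y ∈ V, x + y ∈ V
  phi : ∀ x ∈ V, ph2 g Δ x ∈ V
  card : 4 < V.card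
  noeig : ∀ x ∈ V, x ≠ 0 → ph2 g Δ x ≠ 0 ∧ ph2 g Δ x ≠ x

lemma ph2_scale (g Δ w : (RatFunc K)) {a : (RatFunc K)} (ha : a ≠ 0) :
    ph2 (g * a) (Δ * a ^ 3) (a⁻¹ * w) = a⁻¹ * ph2 g Δ w := by
  unfold ph2
  field_simp

lemma exists_other {V : Finset (RatFunc K)} (hc : 4 < V.card) (x y : (RatFunc K)) :
    ∃ z ∈ V, z ≠ 0 ∧ z ≠ x ∧ z ≠ y ∧ z ≠ x + y := by
  classical
  by_contra hcon
  push Not at hcon
  have hsub : V ⊆ {0, x, y, x + y} := by
    intro z hz
    simp only [Finset.mem_insert, Finset.mem_singleton]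
    by_cases h1 : z = 0
    · exact Or.inl h1
    · by_cases h2 : z = x
      · exact Or.inr (Or.inl h2)
      · by_cases h3 : z = y
        · exact Or.inr (Or.inr (Or.inl h3))
        · exact Or.inr (Or.inr (Or.inr (hcon z hz h1 h2 h3)))
  have h1 := Finset.card_le_card hsub
  have h2 : ({0, x, y, x + y} : Finset (RatFunc K)).card ≤ 4 := Finset.card_le_four
  omega

open Classical in
lemma Sys.scale {g Δ : (RatFunc K)} {V : Finset (RatFunc K)} (S : Sys g Δ V) {a : (RatFunc K)} (ha : a ≠ 0) :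
    Sys (g * a) (Δ * a ^ 3) (V.image (fun w => a⁻¹ * w)) := by
  refine ⟨mul_ne_zero S.hΔ (pow_ne_zero 3 ha), ?_, ?_, ?_, ?_, ?_⟩
  · rw [Finset.mem_image]
    exact ⟨0, S.zero, mul_zero _⟩
  · intro x hx y hy
    rw [Finset.mem_image] at hx hy ⊢
    obtain ⟨x, hx, rfl⟩ := hx
    obtain ⟨y, hy, rfl⟩ := hy
    exact ⟨x + y, S.add x hx y hy, mul_add _ _ _⟩
  · intro x hx
    rw [Finset.mem_image] at hx ⊢
    obtain ⟨x, hx, rfl⟩ := hx
    exact ⟨ph2 g Δ x, S.phi x hx, (ph2_scale g Δ x ha).symm⟩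
  · rw [Finset.card_image_of_injective]
    · exact S.card
    · intro x y hxy
      exact mul_left_cancel₀ (inv_ne_zero ha) hxy
  · intro x hx hx0
    rw [Finset.mem_image] at hx
    obtain ⟨x, hx, rfl⟩ := hx
    have hx1 : x ≠ 0 := by
      rintro rfl
      simp at hx0
    obtain ⟨h1, h2⟩ := S.noeig x hx hx1
    rw [ph2_scale g Δ x ha]
    refine ⟨mul_ne_zero (inv_ne_zero ha) h1, ?_⟩
    intro h3
    exact h2 (mul_left_cancel₀ (inv_ne_zero ha) h3)

lemma add_right_self' (x y : (RatFunc K)) : x + y + y = x := by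
  have hch : CharP (RatFunc K) 2 := inferInstance
  (first | ring1 | (ring_nf; reduce_mod_char!) | (ring_nf; reduce_mod_char!; ring_nf))

/-- no stable subspace of index two -/
lemma Sys.index_two {g Δ : (RatFunc K)} {V : Finset (RatFunc K)} (S : Sys g Δ V) (W : (RatFunc K) → Prop)
    (hadd : ∀ x y, W x → W y → W (x + y)) (w0 : (RatFunc K)) (hw0 : w0 ∈ V) (hW0 : ¬ W w0)
    (hco : ∀ x ∈ V, ¬ W x → W (x + w0)) : ∃ x ∈ V, W x ∧ ¬ W (ph2 g Δ x) := by
  classical
  by_contra hcon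
  push Not at hcon
  have key : ∀ f : (RatFunc K) → (RatFunc K), (∀ x y, f (x + y) = f x + f y) → (∀ x ∈ V, f x ∈ V) →
      (∀ x ∈ V, x ≠ 0 → f x ≠ 0) → (∀ x ∈ V, W x → W (f x)) → W (f w0) → False := by
    intro f hf hfV hf0 hfW hfw
    have h1 : ∀ x ∈ V, W (f x) := by
      intro x hx
      by_cases hWx : W x
      · exact hfW x hx hWx
      · have h2 := hfW _ (S.add x hx w0 hw0) (hco x hx hWx)
        rw [hf] at h2
        have h3 := hadd _ _ h2 hfw
        rw [add_right_self'] at h3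
        exact h3
    have h2 : V.image f ⊆ V.erase w0 := by
      intro y hy
      rw [Finset.mem_image] at hy
      obtain ⟨x, hx, rfl⟩ := hy
      rw [Finset.mem_erase]
      refine ⟨?_, hfV x hx⟩
      intro h3
      exact hW0 (h3 ▸ h1 x hx)
    have h3 : (V.image f).card = V.card := by
      apply Finset.card_image_of_injOn
      intro x hx y hy hxy
      by_contra hne
      have h4 : x + y ≠ 0 := fun h0 => hne (CharTwo.add_eq_zero.1 h0)
      apply hf0 _ (S.add x hx y hy) h4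
      rw [hf, hxy]
      exact CharTwo.add_self_eq_zero _
    have h4 := Finset.card_le_card h2
    rw [h3, Finset.card_erase_of_mem hw0] at h4
    have := S.card
    omega
  by_cases h1 : W (ph2 g Δ w0)
  · exact key (ph2 g Δ) (ph2_add g Δ) S.phi (fun x hx h0 => (S.noeig x hx h0).1) hcon h1
  · refine key (fun x => ph2 g Δ x + x) ?_ ?_ ?_ ?_ ?_
    · intro x y
      rw [ph2_add]; ring
    · intro x hx
      exact S.add _ (S.phi x hx) _ hx
    · intro x hx h0 h2
      exact (S.noeig x hx h0).2 (CharTwo.add_eq_zero.1 h2)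
    · intro x hx hWx
      exact hadd _ _ (hcon x hx hWx) hWx
    · exact hco _ (S.phi w0 hw0) h1

lemma exists_min (P : Plc K) {V : Finset (RatFunc K)} (hc : 4 < V.card) :
    ∃ a ∈ V, a ≠ 0 ∧ ∀ w ∈ V, w ≠ 0 → P.v a ≤ P.v w := by
  classical
  have hne : (V.erase 0).Nonempty := by
    obtain ⟨z, hz, hz0, -⟩ := exists_other hc 0 0
    exact ⟨z, Finset.mem_erase.2 ⟨hz0, hz⟩⟩
  obtain ⟨a, ha, hmin⟩ := Finset.exists_min_image (V.erase 0) P.v hne
  rw [Finset.mem_erase] at ha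
  refine ⟨a, ha.2, ha.1, ?_⟩
  intro w hw hw0
  exact hmin w (Finset.mem_erase.2 ⟨hw0, hw⟩)

/-- scaled situation at a place where X is integral: both coefficients have the same negative
valuation as soon as the first filtration step is not stable -/
lemma coeffs_pole (P : Plc K) (hX : 0 ≤ P.v RatFunc.X) {g Δ : (RatFunc K)} (hΔ : Δ ≠ 0) (w0 x : (RatFunc K))
    (hw0 : w0 ≠ 0) (hv0 : P.v w0 = 0) (hw1 : P.ge 0 (ph2 g Δ w0)) (hx : P.ge 1 x)
    (hx1 : ¬ P.ge 1 (ph2 g Δ x)) : g ≠ 0 ∧ P.v g = P.v Δ ∧ P.v Δ < 0 := by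
  have hch : CharP (RatFunc K) 2 := inferInstance
  have hXg : P.ge 0 RatFunc.X := P.ge_of_le hX
  have hsum : P.ge 0 (g * w0 ^ 2 + Δ * w0 ^ 4) := by
    have h1 : g * w0 ^ 2 + Δ * w0 ^ 4 = ph2 g Δ w0 + RatFunc.X * w0 := by
      unfold ph2; (first | ring1 | (ring_nf; reduce_mod_char!) | (ring_nf; reduce_mod_char!; ring_nf))
    rw [h1]
    apply P.ge_add hw1
    have := P.ge_mul hXg (P.ge_of_le (le_of_eq hv0.symm))
    simpa using this
  have hvD : P.v (Δ * w0 ^ 4) = P.v Δ := by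
    rw [P.map_mul _ _ hΔ (pow_ne_zero 4 hw0), P.v_pow hw0, hv0]; simp
  have hD0 : Δ * w0 ^ 4 ≠ 0 := mul_ne_zero hΔ (pow_ne_zero 4 hw0)
  have hneg : P.v Δ < 0 := by
    by_contra hcon
    push Not at hcon
    have h1 : P.ge 0 (Δ * w0 ^ 4) := P.ge_of_le (by rw [hvD]; exact hcon)
    have h2 : P.ge 0 g := by
      by_cases hg : g = 0
      · exact Or.inl hg
      right
      have h3 := P.ge_add hsum h1
      rw [add_right_self'] at h3
      have h4 := P.le_of_ge h3 (mul_ne_zero hg (pow_ne_zero 2 hw0))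
      rw [P.map_mul _ _ hg (pow_ne_zero 2 hw0), P.v_pow hw0, hv0] at h4
      simpa using h4
    apply hx1
    unfold ph2
    apply P.ge_add
    · apply P.ge_add
      · have := P.ge_mul hXg hx
        simpa using this
      · have := P.ge_mul h2 (P.ge_mul hx hx)
        rw [← pow_two] at this
        exact P.ge_mono this (by norm_num)
    · have := P.ge_mul (P.ge_of_le hcon) (P.ge_mul (P.ge_mul hx hx) (P.ge_mul hx hx))
      have h5 : x * x * (x * x) = x ^ 4 := by ring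
      rw [h5] at this
      exact P.ge_mono this (by norm_num)
  have hg : g ≠ 0 := by
    rintro rfl
    rw [zero_mul, zero_add] at hsum
    have := P.le_of_ge hsum hD0
    omega
  have hvg : P.v (g * w0 ^ 2) = P.v g := by
    rw [P.map_mul _ _ hg (pow_ne_zero 2 hw0), P.v_pow hw0, hv0]; simp
  have hg0 : g * w0 ^ 2 ≠ 0 := mul_ne_zero hg (pow_ne_zero 2 hw0)
  refine ⟨hg, ?_, hneg⟩
  rcases lt_trichotomy (P.v g) (P.v Δ) with h1 | h1 | h1
  · exfalso
    obtain ⟨h2, h3⟩ := P.v_add hg0 (b := Δ * w0 ^ 4) (P.ge_of_le (by rw [hvg, hvD]; omega))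
    have := P.le_of_ge hsum h2
    omega
  · exact h1
  · exfalso
    obtain ⟨h2, h3⟩ := P.v_add hD0 (b := g * w0 ^ 2) (P.ge_of_le (by rw [hvg, hvD]; omega))
    rw [add_comm] at h2 h3
    have := P.le_of_ge hsum h2
    omega

/-- valuation of the image -/
lemma v_phi (P : Plc K) {g Δ : (RatFunc K)} (hΔ : Δ ≠ 0) (hg : g ≠ 0) {E : ℤ} (hgE : P.v g = -E)
    (hDE : P.v Δ = -E) {w : (RatFunc K)} (hw : w ≠ 0) (hpos : 0 < P.v w)
    (hXw : 2 * P.v w - E < P.v RatFunc.X + P.v w) :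
    ph2 g Δ w ≠ 0 ∧ P.v (ph2 g Δ w) = 2 * P.v w - E := by
  have hch : CharP (RatFunc K) 2 := inferInstance
  have h0 : g * w ^ 2 ≠ 0 := mul_ne_zero hg (pow_ne_zero 2 hw)
  have h1 : P.v (g * w ^ 2) = 2 * P.v w - E := by
    rw [P.map_mul _ _ hg (pow_ne_zero 2 hw), P.v_pow hw, hgE]
    push_cast; ring
  have h2 : P.ge (2 * P.v w - E + 1) (RatFunc.X * w + Δ * w ^ 4) := by
    apply P.ge_add
    · right
      rw [P.map_mul _ _ RatFunc.X_ne_zero hw]
      omega
    · right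
      rw [P.map_mul _ _ hΔ (pow_ne_zero 4 hw), P.v_pow hw, hDE]
      push_cast
      omega
  have h3 := P.v_add h0 (b := RatFunc.X * w + Δ * w ^ 4) (by rw [h1]; exact h2)
  have h4 : g * w ^ 2 + (RatFunc.X * w + Δ * w ^ 4) = ph2 g Δ w := by
    unfold ph2; ring
  rw [h4, h1] at h3
  exact h3

/-- valuations of the two parts -/
lemma parts_ge (P : Plc K) (hX : P.v RatFunc.X = 1) (a b : (RatFunc K)) {n : ℤ}
    (h : P.ge (2 * n) (a ^ 2 + RatFunc.X * b ^ 2)) : P.ge n a ∧ P.ge n b := by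
  have hch : CharP (RatFunc K) 2 := inferInstance
  by_cases ha : a = 0
  · refine ⟨Or.inl ha, ?_⟩
    by_cases hb : b = 0
    · exact Or.inl hb
    right
    rw [ha] at h
    have h1 : (0 : (RatFunc K)) ^ 2 + RatFunc.X * b ^ 2 = RatFunc.X * b ^ 2 := by ring
    rw [h1] at h
    have h2 := P.le_of_ge h (mul_ne_zero RatFunc.X_ne_zero (pow_ne_zero 2 hb))
    rw [P.map_mul _ _ RatFunc.X_ne_zero (pow_ne_zero 2 hb), P.v_pow hb, hX] at h2
    push_cast at h2
    omega
  · by_cases hb : b = 0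
    · refine ⟨?_, Or.inl hb⟩
      right
      rw [hb] at h
      have h1 : a ^ 2 + RatFunc.X * (0 : (RatFunc K)) ^ 2 = a ^ 2 := by ring
      rw [h1] at h
      have h2 := P.le_of_ge h (pow_ne_zero 2 ha)
      rw [P.v_pow ha] at h2
      push_cast at h2
      omega
    · have e1 : P.v (a ^ 2) = 2 * P.v a := by rw [P.v_pow ha]; push_cast; ring
      have e2 : P.v (RatFunc.X * b ^ 2) = 1 + 2 * P.v b := by
        rw [P.map_mul _ _ RatFunc.X_ne_zero (pow_ne_zero 2 hb), P.v_pow hb, hX]; push_cast; ring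
      have f1 : a ^ 2 ≠ 0 := pow_ne_zero 2 ha
      have f2 : RatFunc.X * b ^ 2 ≠ 0 := mul_ne_zero RatFunc.X_ne_zero (pow_ne_zero 2 hb)
      rcases lt_trichotomy (P.v (a ^ 2)) (P.v (RatFunc.X * b ^ 2)) with h1 | h1 | h1
      · obtain ⟨h2, h3⟩ := P.v_add f1 (b := RatFunc.X * b ^ 2) (P.ge_of_le (by omega))
        have h4 := P.le_of_ge h h2
        constructor
        · right; omega
        · right; omega
      · omega
      · obtain ⟨h2, h3⟩ := P.v_add f2 (b := a ^ 2) (P.ge_of_le (by omega))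
        rw [add_comm] at h2 h3
        have h4 := P.le_of_ge h h2
        constructor
        · right; omega
        · right; omega

lemma parts_even (P : Plc K) (hX : P.v RatFunc.X = 1) (a b : (RatFunc K)) {n : ℤ}
    (h0 : a ^ 2 + RatFunc.X * b ^ 2 ≠ 0) (h : P.v (a ^ 2 + RatFunc.X * b ^ 2) = 2 * n) :
    ¬ P.ge (n + 1) a := by
  have hch : CharP (RatFunc K) 2 := inferInstance
  intro hcon
  obtain ⟨-, hb⟩ := parts_ge P hX a b (n := n) (P.ge_of_le (by omega))
  have h1 : P.ge (2 * n + 1) (a ^ 2 + RatFunc.X * b ^ 2) := by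
    apply P.ge_add
    · rw [pow_two]
      exact P.ge_mono (P.ge_mul hcon hcon) (by omega)
    · rw [pow_two]
      exact P.ge_mono (P.ge_mul (P.ge_of_le (le_of_eq hX.symm)) (P.ge_mul hb hb)) (by omega)
  have := P.le_of_ge h1 h0
  omega

/-- the square case, scaled -/
lemma L2core (P : Plc K) (hX : P.v RatFunc.X = 1) (hres : P.Res) {g Δ : (RatFunc K)} {V : Finset (RatFunc K)}
    (S : Sys g Δ V) (h : (RatFunc K)) (hsq : g * Δ = h ^ 2) (hmin : ∀ w ∈ V, P.ge 0 w) (w0 : (RatFunc K))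
    (hw0V : w0 ∈ V) (hw0 : w0 ≠ 0) (hv0 : P.v w0 = 0) : False := by
  have hch : CharP (RatFunc K) 2 := inferInstance
  have hV1 : ∀ w ∈ V, ¬ P.ge 1 w → w ≠ 0 ∧ P.v w = 0 := by
    intro w hw h1
    have h2 : w ≠ 0 := fun h0 => h1 (Or.inl h0)
    refine ⟨h2, ?_⟩
    have h3 := P.le_of_ge (hmin w hw) h2
    by_contra h4
    exact h1 (P.ge_of_le (by omega))
  have hw01 : ¬ P.ge 1 w0 := by
    intro h1
    have := P.le_of_ge h1 hw0
    omega
  have hco : ∀ x ∈ V, ¬ P.ge 1 x → P.ge 1 (x + w0) := by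
    intro x hx h1
    obtain ⟨h2, h3⟩ := hV1 x hx h1
    have := Plc.res_add hres h2 hw0 h3 hv0
    simpa using this
  obtain ⟨x, hxV, hx1, hx2⟩ := S.index_two (fun w => P.ge 1 w) (fun x y hx hy => P.ge_add hx hy)
    w0 hw0V hw01 hco
  obtain ⟨hg, hgΔ, hneg⟩ := coeffs_pole P (by omega) S.hΔ w0 x hw0 hv0
    (hmin _ (S.phi w0 hw0V)) hx1 hx2
  obtain ⟨E, hE⟩ : ∃ E : ℤ, E = -P.v Δ := ⟨_, rfl⟩
  have hDE : P.v Δ = -E := by omega
  have hgE : P.v g = -E := by omega
  have hE0 : 0 < E := by omega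
  -- all elements have valuation below E
  have hlt : ∀ w ∈ V, w ≠ 0 → P.v w < E := by
    classical
    have hne : (V.erase 0).Nonempty := ⟨w0, Finset.mem_erase.2 ⟨hw0, hw0V⟩⟩
    obtain ⟨m, hm, hmax⟩ := Finset.exists_max_image (V.erase 0) P.v hne
    rw [Finset.mem_erase] at hm
    obtain ⟨hm0, hmV⟩ := hm
    have hmE : P.v m < E := by
      by_contra hcon
      push Not at hcon
      obtain ⟨n1, n2⟩ := S.noeig m hmV hm0
      have k1 : P.ge (P.v m) (ph2 g Δ m) := by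
        unfold ph2
        apply P.ge_add
        · apply P.ge_add
          · right
            rw [P.map_mul _ _ RatFunc.X_ne_zero hm0]; omega
          · right
            rw [P.map_mul _ _ hg (pow_ne_zero 2 hm0), P.v_pow hm0]; push_cast; omega
        · right
          rw [P.map_mul _ _ S.hΔ (pow_ne_zero 4 hm0), P.v_pow hm0]; push_cast; omega
      have k2 := P.le_of_ge k1 n1
      have k3 := hmax _ (Finset.mem_erase.2 ⟨n1, S.phi m hmV⟩)
      have k4 : P.v (ph2 g Δ m) = P.v m := by omega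
      have k5 := Plc.res_add hres n1 hm0 k4 rfl
      have k6 : ph2 g Δ m + m ≠ 0 := fun h0 => n2 (CharTwo.add_eq_zero.1 h0)
      have k7 := P.le_of_ge k5 k6
      have k8 := hmax _ (Finset.mem_erase.2 ⟨k6, S.add _ (S.phi m hmV) _ hmV⟩)
      omega
    intro w hw hw1
    have := hmax w (Finset.mem_erase.2 ⟨hw1, hw⟩)
    omega
  have hphi : ∀ w ∈ V, w ≠ 0 → P.ge 1 w → ph2 g Δ w ≠ 0 ∧ P.v (ph2 g Δ w) = 2 * P.v w - E := by
    intro w hw hw1 hw2
    have h1 := P.le_of_ge hw2 hw1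
    have h2 := hlt w hw hw1
    apply v_phi P S.hΔ hg hgE hDE hw1 (by omega) (by omega)
  have hhalf : ∀ w ∈ V, w ≠ 0 → P.ge 1 w → E ≤ 2 * P.v w := by
    intro w hw hw1 hw2
    obtain ⟨h1, h2⟩ := hphi w hw hw1 hw2
    have := P.le_of_ge (hmin _ (S.phi w hw)) h1
    omega
  have hx0 : x ≠ 0 := by
    rintro rfl
    apply hx2
    rw [ph2_zero]
    exact P.ge_zero 1
  obtain ⟨hφ0, hφv⟩ := hV1 _ (S.phi x hxV) hx2
  obtain ⟨-, hxv⟩ := hphi x hxV hx0 hx1
  obtain ⟨m, hm⟩ : ∃ m : ℤ, m = P.v x := ⟨_, rfl⟩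
  have hEm : E = 2 * m := by omega
  have hm2 : 2 ≤ m := by
    by_contra hcon
    have hm1 : m = 1 := by omega
    obtain ⟨z, hz, hz1, hz2, hz3, hz4⟩ := exists_other S.card x w0
    obtain ⟨y, hy, hy0, hyx, hy1⟩ : ∃ y ∈ V, y ≠ 0 ∧ y ≠ x ∧ P.ge 1 y := by
      by_cases hz5 : P.ge 1 z
      · exact ⟨z, hz, hz1, hz2, hz5⟩
      · refine ⟨z + w0, S.add z hz w0 hw0V, ?_, ?_, hco z hz hz5⟩
        · intro h0
          exact hz3 (CharTwo.add_eq_zero.1 h0)
        · intro h0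
          apply hz4
          rw [← h0, add_right_self']
    have k1 := hlt y hy hy0
    have k2 := P.le_of_ge hy1 hy0
    have k3 : P.v y = 1 := by omega
    have k4 := Plc.res_add hres hy0 hx0 k3 (hm.symm.trans hm1)
    have k5 : y + x ≠ 0 := fun h0 => hyx (CharTwo.add_eq_zero.1 h0)
    have k6 := hlt _ (S.add y hy x hxV) k5
    have k7 := P.le_of_ge k4 k5
    omega
  -- the structure of Δ w
  have hkey : ∀ w, Δ * w = od (Δ * ph2 g Δ w) ^ 2 + RatFunc.X * od (Δ * w) ^ 2 := by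
    intro w
    have h1 : od (Δ * ph2 g Δ w + RatFunc.X * (Δ * w)) = 0 := by
      have h2 : Δ * ph2 g Δ w + RatFunc.X * (Δ * w) = (h * w + Δ * w ^ 2) ^ 2 := by
        unfold ph2
        linear_combination (norm := (first | ring1 | (ring_nf; reduce_mod_char!) | (ring_nf; reduce_mod_char!; ring_nf))) (w ^ 2 * hsq)
      rw [h2, od_sq]
    have h3 : od (RatFunc.X * (Δ * w)) = ev (Δ * w) := by
      apply od_eq (a := RatFunc.X * od (Δ * w))
      have := ev_od (Δ * w)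
      linear_combination RatFunc.X * this
    rw [od_add, h3] at h1
    rw [CharTwo.add_eq_zero.1 h1]
    exact ev_od (Δ * w)
  have hsmall : ∀ w ∈ V, P.ge 1 w → P.ge (-m + 1) (od (Δ * w)) ∧
      P.ge (-m + 1) (od (Δ * ph2 g Δ w)) := by
    intro w hw hw1
    by_cases hw2 : w = 0
    · rw [hw2, ph2_zero, mul_zero, od_zero]
      exact ⟨P.ge_zero _, P.ge_zero _⟩
    have h1 := hhalf w hw hw2 hw1
    have h2 : P.ge (2 * (-m + 1)) (Δ * w) := by
      right
      rw [P.map_mul _ _ S.hΔ hw2]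
      omega
    rw [hkey w] at h2
    obtain ⟨h3, h4⟩ := parts_ge P hX _ _ h2
    exact ⟨h4, h3⟩
  have hbig : ∀ w ∈ V, ¬ P.ge 1 w → ¬ P.ge (-m + 1) (od (Δ * ph2 g Δ w)) := by
    intro w hw hw1
    obtain ⟨hw2, hw3⟩ := hV1 w hw hw1
    have h1 : Δ * w ≠ 0 := mul_ne_zero S.hΔ hw2
    have h2 : P.v (Δ * w) = 2 * (-m) := by
      rw [P.map_mul _ _ S.hΔ hw2]; omega
    have h3 := hkey w
    rw [h3] at h1 h2
    exact parts_even P hX _ _ h1 h2
  have hu := hsmall x hxV hx1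
  have huV := S.phi x hxV
  have hub := hbig _ huV hx2
  by_cases hc : P.ge 1 (ph2 g Δ (ph2 g Δ x))
  · exact hub (hsmall _ (S.phi _ huV) hc).1
  · have h1 : P.ge 1 (ph2 g Δ (ph2 g Δ x) + ph2 g Δ x) := by
      obtain ⟨h2, h3⟩ := hV1 _ (S.phi _ huV) hc
      have := Plc.res_add hres h2 hφ0 h3 hφv
      simpa using this
    have h2 := (hsmall _ (S.add _ (S.phi _ huV) _ huV) h1).1
    rw [mul_add, od_add] at h2
    have h3 := P.ge_add h2 hu.2
    rw [add_right_self'] at h3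
    exact hub h3

open Classical in
/-- the square case -/
theorem L2 {g Δ : (RatFunc K)} {V : Finset (RatFunc K)} (S : Sys g Δ V) (h : (RatFunc K)) (hsq : g * Δ = h ^ 2) : False := by
  let P := plX K
  obtain ⟨a, haV, ha, hmin⟩ := exists_min P S.card
  have hS := S.scale ha
  refine L2core P plX_X plX_res hS (h * a ^ 2) ?_ ?_ 1 ?_ one_ne_zero P.v_one
  · linear_combination a ^ 4 * hsq
  · intro w hw
    rw [Finset.mem_image] at hw
    obtain ⟨w, hw, rfl⟩ := hw
    by_cases hw0 : w = 0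
    · left; rw [hw0, mul_zero]
    right
    rw [P.map_mul _ _ (inv_ne_zero ha) hw0, P.v_inv ha]
    have := hmin w hw hw0
    omega
  · rw [Finset.mem_image]
    exact ⟨a, haV, inv_mul_cancel₀ ha⟩

end

end Pool.Agent.W82
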