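import Pool.Agent.W82.D5

set_option autoImplicit false
set_option linter.unusedSectionVars false

namespace Pool.Agent.W82

open Polynomial

section
variable {K : Type*} [Field K] [F2 K]


/-- membership in the plane spanned by two elements -/
def inU (a b w : (RatFunc K)) : Prop := w = 0 ∨ w = a ∨ w = b ∨ w = a + b

lemma inU_add {a b x y : (RatFunc K)} (hx : inU a b x) (hy : inU a b y) : inU a b (x + y) := by
  have hch : CharP (RatFunc K) 2 := inferInstance
  have h1 : ∀ z : (RatFunc K), z + z = 0 := fun z => CharTwo.add_self_eq_zero z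
  unfold inU at *
  rcases hx with rfl | rfl | rfl | rfl <;> rcases hy with rfl | rfl | rfl | rfl
  · left; (first | ring1 | (ring_nf; reduce_mod_char!) | (ring_nf; reduce_mod_char!; ring_nf))
  · right; left; (first | ring1 | (ring_nf; reduce_mod_char!) | (ring_nf; reduce_mod_char!; ring_nf))
  · right; right; left; (first | ring1 | (ring_nf; reduce_mod_char!) | (ring_nf; reduce_mod_char!; ring_nf))
  · right; right; right; (first | ring1 | (ring_nf; reduce_mod_char!) | (ring_nf; reduce_mod_char!; ring_nf))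
  · right; left; (first | ring1 | (ring_nf; reduce_mod_char!) | (ring_nf; reduce_mod_char!; ring_nf))
  · left; (first | ring1 | (ring_nf; reduce_mod_char!) | (ring_nf; reduce_mod_char!; ring_nf))
  · right; right; right; (first | ring1 | (ring_nf; reduce_mod_char!) | (ring_nf; reduce_mod_char!; ring_nf))
  · right; right; left; (first | ring1 | (ring_nf; reduce_mod_char!) | (ring_nf; reduce_mod_char!; ring_nf))
  · right; right; left; (first | ring1 | (ring_nf; reduce_mod_char!) | (ring_nf; reduce_mod_char!; ring_nf))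
  · right; right; right; (first | ring1 | (ring_nf; reduce_mod_char!) | (ring_nf; reduce_mod_char!; ring_nf))
  · left; (first | ring1 | (ring_nf; reduce_mod_char!) | (ring_nf; reduce_mod_char!; ring_nf))
  · right; left; (first | ring1 | (ring_nf; reduce_mod_char!) | (ring_nf; reduce_mod_char!; ring_nf))
  · right; right; right; (first | ring1 | (ring_nf; reduce_mod_char!) | (ring_nf; reduce_mod_char!; ring_nf))
  · right; right; left; (first | ring1 | (ring_nf; reduce_mod_char!) | (ring_nf; reduce_mod_char!; ring_nf))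
  · right; left; (first | ring1 | (ring_nf; reduce_mod_char!) | (ring_nf; reduce_mod_char!; ring_nf))
  · left; (first | ring1 | (ring_nf; reduce_mod_char!) | (ring_nf; reduce_mod_char!; ring_nf))

lemma eight {V : Finset (RatFunc K)} (hadd : ∀ x ∈ V, ∀ y ∈ V, x + y ∈ V) (hc : V.card ≤ 8) {a b c : (RatFunc K)}
    (ha : a ∈ V) (hb : b ∈ V) (hcV : c ∈ V) (ha0 : a ≠ 0) (hb0 : b ≠ 0) (hab : a ≠ b)
    (hcU : ¬ inU a b c) (w : (RatFunc K)) (hw : w ∈ V) : inU a b w ∨ inU a b (w + c) := by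
  classical
  have hs : ∀ z : (RatFunc K), z + z = 0 := fun z => CharTwo.add_self_eq_zero z
  have h0 : (0 : (RatFunc K)) ∈ V := by
    rw [← hs a]; exact hadd a ha a ha
  let U : Finset (RatFunc K) := {0, a, b, a + b}
  have hU : ∀ z, z ∈ U ↔ inU a b z := by
    intro z
    simp only [U, Finset.mem_insert, Finset.mem_singleton, inU]
  have hUc : U.card = 4 := by
    have h1 : a + b ≠ 0 := fun h => hab (CharTwo.add_eq_zero.1 h)
    have h2 : a ≠ a + b := fun h => hb0 (by simpa using h)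
    have h3 : b ≠ a + b := fun h => ha0 (by simpa using h)
    simp only [U]
    rw [Finset.card_insert_of_notMem, Finset.card_insert_of_notMem, Finset.card_insert_of_notMem,
      Finset.card_singleton]
    · simpa using h3
    · simp only [Finset.mem_insert, Finset.mem_singleton, not_or]
      exact ⟨hab, h2⟩
    · simp only [Finset.mem_insert, Finset.mem_singleton, not_or]
      exact ⟨ha0.symm, hb0.symm, h1.symm⟩
  let U' : Finset (RatFunc K) := U.image (fun z => z + c)
  have hU'c : U'.card = 4 := by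
    rw [← hUc]
    apply Finset.card_image_of_injective
    intro x y hxy
    exact add_right_cancel hxy
  have hdis : Disjoint U U' := by
    rw [Finset.disjoint_left]
    intro z hz hz'
    rw [Finset.mem_image] at hz'
    obtain ⟨y, hy, hyz⟩ := hz'
    apply hcU
    have h1 : c = y + z := by
      rw [← hyz, ← add_assoc, hs, zero_add]
    rw [h1]
    exact inU_add ((hU y).1 hy) ((hU z).1 hz)
  have hsub : U ∪ U' ⊆ V := by
    have hUV : ∀ z ∈ U, z ∈ V := by
      intro z hz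
      rw [hU] at hz
      rcases hz with rfl | rfl | rfl | rfl
      · exact h0
      · exact ha
      · exact hb
      · exact hadd a ha b hb
    intro z hz
    rw [Finset.mem_union] at hz
    rcases hz with hz | hz
    · exact hUV z hz
    · rw [Finset.mem_image] at hz
      obtain ⟨y, hy, rfl⟩ := hz
      exact hadd y (hUV y hy) c hcV
  have heq : U ∪ U' = V := by
    apply Finset.eq_of_subset_of_card_le hsub
    rw [Finset.card_union_of_disjoint hdis, hUc, hU'c]
    exact hc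
  rw [← heq, Finset.mem_union] at hw
  rcases hw with hw | hw
  · left; exact (hU w).1 hw
  · right
    rw [Finset.mem_image] at hw
    obtain ⟨y, hy, rfl⟩ := hw
    rw [add_right_self']
    exact (hU y).1 hy

/-- the product over the complement of a plane -/
noncomputable def alf (a b c : (RatFunc K)) : (RatFunc K) :=
  c ^ 4 + (a ^ 2 + a * b + b ^ 2) * c ^ 2 + a * b * (a + b) * c

lemma alf_prod (a b c : (RatFunc K)) : alf a b c = c * (c + a) * (c + b) * (c + (a + b)) := by
  have hch : CharP (RatFunc K) 2 := inferInstance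
  unfold alf
  (first | ring1 | (ring_nf; reduce_mod_char!) | (ring_nf; reduce_mod_char!; ring_nf))

lemma alf_zero {a b w : (RatFunc K)} (h : inU a b w) : alf a b w = 0 := by
  have hch : CharP (RatFunc K) 2 := inferInstance
  have h1 : ∀ z : (RatFunc K), z + z = 0 := fun z => CharTwo.add_self_eq_zero z
  rw [alf_prod]
  rcases h with rfl | rfl | rfl | rfl
  · ring
  · rw [h1]; ring
  · rw [h1]; ring
  · rw [h1]; ring

lemma alf_add (a b x y : (RatFunc K)) : alf a b (x + y) = alf a b x + alf a b y := by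
  have hch : CharP (RatFunc K) 2 := inferInstance
  unfold alf
  (first | ring1 | (ring_nf; reduce_mod_char!) | (ring_nf; reduce_mod_char!; ring_nf))

/-- consequences of the Riccati relation for eight-element systems -/
lemma ric_eight {g Δ δ0 δ1 : (RatFunc K)} {V : Finset (RatFunc K)} (hphi : ∀ w ∈ V, ph2 g Δ w ∈ V)
    (hadd : ∀ x ∈ V, ∀ y ∈ V, x + y ∈ V)
    (hR : Ric δ0 δ1 V) (h4 : 4 < V.card) (hc : V.card ≤ 8) {a b c : (RatFunc K)}
    (ha : a ∈ V) (hb : b ∈ V) (hcV : c ∈ V) (ha0 : a ≠ 0) (hb0 : b ≠ 0) (hab : a ≠ b)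
    (hcU : ¬ inU a b c) : δ1 * Δ ^ 2 * (alf a b c * (a * b * (a + b))) = 1 ∧
      dd (alf a b c) = 0 ∧ Δ ^ 2 * dd (alf a b c * (a ^ 2 + a * b + b ^ 2)) = 1 := by
  have hch : CharP (RatFunc K) 2 := inferInstance
  have hP : ∀ w ∈ V, w ^ 8 + ((a ^ 2 + a * b + b ^ 2) ^ 2 + alf a b c) * w ^ 4
      + ((a * b * (a + b)) ^ 2 + alf a b c * (a ^ 2 + a * b + b ^ 2)) * w ^ 2
      + (alf a b c * (a * b * (a + b))) * w = 0 := by
    intro w hw
    have h1 : w ^ 8 + ((a ^ 2 + a * b + b ^ 2) ^ 2 + alf a b c) * w ^ 4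
      + ((a * b * (a + b)) ^ 2 + alf a b c * (a ^ 2 + a * b + b ^ 2)) * w ^ 2
      + (alf a b c * (a * b * (a + b))) * w = alf a b w ^ 2 + alf a b c * alf a b w := by
      have h2 : alf a b w = w ^ 4 + (a ^ 2 + a * b + b ^ 2) * w ^ 2 + a * b * (a + b) * w := rfl
      rw [h2]
      generalize alf a b c = t
      (first | ring1 | (ring_nf; reduce_mod_char!) | (ring_nf; reduce_mod_char!; ring_nf))
    rw [h1]
    rcases eight hadd hc ha hb hcV ha0 hb0 hab hcU w hw with h2 | h2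
    · rw [alf_zero h2]; ring
    · have h3 := alf_zero h2
      rw [alf_add] at h3
      have h4 : alf a b w = alf a b c := CharTwo.add_eq_zero.1 h3
      rw [h4]; (first | ring1 | (ring_nf; reduce_mod_char!) | (ring_nf; reduce_mod_char!; ring_nf))
  obtain ⟨h1, h2, h3⟩ := ric_coeffs g Δ δ0 δ1 V hphi hR _ _ _ hP h4
  refine ⟨h1, ?_, ?_⟩
  · rw [dd_add, dd_sq, zero_add] at h2
    exact h2
  · rw [dd_add, dd_sq, zero_add] at h3
    exact h3

/-- a predicate stable under the operator and holding for one nonzero element -/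
lemma Sys.cyc {g Δ : (RatFunc K)} {V : Finset (RatFunc K)} (S : Sys g Δ V) (hc : V.card ≤ 8) (Q : (RatFunc K) → Prop)
    (hadd : ∀ x y, Q x → Q y → Q (x + y)) (hphi : ∀ x ∈ V, Q x → Q (ph2 g Δ x)) (x : (RatFunc K))
    (hx : x ∈ V) (hx0 : x ≠ 0) (hQ : Q x) : ∀ w ∈ V, Q w := by
  have hs : ∀ z : (RatFunc K), z + z = 0 := fun z => CharTwo.add_self_eq_zero z
  obtain ⟨n1, n2⟩ := S.noeig x hx hx0
  have hyV := S.phi x hx
  have hQy := hphi x hx hQ
  have hzV := S.phi _ hyV
  have hQz := hphi _ hyV hQy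
  have hQU : ∀ w, inU x (ph2 g Δ x) w → Q w := by
    intro w hw
    rcases hw with rfl | rfl | rfl | rfl
    · rw [← hs x]; exact hadd x x hQ hQ
    · exact hQ
    · exact hQy
    · exact hadd _ _ hQ hQy
  by_cases hU : inU x (ph2 g Δ x) (ph2 g Δ (ph2 g Δ x))
  · exfalso
    obtain ⟨m1, m2⟩ := S.noeig _ hyV n1
    have h1 : ph2 g Δ (ph2 g Δ x) = x + ph2 g Δ x := by
      rcases hU with h | h | h | h
      · exact absurd h m1
      · exfalso
        have k0 : x + ph2 g Δ x ≠ 0 := fun h0 => n2 (CharTwo.add_eq_zero.1 h0).symm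
        have k1 := (S.noeig _ (S.add x hx _ hyV) k0).2
        apply k1
        rw [ph2_add, h, add_comm]
      · exact absurd h m2
      · exact h
    obtain ⟨z, hz, hz0, hz1, hz2, hz3⟩ := exists_other S.card x (ph2 g Δ x)
    have hzU : ¬ inU x (ph2 g Δ x) z := by
      intro h
      rcases h with h | h | h | h
      · exact hz0 h
      · exact hz1 h
      · exact hz2 h
      · exact hz3 h
    obtain ⟨y, hy, hy1, hy2⟩ := S.index_two (inU x (ph2 g Δ x)) (fun a b ha hb => inU_add ha hb)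
      z hz hzU (by
        intro y hy hy1
        rcases eight S.add hc hx hyV hz hx0 n1 (Ne.symm n2) hzU y hy with h | h
        · exact absurd h hy1
        · exact h)
    apply hy2
    rcases hy1 with rfl | rfl | rfl | rfl
    · rw [ph2_zero]; exact Or.inl rfl
    · exact Or.inr (Or.inr (Or.inl rfl))
    · rw [h1]; exact Or.inr (Or.inr (Or.inr rfl))
    · rw [ph2_add, h1]
      right; left
      rw [add_comm x, ← add_assoc, hs, zero_add]
  · intro w hw
    rcases eight S.add hc hx hyV hzV hx0 n1 (Ne.symm n2) hU w hw with h | h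
    · exact hQU w h
    · have h2 := hadd _ _ (hQU _ h) hQz
      rw [add_right_self'] at h2
      exact h2

/-- the main valuation pattern -/
lemma patternB (P : Plc K) {g Δ δ0 δ1 : (RatFunc K)} {V : Finset (RatFunc K)} (S : Sys g Δ V) (hc : V.card ≤ 8)
    (hR : Ric δ0 δ1 V) (hmin : ∀ w ∈ V, P.ge 0 w) (w0 : (RatFunc K)) (hw0V : w0 ∈ V) (hw0 : w0 ≠ 0)
    (hv0 : P.v w0 = 0) (hco : ∀ x ∈ V, ¬ P.ge 1 x → P.ge 1 (x + w0)) (E : ℤ) (hE : 0 < E)
    (hDE : P.v Δ = -E) (hlt : ∀ w ∈ V, w ≠ 0 → P.v w < E)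
    (hphi : ∀ w ∈ V, w ≠ 0 → P.ge 1 w → ph2 g Δ w ≠ 0 ∧ P.v (ph2 g Δ w) = 2 * P.v w - E)
    (x : (RatFunc K)) (hxV : x ∈ V) (hx1 : P.ge 1 x) (hx2 : ¬ P.ge 1 (ph2 g Δ x)) :
    0 < 3 * P.v δ1 - P.v Δ := by
  have hch : CharP (RatFunc K) 2 := inferInstance
  have hs : ∀ z : (RatFunc K), z + z = 0 := fun z => CharTwo.add_self_eq_zero z
  have hx0 : x ≠ 0 := by
    rintro rfl
    apply hx2
    rw [ph2_zero]
    exact P.ge_zero 1
  have hw01 : ¬ P.ge 1 w0 := by
    intro h1
    have := P.le_of_ge h1 hw0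
    omega
  have hhalf : ∀ w ∈ V, w ≠ 0 → P.ge 1 w → E ≤ 2 * P.v w := by
    intro w hw hw1 hw2
    obtain ⟨h1, h2⟩ := hphi w hw hw1 hw2
    have := P.le_of_ge (hmin _ (S.phi w hw)) h1
    omega
  obtain ⟨hp1, hp2⟩ := hphi x hxV hx0 hx1
  have hvx : 2 * P.v x = E := by
    have h1 := P.le_of_ge (hmin _ (S.phi x hxV)) hp1
    by_contra h2
    exact hx2 (P.ge_of_le (by omega))
  obtain ⟨z, hz, hz1, hz2, hz3, hz4⟩ := exists_other S.card x w0
  obtain ⟨y, hy, hy0, hyx, hy1⟩ : ∃ y ∈ V, y ≠ 0 ∧ y ≠ x ∧ P.ge 1 y := by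
    by_cases hz5 : P.ge 1 z
    · exact ⟨z, hz, hz1, hz2, hz5⟩
    · refine ⟨z + w0, S.add z hz w0 hw0V, ?_, ?_, hco z hz hz5⟩
      · intro h0
        exact hz3 (CharTwo.add_eq_zero.1 h0)
      · intro h0
        apply hz4
        rw [← h0, add_right_self']
  have hxy : x + y ≠ 0 := fun h0 => hyx (CharTwo.add_eq_zero.1 h0).symm
  have hxyV := S.add x hxV y hy
  have hxy1 := P.ge_add hx1 hy1
  have hU1 : ∀ w, inU x y w → P.ge 1 w := by
    intro w hw
    rcases hw with rfl | rfl | rfl | rfl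
    · exact P.ge_zero 1
    · exact hx1
    · exact hy1
    · exact hxy1
  have hw0U : ¬ inU x y w0 := fun h => hw01 (hU1 _ h)
  obtain ⟨r1, -, -⟩ := ric_eight S.phi S.add hR S.card hc hxV hy hw0V hx0 hy0 (Ne.symm hyx) hw0U
  have hv : ∀ u, inU x y u → w0 + u ≠ 0 ∧ P.v (w0 + u) = 0 := by
    intro u hu
    have h1 := P.v_add hw0 (b := u) (by rw [hv0]; simpa using hU1 u hu)
    rw [hv0] at h1
    exact h1
  obtain ⟨a1, a2⟩ := hv x (Or.inr (Or.inl rfl))
  obtain ⟨b1, b2⟩ := hv y (Or.inr (Or.inr (Or.inl rfl)))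
  obtain ⟨c1, c2⟩ := hv (x + y) (Or.inr (Or.inr (Or.inr rfl)))
  have hδ1 : δ1 ≠ 0 := by
    rintro rfl
    simp at r1
  have hal : alf x y w0 ≠ 0 := by
    rw [alf_prod]
    exact mul_ne_zero (mul_ne_zero (mul_ne_zero hw0 a1) b1) c1
  have hval : P.v (alf x y w0) = 0 := by
    rw [alf_prod, P.map_mul _ _ (mul_ne_zero (mul_ne_zero hw0 a1) b1) c1,
      P.map_mul _ _ (mul_ne_zero hw0 a1) b1, P.map_mul _ _ hw0 a1]
    omega
  have hu0 : x * y * (x + y) ≠ 0 := mul_ne_zero (mul_ne_zero hx0 hy0) hxy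
  have hvu0 : P.v (x * y * (x + y)) = P.v x + P.v y + P.v (x + y) := by
    rw [P.map_mul _ _ (mul_ne_zero hx0 hy0) hxy, P.map_mul _ _ hx0 hy0]
  have hr := congrArg P.v r1
  rw [P.map_mul _ _ (mul_ne_zero hδ1 (pow_ne_zero 2 S.hΔ)) (mul_ne_zero hal hu0),
    P.map_mul _ _ hδ1 (pow_ne_zero 2 S.hΔ), P.map_mul _ _ hal hu0, P.v_pow S.hΔ, hval, hvu0,
    P.v_one] at hr
  push_cast at hr
  have q1 := hlt y hy hy0
  have q2 := hlt _ hxyV hxy
  have q3 := hhalf y hy hy0 hy1
  have q4 := hhalf _ hxyV hxy hxy1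
  have q5 : min (P.v y) (P.v (x + y)) ≤ P.v x := by
    have h1 : y + (x + y) = x := by (first | ring1 | (ring_nf; reduce_mod_char!) | (ring_nf; reduce_mod_char!; ring_nf))
    have h2 := P.map_add y (x + y) hy0 hxy (by rw [h1]; exact hx0)
    rw [h1] at h2
    exact h2
  omega

/-- finite places -/
lemma L4fin (P : Plc K) (hX : 0 ≤ P.v RatFunc.X) (hod : ∀ f : (RatFunc K), P.ge 0 f → P.ge 0 (od f))
    {g Δ δ0 δ1 : (RatFunc K)} {V : Finset (RatFunc K)} (S : Sys g Δ V) (hc : V.card ≤ 8)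
    (hR : Ric δ0 δ1 V) (hmin : ∀ w ∈ V, P.ge 0 w) (w0 : (RatFunc K)) (hw0V : w0 ∈ V) (hw0 : w0 ≠ 0)
    (hv0 : P.v w0 = 0) : 0 ≤ 3 * P.v δ1 - P.v Δ := by
  have hch : CharP (RatFunc K) 2 := inferInstance
  have hw01 : ¬ P.ge 1 w0 := by
    intro h1
    have := P.le_of_ge h1 hw0
    omega
  by_cases hA : ∀ w ∈ V, w ≠ 0 → P.v w = 0
  · obtain ⟨b, hb, hb0, hb1, -, -⟩ := exists_other S.card w0 w0
    obtain ⟨c, hcV, hc0, hc1, hc2, hc3⟩ := exists_other S.card w0 b
    have hcU : ¬ inU w0 b c := by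
      intro h
      rcases h with h | h | h | h
      · exact hc0 h
      · exact hc1 h
      · exact hc2 h
      · exact hc3 h
    obtain ⟨r1, -, r3⟩ := ric_eight S.phi S.add hR S.card hc hw0V hb hcV hw0 hb0 (Ne.symm hb1) hcU
    have s1 : w0 + b ≠ 0 := fun h0 => hb1 (CharTwo.add_eq_zero.1 h0).symm
    have s2 : c + w0 ≠ 0 := fun h0 => hc1 (CharTwo.add_eq_zero.1 h0)
    have s3 : c + b ≠ 0 := fun h0 => hc2 (CharTwo.add_eq_zero.1 h0)
    have s4 : c + (w0 + b) ≠ 0 := fun h0 => hc3 (CharTwo.add_eq_zero.1 h0)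
    have t0 := hA b hb hb0
    have t1 := hA _ (S.add _ hw0V _ hb) s1
    have t2 := hA _ (S.add _ hcV _ hw0V) s2
    have t3 := hA _ (S.add _ hcV _ hb) s3
    have t4 := hA _ (S.add _ hcV _ (S.add _ hw0V _ hb)) s4
    have t5 := hA c hcV hc0
    have hδ1 : δ1 ≠ 0 := by
      rintro rfl
      simp at r1
    have hal : alf w0 b c ≠ 0 := by
      rw [alf_prod]
      exact mul_ne_zero (mul_ne_zero (mul_ne_zero hc0 s2) s3) s4
    have hval : P.v (alf w0 b c) = 0 := by
      rw [alf_prod, P.map_mul _ _ (mul_ne_zero (mul_ne_zero hc0 s2) s3) s4,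
        P.map_mul _ _ (mul_ne_zero hc0 s2) s3, P.map_mul _ _ hc0 s2]
      omega
    have hu0 : w0 * b * (w0 + b) ≠ 0 := mul_ne_zero (mul_ne_zero hw0 hb0) s1
    have hvu0 : P.v (w0 * b * (w0 + b)) = 0 := by
      rw [P.map_mul _ _ (mul_ne_zero hw0 hb0) s1, P.map_mul _ _ hw0 hb0]
      omega
    have hr := congrArg P.v r1
    rw [P.map_mul _ _ (mul_ne_zero hδ1 (pow_ne_zero 2 S.hΔ)) (mul_ne_zero hal hu0),
      P.map_mul _ _ hδ1 (pow_ne_zero 2 S.hΔ), P.map_mul _ _ hal hu0, P.v_pow S.hΔ, hval, hvu0,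
      P.v_one] at hr
    push_cast at hr
    have hint : P.ge 0 (alf w0 b c * (w0 ^ 2 + w0 * b + b ^ 2)) := by
      have i1 : P.ge 0 (alf w0 b c) := P.ge_of_le (by omega)
      have i2 : P.ge 0 w0 := hmin _ hw0V
      have i3 : P.ge 0 b := hmin _ hb
      have i4 : P.ge 0 (w0 ^ 2 + w0 * b + b ^ 2) := by
        apply P.ge_add
        · apply P.ge_add
          · have := P.ge_mul i2 i2
            rw [← pow_two] at this
            simpa using this
          · simpa using P.ge_mul i2 i3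
        · have := P.ge_mul i3 i3
          rw [← pow_two] at this
          simpa using this
      simpa using P.ge_mul i1 i4
    have hoi := hod _ hint
    have h3 : Δ * od (alf w0 b c * (w0 ^ 2 + w0 * b + b ^ 2)) = 1 := by
      have h4 : (Δ * od (alf w0 b c * (w0 ^ 2 + w0 * b + b ^ 2)) + 1) ^ 2 = 0 := by
        unfold dd at r3
        linear_combination (norm := (first | ring1 | (ring_nf; reduce_mod_char!) | (ring_nf; reduce_mod_char!; ring_nf))) r3
      exact CharTwo.add_eq_zero.1 (pow_eq_zero_iff (two_ne_zero) |>.1 h4)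
    have hon : od (alf w0 b c * (w0 ^ 2 + w0 * b + b ^ 2)) ≠ 0 := by
      intro h0
      rw [h0, mul_zero] at h3
      exact zero_ne_one h3
    have h5 := congrArg P.v h3
    rw [P.map_mul _ _ S.hΔ hon, P.v_one] at h5
    have h6 := P.le_of_ge hoi hon
    omega
  · push Not at hA
    obtain ⟨x', hx'V, hx'0, hx'1⟩ := hA
    have hx'2 : P.ge 1 x' := by
      have := P.le_of_ge (hmin _ hx'V) hx'0
      exact P.ge_of_le (by omega)
    obtain ⟨x, hxV, hx1, hx2⟩ : ∃ x ∈ V, P.ge 1 x ∧ ¬ P.ge 1 (ph2 g Δ x) := by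
      by_contra hcon
      push Not at hcon
      exact hw01 (S.cyc hc (P.ge 1) (fun a b => P.ge_add) hcon x' hx'V hx'0 hx'2 w0 hw0V)
    obtain ⟨hg, hgΔ, hneg⟩ := coeffs_pole P hX S.hΔ w0 x hw0 hv0
      (hmin _ (S.phi w0 hw0V)) hx1 hx2
    obtain ⟨E, hE⟩ : ∃ E : ℤ, E = -P.v Δ := ⟨_, rfl⟩
    have hDE : P.v Δ = -E := by omega
    have hgE : P.v g = -E := by omega
    have hE0 : 0 < E := by omega
    have hXg : P.ge 0 RatFunc.X := P.ge_of_le hX
    have hlt : ∀ w ∈ V, w ≠ 0 → P.v w < E := by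
      intro w hw hwne
      by_contra hcon
      push Not at hcon
      have h1 := S.cyc hc (P.ge E) (fun a b => P.ge_add) (by
        intro z hz hzE
        unfold ph2
        apply P.ge_add
        · apply P.ge_add
          · simpa using P.ge_mul hXg hzE
          · have := P.ge_mul (P.ge_of_le (le_of_eq hgE.symm)) (P.ge_mul hzE hzE)
            rw [← pow_two] at this
            exact P.ge_mono this (by omega)
        · have := P.ge_mul (P.ge_of_le (le_of_eq hDE.symm)) (P.ge_mul (P.ge_mul hzE hzE) (P.ge_mul hzE hzE))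
          have h5 : z * z * (z * z) = z ^ 4 := by ring
          rw [h5] at this
          exact P.ge_mono this (by omega)) w hw hwne (P.ge_of_le hcon) w0 hw0V
      have := P.le_of_ge h1 hw0
      omega
    have hphi : ∀ w ∈ V, w ≠ 0 → P.ge 1 w → ph2 g Δ w ≠ 0 ∧ P.v (ph2 g Δ w) = 2 * P.v w - E := by
      intro w hw hw1 hw2
      have h1 := P.le_of_ge hw2 hw1
      have h2 := hlt w hw hw1
      apply v_phi P S.hΔ hg hgE hDE hw1 (by omega) (by omega)
    have hgg : ∀ w ∈ V, w ≠ 0 → P.v w = 0 → P.ge 0 (g + Δ * w ^ 2) := by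
      intro w hw hwne hwv
      have h1 : P.ge 0 (ph2 g Δ w + RatFunc.X * w) := by
        apply P.ge_add (hmin _ (S.phi w hw))
        simpa using P.ge_mul hXg (P.ge_of_le (le_of_eq hwv.symm))
      have h2 : ph2 g Δ w + RatFunc.X * w = w ^ 2 * (g + Δ * w ^ 2) := by
        unfold ph2; (first | ring1 | (ring_nf; reduce_mod_char!) | (ring_nf; reduce_mod_char!; ring_nf))
      rw [h2] at h1
      by_cases h3 : g + Δ * w ^ 2 = 0
      · exact Or.inl h3
      · right
        have h4 := P.le_of_ge h1 (mul_ne_zero (pow_ne_zero 2 hwne) h3)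
        rw [P.map_mul _ _ (pow_ne_zero 2 hwne) h3, P.v_pow hwne, hwv] at h4
        simpa using h4
    have hco : ∀ x ∈ V, ¬ P.ge 1 x → P.ge 1 (x + w0) := by
      intro z hz hz1
      have hzne : z ≠ 0 := fun h0 => hz1 (Or.inl h0)
      have hzv : P.v z = 0 := by
        have h3 := P.le_of_ge (hmin z hz) hzne
        by_contra h4
        exact hz1 (P.ge_of_le (by omega))
      by_cases h0 : z + w0 = 0
      · exact Or.inl h0
      right
      have h1 := P.ge_add (hgg z hz hzne hzv) (hgg w0 hw0V hw0 hv0)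
      have h2 : g + Δ * z ^ 2 + (g + Δ * w0 ^ 2) = Δ * (z + w0) ^ 2 := by (first | ring1 | (ring_nf; reduce_mod_char!) | (ring_nf; reduce_mod_char!; ring_nf))
      rw [h2] at h1
      have h3 := P.le_of_ge h1 (mul_ne_zero S.hΔ (pow_ne_zero 2 h0))
      rw [P.map_mul _ _ S.hΔ (pow_ne_zero 2 h0), P.v_pow h0] at h3
      push_cast at h3
      omega
    exact le_of_lt (patternB P S hc hR hmin w0 hw0V hw0 hv0 hco E hE0 hDE hlt hphi x hxV hx1 hx2)

/-- the infinite place -/
lemma L4inf (P : Plc K) (hX : P.v RatFunc.X = -1) (hres : P.Res)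
    {g Δ δ0 δ1 : (RatFunc K)} {V : Finset (RatFunc K)} (S : Sys g Δ V) (hc : V.card ≤ 8)
    (hR : Ric δ0 δ1 V) (hmin : ∀ w ∈ V, P.ge 0 w) (w0 : (RatFunc K)) (hw0V : w0 ∈ V) (hw0 : w0 ≠ 0)
    (hv0 : P.v w0 = 0) : 0 < 3 * P.v δ1 - P.v Δ := by
  have hch : CharP (RatFunc K) 2 := inferInstance
  have hV1 : ∀ w ∈ V, ¬ P.ge 1 w → w ≠ 0 ∧ P.v w = 0 := by
    intro w hw h1
    have h2 : w ≠ 0 := fun h0 => h1 (Or.inl h0)
    refine ⟨h2, ?_⟩
    have h3 := P.le_of_ge (hmin w hw) h2
    by_contra h4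
    exact h1 (P.ge_of_le (by omega))
  have hw01 : ¬ P.ge 1 w0 := by
    intro h1
    have := P.le_of_ge h1 hw0
    omega
  have hco : ∀ x ∈ V, ¬ P.ge 1 x → P.ge 1 (x + w0) := by
    intro x hx h1
    obtain ⟨h2, h3⟩ := hV1 x hx h1
    have := Plc.res_add hres h2 hw0 h3 hv0
    simpa using this
  obtain ⟨x, hxV, hx1, hx2⟩ := S.index_two (fun w => P.ge 1 w) (fun x y hx hy => P.ge_add hx hy)
    w0 hw0V hw01 hco
  have hx0 : x ≠ 0 := by
    rintro rfl
    apply hx2
    rw [ph2_zero]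
    exact P.ge_zero 1
  have hXw : RatFunc.X * w0 ≠ 0 := mul_ne_zero RatFunc.X_ne_zero hw0
  have hvXw : P.v (RatFunc.X * w0) = -1 := by
    rw [P.map_mul _ _ RatFunc.X_ne_zero hw0]; omega
  have hsum : g * w0 ^ 2 + Δ * w0 ^ 4 ≠ 0 ∧ P.v (g * w0 ^ 2 + Δ * w0 ^ 4) = -1 := by
    have h1 := P.v_add hXw (b := ph2 g Δ w0) (by
      rw [hvXw]; simpa using hmin _ (S.phi w0 hw0V))
    have h2 : RatFunc.X * w0 + ph2 g Δ w0 = g * w0 ^ 2 + Δ * w0 ^ 4 := by
      unfold ph2; (first | ring1 | (ring_nf; reduce_mod_char!) | (ring_nf; reduce_mod_char!; ring_nf))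
    rw [h2, hvXw] at h1
    exact h1
  have hvD : P.v (Δ * w0 ^ 4) = P.v Δ := by
    rw [P.map_mul _ _ S.hΔ (pow_ne_zero 4 hw0), P.v_pow hw0, hv0]; simp
  have hD0 : Δ * w0 ^ 4 ≠ 0 := mul_ne_zero S.hΔ (pow_ne_zero 4 hw0)
  by_cases hD : P.v Δ ≤ -2
  · have hg : g ≠ 0 := by
      rintro rfl
      rw [zero_mul, zero_add, hvD] at hsum
      omega
    have hvg : P.v (g * w0 ^ 2) = P.v g := by
      rw [P.map_mul _ _ hg (pow_ne_zero 2 hw0), P.v_pow hw0, hv0]; simp
    have hg0 : g * w0 ^ 2 ≠ 0 := mul_ne_zero hg (pow_ne_zero 2 hw0)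
    have hgΔ : P.v g = P.v Δ := by
      rcases lt_trichotomy (P.v g) (P.v Δ) with h1 | h1 | h1
      · exfalso
        obtain ⟨h2, h3⟩ := P.v_add hg0 (b := Δ * w0 ^ 4) (P.ge_of_le (by rw [hvg, hvD]; omega))
        omega
      · exact h1
      · exfalso
        obtain ⟨h2, h3⟩ := P.v_add hD0 (b := g * w0 ^ 2) (P.ge_of_le (by rw [hvg, hvD]; omega))
        rw [add_comm] at h2 h3
        omega
    obtain ⟨E, hE⟩ : ∃ E : ℤ, E = -P.v Δ := ⟨_, rfl⟩
    have hDE : P.v Δ = -E := by omega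
    have hgE : P.v g = -E := by omega
    have hE0 : 2 ≤ E := by omega
    have hlt : ∀ w ∈ V, w ≠ 0 → P.v w < E - 1 := by
      intro w hw hwne
      by_contra hcon
      push Not at hcon
      have h1 := S.cyc hc (P.ge (E - 1)) (fun a b => P.ge_add) (by
        intro z hz hzE
        by_cases hz0 : z = 0
        · rw [hz0, ph2_zero]; exact P.ge_zero _
        have hzv := P.le_of_ge hzE hz0
        have e1 : P.v (RatFunc.X * z) = P.v z - 1 := by
          rw [P.map_mul _ _ RatFunc.X_ne_zero hz0]; omega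
        have e2 : P.v (g * z ^ 2) = 2 * P.v z - E := by
          rw [P.map_mul _ _ hg (pow_ne_zero 2 hz0), P.v_pow hz0]; push_cast; omega
        unfold ph2
        apply P.ge_add
        · rcases lt_or_ge (P.v z) E with h5 | h5
          · have h6 := Plc.res_add hres (mul_ne_zero RatFunc.X_ne_zero hz0)
              (mul_ne_zero hg (pow_ne_zero 2 hz0)) (n := E - 2) (by omega) (by omega)
            exact P.ge_mono h6 (by omega)
          · apply P.ge_add
            · exact P.ge_of_le (by omega)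
            · exact P.ge_of_le (by omega)
        · right
          rw [P.map_mul _ _ S.hΔ (pow_ne_zero 4 hz0), P.v_pow hz0]; push_cast; omega)
        w hw hwne (P.ge_of_le hcon) w0 hw0V
      have := P.le_of_ge h1 hw0
      omega
    refine patternB P S hc hR hmin w0 hw0V hw0 hv0 hco E (by omega) hDE ?_ ?_ x hxV hx1 hx2
    · intro w hw hw1
      have := hlt w hw hw1
      omega
    · intro w hw hw1 hw2
      have h1 := P.le_of_ge hw2 hw1
      have h2 := hlt w hw hw1
      apply v_phi P S.hΔ hg hgE hDE hw1 (by omega) (by omega)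
  · exfalso
    push Not at hD
    have hgm : P.ge (-1) g := by
      by_cases hg : g = 0
      · exact Or.inl hg
      right
      have h1 : P.ge (-1) (g * w0 ^ 2 + Δ * w0 ^ 4) := P.ge_of_le (by omega)
      have h2 := P.ge_add h1 (P.ge_of_le (by omega) : P.ge (-1) (Δ * w0 ^ 4))
      rw [add_right_self'] at h2
      have h4 := P.le_of_ge h2 (mul_ne_zero hg (pow_ne_zero 2 hw0))
      rw [P.map_mul _ _ hg (pow_ne_zero 2 hw0), P.v_pow hw0, hv0] at h4
      simpa using h4
    have hDm : P.ge (-1) Δ := P.ge_of_le (by omega)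
    have hphi : ∀ w ∈ V, w ≠ 0 → P.ge 1 w → ph2 g Δ w ≠ 0 ∧ P.v (ph2 g Δ w) = P.v w - 1 := by
      intro w hw hw1 hw2
      have h1 := P.le_of_ge hw2 hw1
      have e1 : P.v (RatFunc.X * w) = P.v w - 1 := by
        rw [P.map_mul _ _ RatFunc.X_ne_zero hw1]; omega
      have hww : P.ge (P.v w) w := P.ge_of_le le_rfl
      have h3 := P.v_add (mul_ne_zero RatFunc.X_ne_zero hw1) (b := g * w ^ 2 + Δ * w ^ 4) (by
        rw [e1]
        apply P.ge_add
        · have := P.ge_mul hgm (P.ge_mul hww hww)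
          rw [← pow_two] at this
          exact P.ge_mono this (by omega)
        · have := P.ge_mul hDm (P.ge_mul (P.ge_mul hww hww) (P.ge_mul hww hww))
          have h5 : w * w * (w * w) = w ^ 4 := by ring
          rw [h5] at this
          exact P.ge_mono this (by omega))
      have h4 : RatFunc.X * w + (g * w ^ 2 + Δ * w ^ 4) = ph2 g Δ w := by
        unfold ph2; ring
      rw [h4, e1] at h3
      exact h3
    obtain ⟨hp1, hp2⟩ := hphi x hxV hx0 hx1
    obtain ⟨-, hp3⟩ := hV1 _ (S.phi x hxV) hx2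
    have hvx : P.v x = 1 := by omega
    obtain ⟨z, hz, hz1, hz2, hz3, hz4⟩ := exists_other S.card x w0
    obtain ⟨y', hy', hy'0, hy'x, hy'1⟩ : ∃ y ∈ V, y ≠ 0 ∧ y ≠ x ∧ P.ge 1 y := by
      by_cases hz5 : P.ge 1 z
      · exact ⟨z, hz, hz1, hz2, hz5⟩
      · refine ⟨z + w0, S.add z hz w0 hw0V, ?_, ?_, hco z hz hz5⟩
        · intro h0
          exact hz3 (CharTwo.add_eq_zero.1 h0)
        · intro h0
          apply hz4
          rw [← h0, add_right_self']
    obtain ⟨y, hy, hy0, hyx, hy2⟩ : ∃ y ∈ V, y ≠ 0 ∧ y ≠ x ∧ 2 ≤ P.v y := by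
      by_cases h1 : 2 ≤ P.v y'
      · exact ⟨y', hy', hy'0, hy'x, h1⟩
      · have h2 := P.le_of_ge hy'1 hy'0
        have h3 : P.v y' = 1 := by omega
        have h4 : y' + x ≠ 0 := fun h0 => hy'x (CharTwo.add_eq_zero.1 h0)
        have h5 := Plc.res_add hres hy'0 hx0 h3 hvx
        refine ⟨y' + x, S.add _ hy' _ hxV, h4, ?_, P.le_of_ge h5 h4⟩
        intro h6
        apply hy'0
        have h7 := add_right_self' y' x
        rw [h6] at h7
        rw [← h7]
        exact CharTwo.add_self_eq_zero x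
    have hy1 : P.ge 1 y := P.ge_of_le (by omega)
    obtain ⟨hq1, hq2⟩ := hphi y hy hy0 hy1
    have hyxv : y + x ≠ 0 ∧ P.v (y + x) = 1 := by
      have h1 := P.v_add hx0 (b := y) (P.ge_of_le (by omega))
      rw [add_comm, hvx] at h1
      exact h1
    have hU1 : ∀ w, inU x y w → P.ge 1 w := by
      intro w hw
      rcases hw with rfl | rfl | rfl | rfl
      · exact P.ge_zero 1
      · exact hx1
      · exact hy1
      · exact P.ge_add hx1 hy1
    have hw0U : ¬ inU x y w0 := fun h => hw01 (hU1 _ h)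
    have hvy : P.v y = 2 := by
      rcases eight S.add hc hxV hy hw0V hx0 hy0 (Ne.symm hyx) hw0U _ (S.phi y hy) with h1 | h1
      · rcases h1 with h1 | h1 | h1 | h1
        · exact absurd h1 hq1
        · rw [h1] at hq2; omega
        · exact absurd h1 (S.noeig y hy hy0).2
        · rw [h1, add_comm] at hq2; omega
      · exfalso
        apply hw01
        have h2 := hU1 _ h1
        have h3 : P.ge 1 (ph2 g Δ y) := P.ge_of_le (by omega)
        have h4 := P.ge_add h2 h3
        have h5 : ph2 g Δ y + w0 + ph2 g Δ y = w0 := by (first | ring1 | (ring_nf; reduce_mod_char!) | (ring_nf; reduce_mod_char!; ring_nf))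
        rw [h5] at h4
        exact h4
    have hw0x : w0 + x ≠ 0 ∧ P.v (w0 + x) = 0 := by
      have h1 := P.v_add hw0 (b := x) (P.ge_of_le (by omega))
      rw [hv0] at h1
      exact h1
    have hyU : ¬ inU x w0 y := by
      intro h
      rcases h with h | h | h | h
      · exact hy0 h
      · exact hyx h
      · rw [h] at hvy; omega
      · rw [h, add_comm] at hvy; omega
    have hxw0 : x ≠ w0 := by
      intro h
      rw [h] at hvx; omega
    obtain ⟨-, r2, -⟩ := ric_eight S.phi S.add hR S.card hc hxV hw0V hy hx0 hw0 hxw0 hyU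
    obtain ⟨s, hs⟩ := dd_eq_zero r2
    rw [alf_prod] at hs
    have f1 : y + w0 ≠ 0 ∧ P.v (y + w0) = 0 := by
      have h1 := P.v_add hw0 (b := y) (P.ge_of_le (by omega))
      rw [hv0, add_comm] at h1
      exact h1
    have f2 : y + (x + w0) ≠ 0 ∧ P.v (y + (x + w0)) = 0 := by
      have h1 := P.v_add hw0x.1 (b := y) (P.ge_of_le (by omega))
      have h2 : w0 + x + y = y + (x + w0) := by ring
      rw [h2, hw0x.2] at h1
      exact h1
    have hne := mul_ne_zero (mul_ne_zero (mul_ne_zero hy0 hyxv.1) f1.1) f2.1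
    have hs0 : s ≠ 0 := by
      rintro rfl
      apply hne
      rw [hs]; ring
    have h9 := congrArg P.v hs
    rw [P.map_mul _ _ (mul_ne_zero (mul_ne_zero hy0 hyxv.1) f1.1) f2.1,
      P.map_mul _ _ (mul_ne_zero hy0 hyxv.1) f1.1, P.map_mul _ _ hy0 hyxv.1, P.v_pow hs0] at h9
    push_cast at h9
    omega

open Classical in
lemma ric_scale {δ0 δ1 : (RatFunc K)} {V : Finset (RatFunc K)} (hR : Ric δ0 δ1 V) {a : (RatFunc K)} (ha : a ≠ 0) :
    Ric (δ0 + dd a / a) (δ1 * a) (V.image (fun w => a⁻¹ * w)) := by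
  have hch : CharP (RatFunc K) 2 := inferInstance
  intro w hw
  rw [Finset.mem_image] at hw
  obtain ⟨w, hw, rfl⟩ := hw
  have h1 := hR w hw
  have h2 : dd (a⁻¹) = dd a / a ^ 2 := by
    have h3 := congrArg dd (mul_inv_cancel₀ ha)
    rw [dd_mul, dd_one] at h3
    have h4 : a * dd (a⁻¹) = a⁻¹ * dd a := CharTwo.add_eq_zero.1 h3
    field_simp at h4 ⊢
    linear_combination h4
  rw [dd_mul, h2, h1]
  field_simp
  (first | ring1 | (ring_nf; reduce_mod_char!) | (ring_nf; reduce_mod_char!; ring_nf))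

/-- the Riccati case without eigenvectors -/
theorem L4 {g Δ : (RatFunc K)} {V : Finset (RatFunc K)} (S : Sys g Δ V) {δ0 δ1 : (RatFunc K)} (hR : Ric δ0 δ1 V) : False := by
  classical
  have hc : V.card ≤ 8 := by
    by_contra hcon
    push Not at hcon
    have := root_bound V _ _ _ _ (ric_identity g Δ δ0 δ1 V S.phi hR) (Or.inl hcon)
    exact one_ne_zero this.1
  have hδ1 : δ1 ≠ 0 := by
    obtain ⟨a, haV, ha0, -⟩ := exists_other S.card 0 0
    obtain ⟨b, hb, hb0, hb1, -, -⟩ := exists_other S.card a a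
    obtain ⟨c, hcV, hc0, hc1, hc2, hc3⟩ := exists_other S.card a b
    have hcU : ¬ inU a b c := by
      intro h
      rcases h with h | h | h | h
      · exact hc0 h
      · exact hc1 h
      · exact hc2 h
      · exact hc3 h
    obtain ⟨r1, -, -⟩ := ric_eight S.phi S.add hR S.card hc haV hb hcV ha0 hb0 (Ne.symm hb1) hcU
    rintro rfl
    simp at r1
  have hcard : ∀ a : (RatFunc K), a ≠ 0 → (V.image (fun w => a⁻¹ * w)).card ≤ 8 := by
    intro a ha
    exact le_trans Finset.card_image_le hc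
  have hsc : ∀ (P : Plc K), ∃ a : (RatFunc K), a ≠ 0 ∧ (∀ w ∈ V.image (fun w => a⁻¹ * w), P.ge 0 w) ∧
      (1 : (RatFunc K)) ∈ V.image (fun w => a⁻¹ * w) := by
    intro P
    obtain ⟨a, haV, ha, hmin⟩ := exists_min P S.card
    refine ⟨a, ha, ?_, ?_⟩
    · intro w hw
      rw [Finset.mem_image] at hw
      obtain ⟨w, hw, rfl⟩ := hw
      by_cases hw0 : w = 0
      · left; rw [hw0, mul_zero]
      right
      rw [P.map_mul _ _ (inv_ne_zero ha) hw0, P.v_inv ha]
      have := hmin w hw hw0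
      omega
    · rw [Finset.mem_image]
      exact ⟨a, haV, inv_mul_cancel₀ ha⟩
  have hv : ∀ (P : Plc K) (a : (RatFunc K)), a ≠ 0 →
      3 * P.v (δ1 * a) - P.v (Δ * a ^ 3) = P.v (δ1 ^ 3 / Δ) := by
    intro P a ha
    rw [P.map_mul _ _ hδ1 ha, P.map_mul _ _ S.hΔ (pow_ne_zero 3 ha), P.v_pow ha, div_eq_mul_inv,
      P.map_mul _ _ (pow_ne_zero 3 hδ1) (inv_ne_zero S.hΔ), P.v_inv S.hΔ, P.v_pow hδ1]
    push_cast; ring
  have hfin : ∀ (π : K[X]) (hπ : Prime π), 0 ≤ (plP π hπ).v (δ1 ^ 3 / Δ) := by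
    intro π hπ
    obtain ⟨a, ha, h1, h2⟩ := hsc (plP π hπ)
    rw [← hv _ a ha]
    exact L4fin (plP π hπ) (plP_X_nonneg hπ) (fun f => plP_od hπ) (S.scale ha) (hcard a ha)
      (ric_scale hR ha) h1 1 h2 one_ne_zero (Plc.v_one _)
  have hinf : 0 < (plInf K).v (δ1 ^ 3 / Δ) := by
    obtain ⟨a, ha, h1, h2⟩ := hsc (plInf K)
    rw [← hv _ a ha]
    exact L4inf (plInf K) plInf_X plInf_res (S.scale ha) (hcard a ha)
      (ric_scale hR ha) h1 1 h2 one_ne_zero (Plc.v_one _)
  have hf0 : δ1 ^ 3 / Δ ≠ 0 := div_ne_zero (pow_ne_zero 3 hδ1) S.hΔ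
  obtain ⟨p, q, hp, hq, hpq, hfe⟩ := exists_frac' hf0
  by_cases hu : IsUnit q
  · rw [isUnit_eq_one hu, map_one, div_one] at hfe
    rw [hfe] at hinf
    change 0 < -RatFunc.intDegree (algebraMap K[X] (RatFunc K) p) at hinf
    rw [RatFunc.intDegree_polynomial] at hinf
    omega
  · obtain ⟨π, hπi, hπq⟩ := WfDvdMonoid.exists_irreducible_factor hu hq
    have hπ : Prime π := hπi.prime
    have h1 := hfin π hπ
    rw [hfe, plP_div hπ hp hq] at h1
    have h2 : 0 < multiplicity π q := by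
      have := le_mult hπ hq (k := 1) (by rw [pow_one]; exact hπq)
      omega
    have h3 : 0 < multiplicity π p := by omega
    have h4 : π ∣ p := dvd_of_multiplicity_pos h3
    exact hπ.not_isUnit (hpq.isUnit_of_dvd' h4 hπq)

/-- no finite stable subspace of dimension at least three without eigenvectors -/
theorem no_sys {g Δ : (RatFunc K)} {V : Finset (RatFunc K)} (S : Sys g Δ V) : False := by
  obtain ⟨a, haV, ha0, -⟩ := exists_other S.card 0 0
  obtain ⟨b, hb, hb0, hb1, -, -⟩ := exists_other S.card a a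
  rcases L1F g Δ S.hΔ V S.phi a b haV hb ha0 hb0 (Ne.symm hb1) with ⟨h, hh⟩ | ⟨δ0, δ1, hR⟩
  · exact L2 S h hh
  · exact L4 S hR

end

end Pool.Agent.W82
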