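import Pool.Agent.W82.D6

set_option autoImplicit false
set_option linter.unusedSectionVars false

namespace Pool.Agent.W82

open Polynomial

section
variable {K : Type*} [Field K] [F2 K]


/-- the eight-element span -/
lemma exists_span (a b c : (RatFunc K)) (ha0 : a ≠ 0) (hb0 : b ≠ 0) (hab : a ≠ b) (hcU : ¬ inU a b c) :
    ∃ S : Finset (RatFunc K), (∀ w, w ∈ S ↔ (inU a b w ∨ inU a b (w + c))) ∧ 4 < S.card ∧ S.card ≤ 8 := by
  classical
  have hs : ∀ z : (RatFunc K), z + z = 0 := fun z => CharTwo.add_self_eq_zero z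
  let U : Finset (RatFunc K) := {0, a, b, a + b}
  have hU : ∀ z, z ∈ U ↔ inU a b z := by
    intro z
    simp only [U, Finset.mem_insert, Finset.mem_singleton, inU]
  have hUc : U.card = 4 := by
    have h1 : a + b ≠ 0 := fun h => hab (CharTwo.add_eq_zero.1 h)
    have h2 : a ≠ a + b := fun h => hb0 (by simpa using h)
    have h3 : b ≠ a + b := fun h => ha0 (by simpa using h)
    simp only [U]
    rw [Finset.card_insert_of_notMem, Finset.card_insert_of_notMem, Finset.card_insert_of_notMem,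
      Finset.card_singleton]
    · simpa using h3
    · simp only [Finset.mem_insert, Finset.mem_singleton, not_or]
      exact ⟨hab, h2⟩
    · simp only [Finset.mem_insert, Finset.mem_singleton, not_or]
      exact ⟨ha0.symm, hb0.symm, h1.symm⟩
  let U' : Finset (RatFunc K) := U.image (fun z => z + c)
  have hU'c : U'.card = 4 := by
    rw [← hUc]
    apply Finset.card_image_of_injective
    intro x y hxy
    exact add_right_cancel hxy
  have hdis : Disjoint U U' := by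
    rw [Finset.disjoint_left]
    intro z hz hz'
    rw [Finset.mem_image] at hz'
    obtain ⟨y, hy, hyz⟩ := hz'
    apply hcU
    have h1 : c = y + z := by
      rw [← hyz, ← add_assoc, hs, zero_add]
    rw [h1]
    exact inU_add ((hU y).1 hy) ((hU z).1 hz)
  refine ⟨U ∪ U', ?_, ?_, ?_⟩
  · intro w
    rw [Finset.mem_union, hU, Finset.mem_image]
    constructor
    · rintro (h | ⟨y, hy, rfl⟩)
      · exact Or.inl h
      · right
        rw [add_right_self']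
        exact (hU y).1 hy
    · rintro (h | h)
      · exact Or.inl h
      · right
        exact ⟨w + c, (hU _).2 h, add_right_self' w c⟩
  · rw [Finset.card_union_of_disjoint hdis, hUc, hU'c]; norm_num
  · rw [Finset.card_union_of_disjoint hdis, hUc, hU'c]

lemma span_add {a b c : (RatFunc K)} {S : Finset (RatFunc K)} (hS : ∀ w, w ∈ S ↔ (inU a b w ∨ inU a b (w + c))) :
    ∀ x ∈ S, ∀ y ∈ S, x + y ∈ S := by
  have hs : ∀ z : (RatFunc K), z + z = 0 := fun z => CharTwo.add_self_eq_zero z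
  intro x hx y hy
  rw [hS] at *
  rcases hx with hx | hx <;> rcases hy with hy | hy
  · exact Or.inl (inU_add hx hy)
  · right
    have := inU_add hx hy
    rwa [← add_assoc] at this
  · right
    have := inU_add hx hy
    rwa [add_right_comm] at this
  · left
    have := inU_add hx hy
    have h1 : x + c + (y + c) = x + y := by
      have : x + c + (y + c) = x + y + (c + c) := by ring
      rw [this, hs, add_zero]
    rwa [h1] at this

lemma span_mem {a b c : (RatFunc K)} {S : Finset (RatFunc K)} (hS : ∀ w, w ∈ S ↔ (inU a b w ∨ inU a b (w + c))) :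
    (0 : (RatFunc K)) ∈ S ∧ a ∈ S ∧ b ∈ S ∧ c ∈ S := by
  have hs : ∀ z : (RatFunc K), z + z = 0 := fun z => CharTwo.add_self_eq_zero z
  refine ⟨(hS _).2 (Or.inl (Or.inl rfl)), (hS _).2 (Or.inl (Or.inr (Or.inl rfl))),
    (hS _).2 (Or.inl (Or.inr (Or.inr (Or.inl rfl)))), (hS _).2 (Or.inr (Or.inl (hs c)))⟩

lemma span_stable {a b c : (RatFunc K)} {S : Finset (RatFunc K)} (hS : ∀ w, w ∈ S ↔ (inU a b w ∨ inU a b (w + c)))
    (f : (RatFunc K) → (RatFunc K)) (hf : ∀ x y, f (x + y) = f x + f y) (ha : f a ∈ S) (hb : f b ∈ S) (hc : f c ∈ S) :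
    ∀ w ∈ S, f w ∈ S := by
  have hs : ∀ z : (RatFunc K), z + z = 0 := fun z => CharTwo.add_self_eq_zero z
  have h0 : f 0 = 0 := by
    have := hf 0 0
    rw [add_zero, hs] at this
    exact this
  have hU : ∀ w, inU a b w → f w ∈ S := by
    intro w hw
    rcases hw with rfl | rfl | rfl | rfl
    · rw [h0]; exact (span_mem hS).1
    · exact ha
    · exact hb
    · rw [hf]; exact span_add hS _ ha _ hb
  intro w hw
  rcases (hS w).1 hw with h | h
  · exact hU w h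
  · have h1 := span_add hS _ (hU _ h) _ hc
    rw [hf, add_right_self'] at h1
    exact h1

/-- the dichotomy for a three-dimensional stable space given by a basis -/
lemma L1span (g Δ : (RatFunc K)) (hΔ : Δ ≠ 0) (a b c : (RatFunc K)) (ha0 : a ≠ 0) (hb0 : b ≠ 0) (hab : a ≠ b)
    (hcU : ¬ inU a b c) (S : Finset (RatFunc K)) (hS : ∀ w, w ∈ S ↔ (inU a b w ∨ inU a b (w + c)))
    (hfa : ph2 g Δ a ∈ S) (hfb : ph2 g Δ b ∈ S) (hfc : ph2 g Δ c ∈ S) :
    (∃ h, g * Δ = h ^ 2) ∨ ∃ δ0 δ1, Ric δ0 δ1 S := by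
  obtain ⟨-, h1, h2, -⟩ := span_mem hS
  exact L1F g Δ hΔ S (span_stable hS _ (ph2_add g Δ) hfa hfb hfc) a b h1 h2 ha0 hb0 hab

lemma no_omega (A : (RatFunc K)) : A ^ 2 + A + 1 ≠ 0 := by
  intro h
  have hch : CharP (RatFunc K) 2 := inferInstance
  have hchK : CharP K 2 := inferInstance
  obtain ⟨p, q, hq, hpq, rfl⟩ := exists_frac A
  have hAq : algebraMap K[X] (RatFunc K) q ≠ 0 := aX_ne hq
  have h1 : p ^ 2 + p * q + q ^ 2 = 0 := by
    apply RatFunc.algebraMap_injective K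
    rw [map_add, map_add, map_mul, map_pow, map_pow, map_zero]
    field_simp at h
    linear_combination h
  have h2 : IsUnit q := by
    have h3 : q ∣ p ^ 2 := by
      refine ⟨p + q, ?_⟩
      linear_combination (norm := (first | ring1 | (ring_nf; reduce_mod_char!) | (ring_nf; reduce_mod_char!; ring_nf))) h1
    exact (hpq.pow_left (m := 2)).isUnit_of_dvd' h3 dvd_rfl
  have h4 : IsUnit p := by
    have h3 : p ∣ q ^ 2 := by
      refine ⟨p + q, ?_⟩
      linear_combination (norm := (first | ring1 | (ring_nf; reduce_mod_char!) | (ring_nf; reduce_mod_char!; ring_nf))) h1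
    exact (hpq.pow_right (n := 2)).isUnit_of_dvd' dvd_rfl h3
  rw [isUnit_eq_one h2, isUnit_eq_one h4] at h1
  have h5 : (1 : K[X]) = 0 := by
    linear_combination (norm := (first | ring1 | (ring_nf; reduce_mod_char!) | (ring_nf; reduce_mod_char!; ring_nf))) h1
  exact one_ne_zero h5

/-- relations for a cyclic plane -/
lemma base3 (g Δ u : (RatFunc K)) (hu0 : u ≠ 0) (hu : ph2 g Δ (ph2 g Δ u) = ph2 g Δ u + u) :
    ph2 g Δ u ≠ 0 ∧ u ≠ ph2 g Δ u ∧
    (g + Δ * (u ^ 2 + u * ph2 g Δ u + ph2 g Δ u ^ 2)) ≠ 0 ∧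
    u * ph2 g Δ u * (u + ph2 g Δ u) ≠ 0 ∧
    (u ^ 2 + u * ph2 g Δ u + ph2 g Δ u ^ 2) =
      (g + Δ * (u ^ 2 + u * ph2 g Δ u + ph2 g Δ u ^ 2)) * (u * ph2 g Δ u * (u + ph2 g Δ u)) ∧
    g = (g + Δ * (u ^ 2 + u * ph2 g Δ u + ph2 g Δ u ^ 2))
      * (1 + Δ * (u * ph2 g Δ u * (u + ph2 g Δ u))) := by
  have hch : CharP (RatFunc K) 2 := inferInstance
  have hs : ∀ z : (RatFunc K), z + z = 0 := fun z => CharTwo.add_self_eq_zero z
  obtain ⟨v, hv⟩ : ∃ v, v = ph2 g Δ u := ⟨_, rfl⟩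
  rw [← hv] at hu ⊢
  have hv0 : v ≠ 0 := by
    rintro rfl
    rw [ph2_zero, zero_add] at hu
    exact hu0 hu.symm
  have huv : u ≠ v := by
    intro h
    rw [← h, hs] at hu
    apply hv0
    rw [hv]; exact hu
  have huv1 : u + v ≠ 0 := fun h => huv (CharTwo.add_eq_zero.1 h)
  obtain ⟨P, hP⟩ : ∃ P, P = u ^ 2 + u * v + v ^ 2 := ⟨_, rfl⟩
  obtain ⟨R, hR⟩ : ∃ R, R = u * v * (u + v) := ⟨_, rfl⟩
  have hR0 : R ≠ 0 := by
    rw [hR]; exact mul_ne_zero (mul_ne_zero hu0 hv0) huv1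
  rw [← hP, ← hR]
  obtain ⟨W, hW⟩ : ∃ W, W = g + Δ * P := ⟨_, rfl⟩
  rw [← hW]
  obtain ⟨A, hA⟩ : ∃ A, A = RatFunc.X + Δ * R := ⟨_, rfl⟩
  have hu4 : u ^ 4 = P * u ^ 2 + R * u := by rw [hP, hR]; (first | ring1 | (ring_nf; reduce_mod_char!) | (ring_nf; reduce_mod_char!; ring_nf))
  have hv4 : v ^ 4 = P * v ^ 2 + R * v := by rw [hP, hR]; (first | ring1 | (ring_nf; reduce_mod_char!) | (ring_nf; reduce_mod_char!; ring_nf))
  have hv' : v = A * u + W * u ^ 2 := by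
    rw [hv, hA, hW]
    unfold ph2
    rw [hu4]
    ring
  have hu' : v + u = A * v + W * v ^ 2 := by
    rw [← hu, hA, hW]
    unfold ph2
    rw [hv4]
    ring
  -- the relation on u
  have e1 : (A ^ 2 + A + 1 + W ^ 3 * R) + (W * (A ^ 2 + A + 1 + W ^ 2 * P)) * u = 0 := by
    apply mul_left_cancel₀ hu0
    rw [mul_zero]
    have h1 : A * v + W * v ^ 2 + v + u = 0 := by
      rw [← hu']; (first | ring1 | (ring_nf; reduce_mod_char!) | (ring_nf; reduce_mod_char!; ring_nf))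
    rw [hv'] at h1
    have h2 : W * (A * u + W * u ^ 2) ^ 2 = W * A ^ 2 * u ^ 2 + W ^ 3 * u ^ 4 := by (first | ring1 | (ring_nf; reduce_mod_char!) | (ring_nf; reduce_mod_char!; ring_nf))
    rw [h2, hu4] at h1
    linear_combination (norm := (first | ring1 | (ring_nf; reduce_mod_char!) | (ring_nf; reduce_mod_char!; ring_nf))) h1
  have e2 : (A ^ 2 + A + 1 + W ^ 3 * R) + (W * (A ^ 2 + A + 1 + W ^ 2 * P)) * v = 0 := by
    apply mul_left_cancel₀ hv0
    rw [mul_zero]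
    have h0 : v + (v + u) + (A * (v + u) + W * (v + u) ^ 2) = 0 := by
      have h3 : A * (v + u) + W * (v + u) ^ 2 = (A * v + W * v ^ 2) + (A * u + W * u ^ 2) := by (first | ring1 | (ring_nf; reduce_mod_char!) | (ring_nf; reduce_mod_char!; ring_nf))
      rw [h3, ← hu', ← hv']; (first | ring1 | (ring_nf; reduce_mod_char!) | (ring_nf; reduce_mod_char!; ring_nf))
    rw [hu'] at h0
    have h2 : W * (A * v + W * v ^ 2) ^ 2 = W * A ^ 2 * v ^ 2 + W ^ 3 * v ^ 4 := by (first | ring1 | (ring_nf; reduce_mod_char!) | (ring_nf; reduce_mod_char!; ring_nf))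
    rw [h2, hv4] at h0
    linear_combination (norm := (first | ring1 | (ring_nf; reduce_mod_char!) | (ring_nf; reduce_mod_char!; ring_nf))) h0
  have e3 : (W * (A ^ 2 + A + 1 + W ^ 2 * P)) * (u + v) = 0 := by
    linear_combination (norm := (first | ring1 | (ring_nf; reduce_mod_char!) | (ring_nf; reduce_mod_char!; ring_nf))) (e1 + e2)
  have e4 : W * (A ^ 2 + A + 1 + W ^ 2 * P) = 0 := (mul_eq_zero.1 e3).resolve_right huv1
  have e5 : A ^ 2 + A + 1 + W ^ 3 * R = 0 := by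
    rw [e4, zero_mul, add_zero] at e1
    exact e1
  have hW0 : W ≠ 0 := by
    rintro rfl
    apply no_omega A
    linear_combination e5
  have e6 : A ^ 2 + A + 1 + W ^ 2 * P = 0 := (mul_eq_zero.1 e4).resolve_left hW0
  have e7 : P = W * R := by
    have hW2 : W ^ 2 ≠ 0 := pow_ne_zero 2 hW0
    apply mul_left_cancel₀ hW2
    linear_combination (norm := (first | ring1 | (ring_nf; reduce_mod_char!) | (ring_nf; reduce_mod_char!; ring_nf))) (e5 + e6)
  refine ⟨hv0, huv, hW0, hR0, e7, ?_⟩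
  have h1 : W * (1 + Δ * R) = W + Δ * (W * R) := by ring
  rw [h1, ← e7, hW]
  (first | ring1 | (ring_nf; reduce_mod_char!) | (ring_nf; reduce_mod_char!; ring_nf))

/-- the isogenous operator -/
lemma ph2_wp (Δ w : (RatFunc K)) : ph2 (RatFunc.X ^ 2 + Δ) (Δ ^ 2) (w ^ 2 + w)
    = (ph2 (RatFunc.X + Δ) Δ w) ^ 2 + ph2 (RatFunc.X + Δ) Δ w := by
  have hch : CharP (RatFunc K) 2 := inferInstance
  unfold ph2
  (first | ring1 | (ring_nf; reduce_mod_char!) | (ring_nf; reduce_mod_char!; ring_nf))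

lemma ph2_fac (Δ w : (RatFunc K)) : ph2 (RatFunc.X + Δ) Δ w
    = RatFunc.X * (w ^ 2 + w) + Δ * (w ^ 2 + w) ^ 2 := by
  have hch : CharP (RatFunc K) 2 := inferInstance
  unfold ph2
  (first | ring1 | (ring_nf; reduce_mod_char!) | (ring_nf; reduce_mod_char!; ring_nf))

lemma type3 (Δ u : (RatFunc K)) (hΔ : Δ ≠ 0) (hu0 : u ≠ 0)
    (hu : ph2 (RatFunc.X + Δ) Δ (ph2 (RatFunc.X + Δ) Δ u) = ph2 (RatFunc.X + Δ) Δ u + u) : False := by
  have hch : CharP (RatFunc K) 2 := inferInstance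
  have hs : ∀ z : (RatFunc K), z + z = 0 := fun z => CharTwo.add_self_eq_zero z
  have hone : ph2 (RatFunc.X + Δ) Δ (1 : (RatFunc K)) = 0 := by unfold ph2; (first | ring1 | (ring_nf; reduce_mod_char!) | (ring_nf; reduce_mod_char!; ring_nf))
  obtain ⟨hv0, huv, hW0, hR0, hPW, hgW⟩ := base3 _ Δ u hu0 hu
  have hu1 : u ≠ 1 := by
    rintro rfl
    rw [hone, ph2_zero, zero_add] at hu
    exact zero_ne_one hu
  have hut0 : u ^ 2 + u ≠ 0 := by
    intro h
    have h1 : u * (u + 1) = 0 := by linear_combination h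
    rcases mul_eq_zero.1 h1 with h2 | h2
    · exact hu0 h2
    · exact hu1 (CharTwo.add_eq_zero.1 h2)
  have hut : ph2 (RatFunc.X ^ 2 + Δ) (Δ ^ 2) (ph2 (RatFunc.X ^ 2 + Δ) (Δ ^ 2) (u ^ 2 + u))
      = ph2 (RatFunc.X ^ 2 + Δ) (Δ ^ 2) (u ^ 2 + u) + (u ^ 2 + u) := by
    rw [ph2_wp, ph2_wp, hu]
    (first | ring1 | (ring_nf; reduce_mod_char!) | (ring_nf; reduce_mod_char!; ring_nf))
  obtain ⟨hvt0, hutvt, hWt0, hRt0, hPWt, hgWt⟩ := base3 _ (Δ ^ 2) _ hut0 hut
  rw [ph2_wp] at hvt0 hutvt hWt0 hRt0 hPWt hgWt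
  obtain ⟨v, hv⟩ : ∃ v, v = ph2 (RatFunc.X + Δ) Δ u := ⟨_, rfl⟩
  rw [← hv] at hu hv0 huv hW0 hR0 hPW hgW hvt0 hutvt hWt0 hRt0 hPWt hgWt
  obtain ⟨P, hP⟩ : ∃ P, P = u ^ 2 + u * v + v ^ 2 := ⟨_, rfl⟩
  obtain ⟨R, hR⟩ : ∃ R, R = u * v * (u + v) := ⟨_, rfl⟩
  have hp : (u ^ 2 + u) ^ 2 + (u ^ 2 + u) * (v ^ 2 + v) + (v ^ 2 + v) ^ 2 = P ^ 2 + P + R := by
    rw [hP, hR]; (first | ring1 | (ring_nf; reduce_mod_char!) | (ring_nf; reduce_mod_char!; ring_nf))
  have hq : (u ^ 2 + u) * (v ^ 2 + v) * (u ^ 2 + u + (v ^ 2 + v)) = (1 + P + R) * R := by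
    rw [hP, hR]; (first | ring1 | (ring_nf; reduce_mod_char!) | (ring_nf; reduce_mod_char!; ring_nf))
  rw [← hP, ← hR] at hPW
  rw [← hP] at hW0
  rw [← hR] at hR0
  rw [← hP, ← hR] at hgW
  rw [hp] at hWt0
  rw [hq] at hRt0
  rw [hp, hq] at hPWt
  rw [hp, hq] at hgWt
  obtain ⟨W, hW⟩ : ∃ W, W = RatFunc.X + Δ + Δ * P := ⟨_, rfl⟩
  rw [← hW] at hW0 hPW hgW
  obtain ⟨w, hw⟩ : ∃ w, w = RatFunc.X ^ 2 + Δ + Δ ^ 2 * (P ^ 2 + P + R) := ⟨_, rfl⟩
  rw [← hw] at hWt0 hPWt hgWt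
  -- first system
  have h1U : ¬ inU u v 1 := by
    intro h
    rcases h with h | h | h | h
    · exact one_ne_zero h
    · exact hu1 h.symm
    · rw [← h, hone] at hu
      have h2 : u = 1 := (CharTwo.add_eq_zero.1 hu.symm).symm
      exact hu1 h2
    · have h3 : ph2 (RatFunc.X + Δ) Δ (u + v) = 0 := by rw [← h]; exact hone
      rw [ph2_add, ← hv, hu] at h3
      apply hu0
      linear_combination (norm := (first | ring1 | (ring_nf; reduce_mod_char!) | (ring_nf; reduce_mod_char!; ring_nf))) h3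
  obtain ⟨S, hS, hS4, hS8⟩ := exists_span u v 1 hu0 hv0 huv h1U
  obtain ⟨S0, Su, Sv, S1⟩ := span_mem hS
  have hSu : ph2 (RatFunc.X + Δ) Δ u ∈ S := by rw [← hv]; exact Sv
  have hSv : ph2 (RatFunc.X + Δ) Δ v ∈ S := by
    rw [hu]; exact span_add hS _ Sv _ Su
  have hS1 : ph2 (RatFunc.X + Δ) Δ 1 ∈ S := by rw [hone]; exact S0
  have D1 := L1span (RatFunc.X + Δ) Δ hΔ u v 1 hu0 hv0 huv h1U S hS hSu hSv hS1
  -- second system
  obtain ⟨B0, hB0⟩ : ∃ B0, B0 = RatFunc.X / Δ := ⟨_, rfl⟩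
  have hB0' : Δ * B0 = RatFunc.X := by rw [hB0]; field_simp
  have hB00 : B0 ≠ 0 := by
    rw [hB0]; exact div_ne_zero RatFunc.X_ne_zero hΔ
  have hψB : RatFunc.X * B0 + Δ * B0 ^ 2 = 0 := by
    linear_combination (norm := (first | ring1 | (ring_nf; reduce_mod_char!) | (ring_nf; reduce_mod_char!; ring_nf))) (B0 * hB0')
  have hφB : ph2 (RatFunc.X ^ 2 + Δ) (Δ ^ 2) B0 = 0 := by
    unfold ph2
    linear_combination (norm := (first | ring1 | (ring_nf; reduce_mod_char!) | (ring_nf; reduce_mod_char!; ring_nf))) (hψB + (RatFunc.X * B0 + Δ * B0 ^ 2) * hψB)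
  have hut1 : ph2 (RatFunc.X ^ 2 + Δ) (Δ ^ 2) (u ^ 2 + u) = v ^ 2 + v := by
    rw [ph2_wp, ← hv]
  have hvt1 : ph2 (RatFunc.X ^ 2 + Δ) (Δ ^ 2) (v ^ 2 + v) = (u ^ 2 + u) + (v ^ 2 + v) := by
    rw [ph2_wp, hu]; (first | ring1 | (ring_nf; reduce_mod_char!) | (ring_nf; reduce_mod_char!; ring_nf))
  have hBU : ¬ inU (u ^ 2 + u) (v ^ 2 + v) B0 := by
    intro h
    rcases h with h | h | h | h
    · exact hB00 h
    · rw [h, hut1] at hφB
      exact hvt0 hφB
    · rw [h, hvt1] at hφB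
      exact hutvt (CharTwo.add_eq_zero.1 hφB)
    · rw [h, ph2_add, hut1, hvt1] at hφB
      apply hut0
      linear_combination (norm := (first | ring1 | (ring_nf; reduce_mod_char!) | (ring_nf; reduce_mod_char!; ring_nf))) hφB
  obtain ⟨T, hT, hT4, hT8⟩ := exists_span (u ^ 2 + u) (v ^ 2 + v) B0 hut0 hvt0 hutvt hBU
  obtain ⟨T0, Tu, Tv, TB⟩ := span_mem hT
  have hTu : ph2 (RatFunc.X ^ 2 + Δ) (Δ ^ 2) (u ^ 2 + u) ∈ T := by rw [hut1]; exact Tv
  have hTv : ph2 (RatFunc.X ^ 2 + Δ) (Δ ^ 2) (v ^ 2 + v) ∈ T := by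
    rw [hvt1]; exact span_add hT _ Tu _ Tv
  have hTB : ph2 (RatFunc.X ^ 2 + Δ) (Δ ^ 2) B0 ∈ T := by rw [hφB]; exact T0
  have hΔ2 : Δ ^ 2 ≠ 0 := pow_ne_zero 2 hΔ
  have D2 := L1span (RatFunc.X ^ 2 + Δ) (Δ ^ 2) hΔ2 (u ^ 2 + u) (v ^ 2 + v) B0 hut0 hvt0 hutvt hBU
    T hT hTu hTv hTB
  -- consequences
  have hII : (∃ δ0 δ1, Ric δ0 δ1 S) → dd P + dd R = 0 ∧ Δ ^ 2 * ((1 + P + R) * dd P) = 1 := by
    rintro ⟨δ0, δ1, hRic⟩
    obtain ⟨-, r2, r3⟩ := ric_eight (span_stable hS _ (ph2_add _ Δ) hSu hSv hS1) (span_add hS)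
      hRic hS4 hS8 Su Sv S1 hu0 hv0 huv h1U
    have h1 : alf u v 1 = 1 + P + R := by
      unfold alf
      rw [hP, hR]; ring
    rw [h1] at r2 r3
    rw [← hP] at r3
    have h2 : dd (1 + P + R) = dd P + dd R := by
      rw [dd_add, dd_add, dd_one, zero_add]
    refine ⟨by rw [← h2]; exact r2, ?_⟩
    rw [dd_mul, r2, mul_zero, add_zero] at r3
    exact r3
  have hIIt : (∃ δ0 δ1, Ric δ0 δ1 T) → dd P = 0 ∧ dd (Δ * R) = 1 := by
    rintro ⟨δ0, δ1, hRic⟩
    have hstab := span_stable hT _ (ph2_add _ (Δ ^ 2)) hTu hTv hTB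
    have hψ : ∀ z ∈ T, inU u v (RatFunc.X * z + Δ * z ^ 2) := by
      have hψadd : ∀ x y : (RatFunc K), RatFunc.X * (x + y) + Δ * (x + y) ^ 2
          = (RatFunc.X * x + Δ * x ^ 2) + (RatFunc.X * y + Δ * y ^ 2) := by
        intro x y
        (first | ring1 | (ring_nf; reduce_mod_char!) | (ring_nf; reduce_mod_char!; ring_nf))
      have hψU : ∀ z, inU (u ^ 2 + u) (v ^ 2 + v) z → inU u v (RatFunc.X * z + Δ * z ^ 2) := by
        intro z hz
        have q1 : RatFunc.X * (u ^ 2 + u) + Δ * (u ^ 2 + u) ^ 2 = v := by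
          rw [← ph2_fac, ← hv]
        have q2 : RatFunc.X * (v ^ 2 + v) + Δ * (v ^ 2 + v) ^ 2 = u + v := by
          rw [← ph2_fac, hu, add_comm]
        rcases hz with rfl | rfl | rfl | rfl
        · left; ring
        · rw [q1]; exact Or.inr (Or.inr (Or.inl rfl))
        · rw [q2]; exact Or.inr (Or.inr (Or.inr rfl))
        · rw [hψadd, q1, q2]
          right; left
          (first | ring1 | (ring_nf; reduce_mod_char!) | (ring_nf; reduce_mod_char!; ring_nf))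
      intro z hz
      rcases (hT z).1 hz with h | h
      · exact hψU z h
      · have h1 := hψU _ h
        rw [hψadd, hψB, add_zero] at h1
        exact h1
    obtain ⟨-, r2, r3⟩ := ric_coeffs (RatFunc.X ^ 2 + Δ) (Δ ^ 2) δ0 δ1 T hstab hRic
      (R * RatFunc.X / Δ ^ 4) ((1 / Δ ^ 2) ^ 2 * (RatFunc.X ^ 2 * P + Δ * R))
      ((1 / Δ ^ 2) ^ 2 * ((RatFunc.X ^ 2) ^ 2 + Δ ^ 2 * P)) (by
        intro z hz
        have h1 := alf_zero (hψ z hz)
        have h2 : alf u v (RatFunc.X * z + Δ * z ^ 2) = (RatFunc.X * z + Δ * z ^ 2) ^ 4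
            + P * (RatFunc.X * z + Δ * z ^ 2) ^ 2 + R * (RatFunc.X * z + Δ * z ^ 2) := by
          unfold alf
          rw [hP, hR]
        rw [h2] at h1
        have h3 : Δ ^ 4 * (z ^ 8 + ((1 / Δ ^ 2) ^ 2 * ((RatFunc.X ^ 2) ^ 2 + Δ ^ 2 * P)) * z ^ 4
            + ((1 / Δ ^ 2) ^ 2 * (RatFunc.X ^ 2 * P + Δ * R)) * z ^ 2
            + (R * RatFunc.X / Δ ^ 4) * z) = Δ ^ 4 * z ^ 8
            + ((RatFunc.X ^ 2) ^ 2 + Δ ^ 2 * P) * z ^ 4 + (RatFunc.X ^ 2 * P + Δ * R) * z ^ 2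
            + (R * RatFunc.X) * z := by
          field_simp
        have h4 : Δ ^ 4 ≠ 0 := pow_ne_zero 4 hΔ
        apply mul_left_cancel₀ h4
        rw [h3, mul_zero]
        linear_combination (norm := (first | ring1 | (ring_nf; reduce_mod_char!) | (ring_nf; reduce_mod_char!; ring_nf))) h1) hT4
    rw [dd_sq_mul, dd_add, dd_sq, dd_sq_mul, zero_add] at r2
    rw [dd_sq_mul, dd_add, dd_sq_mul] at r3
    have hP0 : dd P = 0 := by
      have h1 : (1 / Δ ^ 2) ^ 2 * (Δ ^ 2 * dd P) = dd P / Δ ^ 2 := by field_simp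
      rw [h1] at r2
      exact (div_eq_zero_iff.1 r2).resolve_right hΔ2
    refine ⟨hP0, ?_⟩
    rw [hP0, mul_zero, zero_add] at r3
    have h1 : (Δ ^ 2) ^ 2 * ((1 / Δ ^ 2) ^ 2 * dd (Δ * R)) = dd (Δ * R) := by field_simp
    rw [h1] at r3
    exact r3
  have hI : (∃ h, (RatFunc.X + Δ) * Δ = h ^ 2) → Δ + RatFunc.X * dd Δ = 0 := by
    rintro ⟨h, hh⟩
    have h1 := congrArg dd hh
    rw [dd_sq, dd_mul, dd_add, dd_X] at h1
    linear_combination (norm := (first | ring1 | (ring_nf; reduce_mod_char!) | (ring_nf; reduce_mod_char!; ring_nf))) h1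
  have hIt : (∃ h, (RatFunc.X ^ 2 + Δ) * Δ ^ 2 = h ^ 2) → dd Δ = 0 := by
    rintro ⟨h, hh⟩
    have h1 := congrArg dd hh
    rw [dd_sq, mul_comm, dd_sq_mul, dd_add, dd_sq, zero_add] at h1
    exact (mul_eq_zero.1 h1).resolve_left hΔ2
  rcases D1 with D1 | D1
  · rcases D2 with D2 | D2
    · have h1 := hI D1
      rw [hIt D2, mul_zero, add_zero] at h1
      exact hΔ h1
    · obtain ⟨hP0, hB1⟩ := hIIt D2
      obtain ⟨h, hh⟩ := D1
      obtain ⟨k, hk⟩ := dd_eq_zero hP0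
      -- B = Δ R
      have e1 : h ^ 2 * (Δ * R) = (Δ * k) ^ 2 * (1 + Δ * R) := by
        have : (Δ * k) ^ 2 = Δ ^ 2 * P := by rw [hk]; ring
        rw [this, ← hh]
        have hPW' := hPW
        linear_combination (Δ ^ 2 * R) * hgW - Δ ^ 2 * (1 + Δ * R) * hPW
      have e2 := congrArg dd e1
      rw [dd_sq_mul, dd_sq_mul, dd_add, dd_one, hB1, zero_add, mul_one, mul_one] at e2
      rw [← e2] at e1
      have e3 : h ^ 2 = 0 := by linear_combination -e1
      rw [e3] at e2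
      have e4 : k = 0 := by
        have h5 : Δ * k = 0 := pow_eq_zero_iff (two_ne_zero) |>.1 e2.symm
        exact (mul_eq_zero.1 h5).resolve_left hΔ
      rw [e4] at hk
      have e5 : W * R = 0 := by rw [← hPW, hk]; ring
      exact (mul_ne_zero hW0 hR0) e5
  · obtain ⟨hPR, hP1⟩ := hII D1
    rcases D2 with D2 | D2
    · have hdΔ := hIt D2
      have hdp : dd (P ^ 2 + P + R) = 0 := by
        rw [dd_add, dd_add, dd_sq, zero_add]; exact hPR
      have hda : dd (1 + P + R) = 0 := by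
        rw [dd_add, dd_add, dd_one, zero_add]; exact hPR
      have hdb : dd (Δ ^ 2 * ((1 + P + R) * R)) = 1 := by
        rw [dd_sq_mul, dd_mul, hda, mul_zero, add_zero]
        have : dd R = dd P := (CharTwo.add_eq_zero.1 hPR).symm
        rw [this]; exact hP1
      have e1 : (RatFunc.X ^ 2 + Δ) * (Δ ^ 2 * ((1 + P + R) * R))
          = (Δ ^ 2 * (P ^ 2 + P + R)) * (1 + Δ ^ 2 * ((1 + P + R) * R)) := by
        linear_combination (Δ ^ 2 * ((1 + P + R) * R)) * hgWt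
          - (Δ ^ 2 * (1 + Δ ^ 2 * ((1 + P + R) * R))) * hPWt
      have e2 := congrArg dd e1
      rw [dd_mul, hdb, dd_mul (Δ ^ 2 * (P ^ 2 + P + R)), dd_add 1, hdb, dd_one, dd_sq_mul, hdp,
        dd_add, dd_sq, hdΔ] at e2
      have e3 : RatFunc.X ^ 2 + Δ = Δ ^ 2 * (P ^ 2 + P + R) := by
        linear_combination e2
      rw [← e3] at e1
      have e4 : RatFunc.X ^ 2 + Δ = 0 := by linear_combination -e1
      rw [e4] at e3
      have e5 : P ^ 2 + P + R = 0 := (mul_eq_zero.1 e3.symm).resolve_left hΔ2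
      rw [e5] at hPWt
      exact (mul_ne_zero hWt0 hRt0) hPWt.symm
    · obtain ⟨hP0, -⟩ := hIIt D2
      rw [hP0, mul_zero, mul_zero] at hP1
      exact zero_ne_one hP1

end

end Pool.Agent.W82
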