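import Pool.Agent.W82.D7

set_option autoImplicit false
set_option linter.unusedSectionVars false

namespace Pool.Agent.W82

open Polynomial

section
variable {K : Type*} [Field K] [F2 K]


lemma eq_of_dvd_dvd {a b : K[X]} (h1 : a ∣ b) (h2 : b ∣ a) : a = b := by
  obtain ⟨u, hu⟩ := associated_of_dvd_dvd h1 h2
  rw [isUnit_eq_one u.isUnit, mul_one] at hu
  exact hu

lemma sq_of_coprime_mul {a b c : K[X]} (hab : IsCoprime a b) (h : a * b = c ^ 2) :
    ∃ d, a = d ^ 2 := by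
  obtain ⟨d, hd⟩ := exists_associated_pow_of_mul_eq_pow' hab h
  obtain ⟨u, hu⟩ := hd
  rw [isUnit_eq_one u.isUnit, mul_one] at hu
  exact ⟨d, hu.symm⟩

lemma sq_dvd_sq {a b : K[X]} (h : a ^ 2 ∣ b ^ 2) : a ∣ b :=
  (IsIntegrallyClosed.pow_dvd_pow_iff (by norm_num)).1 h

/-- lowest terms of an Artin-Schreier value -/
lemma wp_lowest {c : (RatFunc K)} {U V : K[X]} (hV : V ≠ 0) (hUV : IsCoprime U V)
    (h : c ^ 2 + c = algebraMap K[X] (RatFunc K) U / algebraMap K[X] (RatFunc K) V) :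
    ∃ m n : K[X], IsCoprime m n ∧ V = n ^ 2 ∧ U = m * (m + n) := by
  obtain ⟨m, n, hn, hmn, rfl⟩ := exists_frac c
  have hAn : algebraMap K[X] (RatFunc K) n ≠ 0 := aX_ne hn
  have hAV : algebraMap K[X] (RatFunc K) V ≠ 0 := aX_ne hV
  have h1 : m * (m + n) * V = U * n ^ 2 := by
    apply RatFunc.algebraMap_injective K
    simp only [map_mul, map_add, map_pow]
    field_simp at h
    linear_combination h
  have hc1 : IsCoprime (m + n) n := by
    have := hmn.add_mul_left_left 1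
    rwa [mul_one] at this
  have hc2 : IsCoprime (m * (m + n)) (n ^ 2) := (hmn.mul_left hc1).pow_right
  have d1 : n ^ 2 ∣ V := by
    apply hc2.symm.dvd_of_dvd_mul_left
    rw [h1]; exact Dvd.intro_left _ rfl
  have d2 : V ∣ n ^ 2 := by
    apply hUV.symm.dvd_of_dvd_mul_left
    rw [← h1]; exact Dvd.intro_left _ rfl
  have hVn : V = n ^ 2 := eq_of_dvd_dvd d2 d1
  refine ⟨m, n, hmn, hVn, ?_⟩
  rw [hVn] at h1
  exact (mul_right_cancel₀ (pow_ne_zero 2 hn) h1).symm

/-- splitting of Artin-Schreier values -/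
lemma wp_split {c : (RatFunc K)} {a b u w : K[X]} (ha : a ≠ 0) (hb : b ≠ 0) (hab : IsCoprime a b)
    (h : c ^ 2 + c = algebraMap K[X] (RatFunc K) u / algebraMap K[X] (RatFunc K) a ^ 2
      + algebraMap K[X] (RatFunc K) w / algebraMap K[X] (RatFunc K) b ^ 2)
    (hu : u.natDegree < 2 * a.natDegree) :
    ∃ ξ : (RatFunc K), ξ ^ 2 + ξ = algebraMap K[X] (RatFunc K) u / algebraMap K[X] (RatFunc K) a ^ 2 := by
  have hch : CharP (RatFunc K) 2 := inferInstance
  have hchK : CharP K 2 := inferInstance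
  obtain ⟨m, n, hn, hmn, rfl⟩ := exists_frac c
  have hAn : algebraMap K[X] (RatFunc K) n ≠ 0 := aX_ne hn
  have hAa : algebraMap K[X] (RatFunc K) a ≠ 0 := aX_ne ha
  have hAb : algebraMap K[X] (RatFunc K) b ≠ 0 := aX_ne hb
  have h1 : m * (m + n) * (a * b) ^ 2 = (u * b ^ 2 + w * a ^ 2) * n ^ 2 := by
    apply RatFunc.algebraMap_injective K
    simp only [map_mul, map_add, map_pow]
    field_simp at h
    linear_combination h
  have hc1 : IsCoprime (m + n) n := by
    have := hmn.add_mul_left_left 1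
    rwa [mul_one] at this
  have hc2 : IsCoprime (m * (m + n)) (n ^ 2) := (hmn.mul_left hc1).pow_right
  have d1 : n ∣ a * b := by
    apply sq_dvd_sq
    apply hc2.symm.dvd_of_dvd_mul_left
    rw [h1]; exact Dvd.intro_left _ rfl
  obtain ⟨s, hs⟩ := d1
  -- c = m s / (a b)
  obtain ⟨x, y, hxy⟩ := hab
  -- x a + y b = 1
  obtain ⟨α0, hα0⟩ : ∃ α0, α0 = (m * s * y) % a := ⟨_, rfl⟩
  have hdm := EuclideanDomain.div_add_mod (m * s * y) a
  rw [← hα0] at hdm
  obtain ⟨Q, hQ⟩ : ∃ Q, Q = m * s * y / a := ⟨_, rfl⟩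
  rw [← hQ] at hdm
  obtain ⟨β, hβ⟩ : ∃ β, β = m * s * x + Q * b := ⟨_, rfl⟩
  have hc3 : m * (a * b) = (α0 * b + β * a) * n := by
    have e1 : α0 * b + β * a = m * s := by
      rw [hβ]
      linear_combination b * hdm + (m * s) * hxy
    rw [e1, hs]; ring
  have ha1 : a.natDegree ≠ 0 := by omega
  have hα0d : α0.natDegree < a.natDegree := by
    rw [hα0]; exact natDegree_mod_lt _ ha1
  -- both sides
  have h2 : (α0 ^ 2 + α0 * a + u) * b ^ 2 = (β ^ 2 + β * b + w) * a ^ 2 := by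
    apply mul_right_cancel₀ (pow_ne_zero 2 hn)
    have e2 : (α0 * b + β * a) ^ 2 * n ^ 2 = (m * (a * b)) ^ 2 := by rw [hc3]; ring
    have e3 : (α0 * b + β * a) * (a * b) * n ^ 2 = m * (a * b) * (a * b) * n := by rw [hc3]; ring
    linear_combination (norm := (first | ring1 | (ring_nf; reduce_mod_char!) | (ring_nf; reduce_mod_char!; ring_nf))) (h1 + e2 + e3)
  have hd2 : a ^ 2 ∣ α0 ^ 2 + α0 * a + u := by
    have hab' : IsCoprime (a ^ 2) (b ^ 2) := IsCoprime.pow ⟨x, y, hxy⟩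
    apply hab'.dvd_of_dvd_mul_right
    rw [h2]; exact Dvd.intro_left _ rfl
  have hz : α0 ^ 2 + α0 * a + u = 0 := by
    by_contra hne
    have h3 := natDegree_le_of_dvd hd2 hne
    rw [natDegree_pow] at h3
    have h4 : (α0 ^ 2 + α0 * a + u).natDegree ≤ 2 * a.natDegree - 1 := by
      apply natDegree_add_le_of_degree_le
      · apply natDegree_add_le_of_degree_le
        · rw [natDegree_pow]; omega
        · exact le_trans natDegree_mul_le (by omega)
      · omega
    omega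
  refine ⟨algebraMap K[X] (RatFunc K) α0 / algebraMap K[X] (RatFunc K) a, ?_⟩
  have h5 := congrArg (algebraMap K[X] (RatFunc K)) hz
  simp only [map_mul, map_add, map_pow, map_zero] at h5
  field_simp
  linear_combination (norm := (first | ring1 | (ring_nf; reduce_mod_char!) | (ring_nf; reduce_mod_char!; ring_nf))) h5

lemma wp_even (P : Plc K) (ξ : (RatFunc K)) (h0 : ξ ^ 2 + ξ ≠ 0) (h : P.v (ξ ^ 2 + ξ) < 0) :
    ∃ k, P.v (ξ ^ 2 + ξ) = 2 * k := by
  have hξ : ξ ≠ 0 := by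
    rintro rfl
    simp at h0
  have hneg : P.v ξ < 0 := by
    by_contra hcon
    push Not at hcon
    have h1 : P.ge 0 ξ := P.ge_of_le hcon
    have h2 : P.ge 0 (ξ ^ 2 + ξ) := by
      apply P.ge_add _ h1
      have := P.ge_mul h1 h1
      rw [← pow_two] at this
      simpa using this
    have := P.le_of_ge h2 h0
    omega
  have h3 : P.v (ξ ^ 2) = 2 * P.v ξ := by rw [P.v_pow hξ]; push_cast; ring
  obtain ⟨-, h4⟩ := P.v_add (pow_ne_zero 2 hξ) (b := ξ) (P.ge_of_le (by omega))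
  exact ⟨P.v ξ, by omega⟩

lemma poly_sq_of_even (n : ℕ) : ∀ f : K[X], f ≠ 0 → f.natDegree ≤ n →
    (∀ π : K[X], Prime π → Even (multiplicity π f)) → ∃ s, f = s ^ 2 := by
  induction n with
  | zero =>
    intro f hf hd _
    refine ⟨1, ?_⟩
    have : IsUnit f := by
      rw [eq_C_of_natDegree_le_zero hd] at hf ⊢
      apply isUnit_C.2
      apply IsUnit.mk0
      intro h0
      apply hf
      rw [h0, C_0]
    rw [isUnit_eq_one this, one_pow]
  | succ n ih =>
    intro f hf hd hev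
    by_cases hu : IsUnit f
    · exact ⟨1, by rw [isUnit_eq_one hu, one_pow]⟩
    obtain ⟨π, hπi, hπf⟩ := WfDvdMonoid.exists_irreducible_factor hu hf
    have hπ : Prime π := hπi.prime
    have h1 : 1 ≤ multiplicity π f := le_mult hπ hf (by rw [pow_one]; exact hπf)
    have h2 : 2 ≤ multiplicity π f := by
      obtain ⟨k, hk⟩ := hev π hπ
      omega
    obtain ⟨g, hg⟩ := pow_dvd_of_le_multiplicity h2
    have hg0 : g ≠ 0 := by
      rintro rfl
      rw [mul_zero] at hg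
      exact hf hg
    have hπd : 0 < π.natDegree := hπi.natDegree_pos
    have hgd : g.natDegree ≤ n := by
      rw [hg, natDegree_mul (pow_ne_zero 2 hπ.ne_zero) hg0, natDegree_pow] at hd
      omega
    obtain ⟨s, hs⟩ := ih g hg0 hgd (by
      intro ρ hρ
      have h3 := hev ρ hρ
      have h4 : multiplicity ρ f = 2 * multiplicity ρ π + multiplicity ρ g := by
        rw [hg, multiplicity_mul hρ (fin_mult hρ (mul_ne_zero (pow_ne_zero 2 hπ.ne_zero) hg0)),
          (fin_mult hρ hπ.ne_zero).multiplicity_pow hρ]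
      rw [h4] at h3
      rcases Nat.even_or_odd (multiplicity ρ g) with h5 | h5
      · exact h5
      · exfalso
        obtain ⟨k, hk⟩ := h5
        obtain ⟨l, hl⟩ := h3
        omega)
    exact ⟨π * s, by rw [hg, hs]; ring⟩

lemma sq_of_even {f : (RatFunc K)} (hf : f ≠ 0)
    (h : ∀ (π : K[X]) (hπ : Prime π), ∃ k, (plP π hπ).v f = 2 * k) : ∃ s, f = s ^ 2 := by
  obtain ⟨p, q, hp, hq, -, rfl⟩ := exists_frac' hf
  obtain ⟨s, hs⟩ := poly_sq_of_even _ (p * q) (mul_ne_zero hp hq) le_rfl (by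
    intro π hπ
    obtain ⟨k, hk⟩ := h π hπ
    rw [plP_div hπ hp hq] at hk
    rw [multiplicity_mul hπ (fin_mult hπ (mul_ne_zero hp hq))]
    rcases Nat.even_or_odd (multiplicity π p + multiplicity π q) with h5 | h5
    · exact h5
    · exfalso
      obtain ⟨k, hk⟩ := h5
      omega)
  refine ⟨algebraMap K[X] (RatFunc K) s / algebraMap K[X] (RatFunc K) q, ?_⟩
  have h1 := congrArg (algebraMap K[X] (RatFunc K)) hs
  rw [map_mul, map_pow] at h1
  have hAq : algebraMap K[X] (RatFunc K) q ≠ 0 := aX_ne hq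
  field_simp
  exact h1

/-- places above a linear polynomial -/
lemma v_linear {L : K[X]} (hL : L.degree = 1) {π : K[X]} (hπ : Prime π) :
    ((plP π hπ).v (algebraMap K[X] (RatFunc K) L) = 0 ∧ π ≠ L) ∨
      ((plP π hπ).v (algebraMap K[X] (RatFunc K) L) = 1 ∧ π = L) := by
  have hL0 : L ≠ 0 := by
    rintro rfl
    simp at hL
  have hirr : Irreducible L := irreducible_of_degree_eq_one hL
  rw [plP_poly hπ hL0]
  by_cases h : π ∣ L
  · right
    obtain ⟨c, hc⟩ := h
    have h1 : IsUnit c := (hirr.isUnit_or_isUnit hc).resolve_left hπ.not_isUnit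
    rw [isUnit_eq_one h1, mul_one] at hc
    refine ⟨?_, hc.symm⟩
    rw [← hc, multiplicity_self]; rfl
  · left
    refine ⟨?_, ?_⟩
    · rw [multiplicity_eq_zero.2 h]; rfl
    · rintro rfl
      exact h dvd_rfl

/-- first Artin-Schreier relation -/
def E1 (r : (RatFunc K)) : Prop := ∃ B : (RatFunc K), B ^ 2 + B = (r + 1) / RatFunc.X
  + (RatFunc.X + 1) / (RatFunc.X ^ 2 * r ^ 2)

lemma X1_ne : (RatFunc.X + 1 : (RatFunc K)) ≠ 0 := by
  have h1 : (RatFunc.X + 1 : (RatFunc K)) = algebraMap K[X] (RatFunc K) (X + C 1) := by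
    rw [map_add, RatFunc.algebraMap_X, C_1, map_one]
  rw [h1]
  exact aX_ne (X_add_C_ne_zero 1)

/-- parity at a finite place -/
lemma lemC_aux {π : K[X]} (hπ : Prime π) {l ξ : (RatFunc K)} (hl : l ≠ 0)
    (h : RatFunc.X ^ 2 * (ξ ^ 2 + ξ) = l + RatFunc.X + (RatFunc.X + 1) / l)
    (hneg : (plP π hπ).v l < 0) : ∃ k, (plP π hπ).v l = 2 * k := by
  set P := plP π hπ with hP
  have hX0 : (RatFunc.X : (RatFunc K)) ≠ 0 := RatFunc.X_ne_zero
  have hX : 0 ≤ P.v RatFunc.X := plP_X_nonneg hπ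
  have hX1 : 0 ≤ P.v (RatFunc.X + 1 : (RatFunc K)) := by
    have h1 : P.ge 0 (RatFunc.X + 1 : (RatFunc K)) := P.ge_add (P.ge_of_le hX) (P.ge_of_le (le_of_eq P.v_one.symm))
    exact P.le_of_ge h1 X1_ne
  have h2 := P.v_add hl (b := RatFunc.X + (RatFunc.X + 1) / l) (by
    apply P.ge_add
    · exact P.ge_of_le (by omega)
    · right
      rw [div_eq_mul_inv, P.map_mul _ _ X1_ne (inv_ne_zero hl), P.v_inv hl]
      omega)
  have h3 : l + (RatFunc.X + (RatFunc.X + 1) / l) = RatFunc.X ^ 2 * (ξ ^ 2 + ξ) := by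
    rw [h]; ring
  rw [h3] at h2
  have h4 : ξ ^ 2 + ξ ≠ 0 := by
    intro h0
    apply h2.1
    rw [h0, mul_zero]
  have h5 := h2.2
  rw [P.map_mul _ _ (pow_ne_zero 2 hX0) h4, P.v_pow hX0] at h5
  push_cast at h5
  obtain ⟨k, hk⟩ := wp_even P ξ h4 (by omega)
  exact ⟨k + P.v RatFunc.X, by omega⟩

lemma lemC_E1 {r ξ : (RatFunc K)} (hr : r ≠ 0)
    (h : RatFunc.X ^ 2 * (ξ ^ 2 + ξ) = r ^ 2 + RatFunc.X + (RatFunc.X + 1) / r ^ 2) : E1 r := by
  have hch : CharP (RatFunc K) 2 := inferInstance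
  have hX0 : (RatFunc.X : (RatFunc K)) ≠ 0 := RatFunc.X_ne_zero
  refine ⟨ξ + r / RatFunc.X, ?_⟩
  field_simp at h ⊢
  linear_combination (norm := (first | ring1 | (ring_nf; reduce_mod_char!) | (ring_nf; reduce_mod_char!; ring_nf))) h

lemma lemC {l ξ : (RatFunc K)} (hl : l ≠ 0)
    (h : RatFunc.X ^ 2 * (ξ ^ 2 + ξ) = l + RatFunc.X + (RatFunc.X + 1) / l) :
    ∃ r, r ≠ 0 ∧ E1 r ∧ (l = r ^ 2 ∨ (RatFunc.X + 1) / l = r ^ 2) := by
  have hX0 : (RatFunc.X : (RatFunc K)) ≠ 0 := RatFunc.X_ne_zero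
  have hl' : (RatFunc.X + 1) / l ≠ 0 := div_ne_zero X1_ne hl
  have hll : (RatFunc.X + 1) / ((RatFunc.X + 1) / l) = l := by
    have := (X1_ne : (RatFunc.X + 1 : (RatFunc K)) ≠ 0)
    field_simp
  have h' : RatFunc.X ^ 2 * (ξ ^ 2 + ξ) = (RatFunc.X + 1) / l + RatFunc.X
      + (RatFunc.X + 1) / ((RatFunc.X + 1) / l) := by
    rw [hll, h]; ring
  have hX1 : (RatFunc.X + 1 : (RatFunc K)) = algebraMap K[X] (RatFunc K) (X + C 1) := by
    rw [map_add, RatFunc.algebraMap_X, C_1, map_one]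
  have hdeg : (X + C 1 : K[X]).degree = 1 := degree_X_add_C 1
  have hvl : ∀ (π : K[X]) (hπ : Prime π), (plP π hπ).v ((RatFunc.X + 1) / l)
      = (plP π hπ).v (algebraMap K[X] (RatFunc K) (X + C 1)) - (plP π hπ).v l := by
    intro π hπ
    rw [div_eq_mul_inv, Plc.map_mul _ _ _ X1_ne (inv_ne_zero hl), Plc.v_inv _ hl, hX1]
    ring
  have hother : ∀ (π : K[X]) (hπ : Prime π), π ≠ X + C 1 → ∃ k, (plP π hπ).v l = 2 * k := by
    intro π hπ hne
    rcases v_linear hdeg hπ with ⟨h1, -⟩ | ⟨-, h1⟩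
    · rcases lt_trichotomy ((plP π hπ).v l) 0 with h2 | h2 | h2
      · exact lemC_aux hπ hl h h2
      · exact ⟨0, by omega⟩
      · have h3 := hvl π hπ
        obtain ⟨k, hk⟩ := lemC_aux hπ hl' h' (by omega)
        exact ⟨-k, by omega⟩
    · exact absurd h1 hne
  have hπ1 : Prime (X + C 1 : K[X]) := (irreducible_of_degree_eq_one hdeg).prime
  have h1 : (plP _ hπ1).v (algebraMap K[X] (RatFunc K) (X + C 1)) = 1 := by
    rcases v_linear hdeg hπ1 with ⟨-, h1⟩ | ⟨h1, -⟩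
    · exact absurd rfl h1
    · exact h1
  by_cases hc : (plP _ hπ1).v l ≤ 0
  · obtain ⟨r, hr⟩ := sq_of_even hl (by
      intro π hπ
      by_cases he : π = X + C 1
      · subst he
        rcases lt_or_eq_of_le hc with h2 | h2
        · exact lemC_aux hπ hl h h2
        · exact ⟨0, by omega⟩
      · exact hother π hπ he)
    have hr0 : r ≠ 0 := by
      rintro rfl
      apply hl
      rw [hr]; ring
    refine ⟨r, hr0, ?_, Or.inl hr⟩
    rw [hr] at h
    exact lemC_E1 hr0 h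
  · push Not at hc
    obtain ⟨r, hr⟩ := sq_of_even hl' (by
      intro π hπ
      by_cases he : π = X + C 1
      · subst he
        have h3 := hvl _ hπ
        rcases lt_or_eq_of_le (show (plP _ hπ).v ((RatFunc.X + 1) / l) ≤ 0 by omega) with h2 | h2
        · exact lemC_aux hπ hl' h' h2
        · exact ⟨0, by omega⟩
      · obtain ⟨k, hk⟩ := hother π hπ he
        have h3 := hvl π hπ
        rcases v_linear hdeg hπ with ⟨h4, -⟩ | ⟨-, h4⟩
        · exact ⟨-k, by omega⟩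
        · exact absurd h4 he)
    have hr0 : r ≠ 0 := by
      rintro rfl
      apply hl'
      rw [hr]; ring
    refine ⟨r, hr0, ?_, Or.inr hr⟩
    rw [hr] at h'
    exact lemC_E1 hr0 h'

end

end Pool.Agent.W82
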