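import Pool.Agent.W82.D8

set_option autoImplicit false
set_option linter.unusedSectionVars false

namespace Pool.Agent.W82

open Polynomial

section
variable {K : Type*} [Field K] [F2 K]


lemma coeff_one_of_not_dvd {f : K[X]} (h : ¬ X ∣ f) : f.coeff 0 = 1 := by
  rw [X_dvd_iff] at h
  exact ne_zero_eq_one h

lemma X_dvd_add {f g : K[X]} (hf : ¬ X ∣ f) (hg : ¬ X ∣ g) : X ∣ f + g := by
  rw [X_dvd_iff, coeff_add, coeff_one_of_not_dvd hf, coeff_one_of_not_dvd hg]
  exact CharTwo.add_self_eq_zero 1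

lemma coprime_X {f : K[X]} (h : ¬ X ∣ f) : IsCoprime X f :=
  (Irreducible.coprime_iff_not_dvd irreducible_X).2 h

/-- numerator prime to X -/
lemma stepD0 {h e : K[X]} (hh : h ≠ 0) (he : e ≠ 0) (hc : IsCoprime h e)
    (hE : E1 (algebraMap K[X] (RatFunc K) h / algebraMap K[X] (RatFunc K) e)) : ¬ X ∣ h := by
  intro hX
  have hch : CharP (RatFunc K) 2 := inferInstance
  have hX0 : (RatFunc.X : (RatFunc K)) ≠ 0 := RatFunc.X_ne_zero
  have hXe : ¬ X ∣ e := fun h1 => prime_X.not_isUnit (hc.isUnit_of_dvd' hX h1)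
  obtain ⟨r, hr⟩ : ∃ r, r = algebraMap K[X] (RatFunc K) h / algebraMap K[X] (RatFunc K) e := ⟨_, rfl⟩
  rw [← hr] at hE
  have hr0 : r ≠ 0 := by rw [hr]; exact div_ne_zero (aX_ne hh) (aX_ne he)
  let P := plX K
  have hPX : P.v RatFunc.X = 1 := plX_X
  have hvr : 1 ≤ P.v r := by
    rw [hr]
    show 1 ≤ (plP X prime_X).v _
    rw [plP_div prime_X hh he, multiplicity_eq_zero.2 hXe]
    have := le_mult (π := X) prime_X hh (k := 1) (by rw [pow_one]; exact hX)
    omega
  obtain ⟨B, hB⟩ := hE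
  have hr1 : r + 1 ≠ 0 ∧ P.v (r + 1) = 0 := by
    have := P.v_add one_ne_zero (b := r) (P.ge_of_le (by rw [P.v_one]; omega))
    rw [add_comm, P.v_one] at this
    exact this
  have hm : (1 : (RatFunc K)) / (RatFunc.X * r ^ 2) ≠ 0 :=
    div_ne_zero one_ne_zero (mul_ne_zero hX0 (pow_ne_zero 2 hr0))
  have hvm : P.v ((1 : (RatFunc K)) / (RatFunc.X * r ^ 2)) = -1 - 2 * P.v r := by
    rw [one_div, P.v_inv (mul_ne_zero hX0 (pow_ne_zero 2 hr0)),
      P.map_mul _ _ hX0 (pow_ne_zero 2 hr0), P.v_pow hr0, hPX]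
    push_cast; ring
  have h1 := P.v_add hm (b := (r + 1) / RatFunc.X + 1 / (RatFunc.X * r)) (by
    rw [hvm]
    apply P.ge_add
    · right
      rw [div_eq_mul_inv, P.map_mul _ _ hr1.1 (inv_ne_zero hX0), P.v_inv hX0, hPX, hr1.2]
      omega
    · right
      rw [one_div, P.v_inv (mul_ne_zero hX0 hr0), P.map_mul _ _ hX0 hr0, hPX]
      omega)
  have h2 : (1 : (RatFunc K)) / (RatFunc.X * r ^ 2) + ((r + 1) / RatFunc.X + 1 / (RatFunc.X * r))
      = (B + 1 / (RatFunc.X * r)) ^ 2 + (B + 1 / (RatFunc.X * r)) := by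
    have h3 : (B + 1 / (RatFunc.X * r)) ^ 2 + (B + 1 / (RatFunc.X * r))
        = (B ^ 2 + B) + (1 / (RatFunc.X * r)) ^ 2 + 1 / (RatFunc.X * r) := by (first | ring1 | (ring_nf; reduce_mod_char!) | (ring_nf; reduce_mod_char!; ring_nf))
    rw [h3, hB]
    field_simp
    (first | ring1 | (ring_nf; reduce_mod_char!) | (ring_nf; reduce_mod_char!; ring_nf))
  rw [h2, hvm] at h1
  obtain ⟨k, hk⟩ := wp_even P _ h1.1 (by omega)
  omega

/-- the first summand is an Artin-Schreier value -/
lemma stepD {h e : K[X]} (hh : h ≠ 0) (he : e ≠ 0) (hc : IsCoprime h e) (hne : h ≠ e)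
    (hE : E1 (algebraMap K[X] (RatFunc K) h / algebraMap K[X] (RatFunc K) e)) :
    ∃ ξ : (RatFunc K), ξ ^ 2 + ξ = (algebraMap K[X] (RatFunc K) h / algebraMap K[X] (RatFunc K) e + 1) / RatFunc.X := by
  have hch : CharP (RatFunc K) 2 := inferInstance
  have hchK : CharP K 2 := inferInstance
  have hX0 : (RatFunc.X : (RatFunc K)) ≠ 0 := RatFunc.X_ne_zero
  have hXh : ¬ X ∣ h := stepD0 hh he hc hE
  have hXh' : IsCoprime X h := coprime_X hXh
  have hH : algebraMap K[X] (RatFunc K) h ≠ 0 := aX_ne hh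
  have hEE : algebraMap K[X] (RatFunc K) e ≠ 0 := aX_ne he
  have hs0 : h + e ≠ 0 := fun h0 => hne (CharTwo.add_eq_zero.1 h0)
  have hse : IsCoprime (h + e) e := by
    have := hc.add_mul_left_left 1
    rwa [mul_one] at this
  have hsh : IsCoprime (h + e) h := by
    have := hc.symm.add_mul_left_left 1
    rwa [mul_one, add_comm] at this
  obtain ⟨B, hB⟩ := hE
  obtain ⟨H, hHd⟩ : ∃ H, H = algebraMap K[X] (RatFunc K) h := ⟨_, rfl⟩
  obtain ⟨E, hEd⟩ : ∃ E, E = algebraMap K[X] (RatFunc K) e := ⟨_, rfl⟩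
  rw [← hHd, ← hEd] at hB ⊢
  rw [← hHd] at hH
  rw [← hEd] at hEE
  have hB2 : (B ^ 2 + B) * (RatFunc.X ^ 2 * H ^ 2 * E)
      = (H + E) * RatFunc.X * H ^ 2 + (RatFunc.X + 1) * E ^ 3 := by
    rw [hB]; field_simp
  by_cases hXe : X ∣ e
  · -- e = X e'
    obtain ⟨e', he'⟩ := hXe
    have he'0 : e' ≠ 0 := by
      rintro rfl
      rw [mul_zero] at he'
      exact he he'
    obtain ⟨E', hE'd⟩ : ∃ E', E' = algebraMap K[X] (RatFunc K) e' := ⟨_, rfl⟩
    have hE'0 : E' ≠ 0 := by rw [hE'd]; exact aX_ne he'0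
    have hEE' : E = RatFunc.X * E' := by
      rw [hEd, he', map_mul, RatFunc.algebraMap_X, ← hE'd]
    obtain ⟨m, n, hn, hmn, hBmn⟩ := exists_frac B
    have hAn : algebraMap K[X] (RatFunc K) n ≠ 0 := aX_ne hn
    have h1 : m * (m + n) * (X ^ 2 * e' * h ^ 2) = ((h + e) * h ^ 2 + (X + 1) * X ^ 2 * e' ^ 3) * n ^ 2 := by
      apply RatFunc.algebraMap_injective K
      simp only [map_mul, map_add, map_pow, RatFunc.algebraMap_X, map_one]
      rw [← hHd, ← hEd, ← hE'd]
      have h2 : algebraMap K[X] (RatFunc K) m = B * algebraMap K[X] (RatFunc K) n := by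
        rw [hBmn]; field_simp
      rw [h2]
      apply mul_left_cancel₀ hX0
      rw [hEE'] at hB2 ⊢
      linear_combination (algebraMap K[X] (RatFunc K) n) ^ 2 * hB2
    have hc1 : IsCoprime (m + n) n := by
      have := hmn.add_mul_left_left 1
      rwa [mul_one] at this
    have hc2 : IsCoprime (m * (m + n)) (n ^ 2) := (hmn.mul_left hc1).pow_right
    have hhX : IsCoprime h (X ^ 2 * e') := by
      rw [he'] at hc
      exact hXh'.symm.pow_right.mul_right hc.of_mul_right_right
    have hseX : IsCoprime (h + e) (X ^ 2 * e') := by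
      rw [he'] at hse ⊢
      exact hse.of_mul_right_left.pow_right.mul_right hse.of_mul_right_right
    have hN : IsCoprime ((h + e) * h ^ 2 + (X + 1) * X ^ 2 * e' ^ 3) (X ^ 2 * e') := by
      have h3 : IsCoprime ((h + e) * h ^ 2) (X ^ 2 * e') := hseX.mul_left hhX.pow_left
      have h4 := h3.add_mul_left_left ((X + 1) * e' ^ 2)
      have h5 : (h + e) * h ^ 2 + X ^ 2 * e' * ((X + 1) * e' ^ 2)
          = (h + e) * h ^ 2 + (X + 1) * X ^ 2 * e' ^ 3 := by ring
      rwa [h5] at h4
    have d1 : X ^ 2 * e' ∣ n ^ 2 := by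
      apply hN.symm.dvd_of_dvd_mul_left
      rw [← h1]
      exact Dvd.intro (m * (m + n) * h ^ 2) (by ring)
    obtain ⟨s, hs⟩ := d1
    have hXe'0 : X ^ 2 * e' ≠ 0 := mul_ne_zero (pow_ne_zero 2 X_ne_zero) he'0
    have d2 : s ∣ h ^ 2 := by
      have h3 : n ^ 2 ∣ X ^ 2 * e' * h ^ 2 := by
        apply hc2.symm.dvd_of_dvd_mul_left
        rw [h1]; exact Dvd.intro_left _ rfl
      rw [hs] at h3
      exact (mul_dvd_mul_iff_left hXe'0).1 h3
    have hcs : IsCoprime (X ^ 2 * e') s := (hhX.symm.pow_right (n := 2)).of_isCoprime_of_dvd_right d2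
    obtain ⟨ν, hν⟩ := sq_of_coprime_mul hcs hs.symm
    have hXν : X ∣ ν := by
      apply prime_X.dvd_of_dvd_pow (n := 2)
      rw [← hν]
      exact Dvd.intro (X * e') (by ring)
    obtain ⟨ε, hε⟩ := hXν
    have he'ε : e' = ε ^ 2 := by
      rw [hε] at hν
      apply mul_left_cancel₀ (pow_ne_zero 2 (X_ne_zero (R := K)))
      rw [hν]; ring
    have hε0 : ε ≠ 0 := by
      rintro rfl
      apply he'0
      rw [he'ε]; ring
    have hcop : IsCoprime (X * ε) h := by
      apply hXh'.mul_left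
      have h3 : IsCoprime e' h := hhX.symm.of_mul_left_right
      rw [he'ε] at h3
      exact (IsCoprime.pow_left_iff (by norm_num)).1 h3
    have hXε0 : X * ε ≠ 0 := mul_ne_zero X_ne_zero hε0
    have hsplit : B ^ 2 + B = algebraMap K[X] (RatFunc K) (h + e) / algebraMap K[X] (RatFunc K) (X * ε) ^ 2
        + algebraMap K[X] (RatFunc K) ((X + 1) * e' ^ 2) / algebraMap K[X] (RatFunc K) h ^ 2 := by
      rw [hB]
      simp only [map_mul, map_add, map_pow, RatFunc.algebraMap_X, map_one]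
      rw [← hHd, ← hEd, ← hE'd]
      have h3 : (algebraMap K[X] (RatFunc K) ε) ^ 2 = E' := by
        rw [hE'd, he'ε, map_pow]
      rw [mul_pow, h3, hEE']
      field_simp
    have htarget : (H / E + 1) / RatFunc.X
        = algebraMap K[X] (RatFunc K) (h + e) / algebraMap K[X] (RatFunc K) (X * ε) ^ 2 := by
      simp only [map_mul, map_add, RatFunc.algebraMap_X]
      rw [← hHd, ← hEd]
      have h3 : (algebraMap K[X] (RatFunc K) ε) ^ 2 = E' := by
        rw [hE'd, he'ε, map_pow]
      rw [mul_pow, h3, hEE']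
      field_simp
    rw [htarget]
    have hde : e.natDegree = 1 + 2 * ε.natDegree := by
      rw [he', he'ε, natDegree_mul X_ne_zero (pow_ne_zero 2 hε0), natDegree_X, natDegree_pow]
    have hdXε : (X * ε).natDegree = 1 + ε.natDegree := by
      rw [natDegree_mul X_ne_zero hε0, natDegree_X]
    by_cases hdeg : (h + e).natDegree < 2 * (X * ε).natDegree
    · exact wp_split hXε0 hh hcop hsplit hdeg
    · have hdh : (h + e).natDegree ≤ h.natDegree := by
        have := natDegree_add_le h e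
        omega
      have hw : ((X + 1) * e' ^ 2).natDegree < 2 * h.natDegree := by
        have h3 : ((X + 1) * e' ^ 2 : K[X]).natDegree ≤ 1 + 2 * e'.natDegree := by
          refine le_trans natDegree_mul_le ?_
          rw [natDegree_pow]
          have : (X + 1 : K[X]).natDegree ≤ 1 := by compute_degree
          omega
        have h4 : e'.natDegree = 2 * ε.natDegree := by rw [he'ε, natDegree_pow]
        omega
      obtain ⟨η, hη⟩ := wp_split hh hXε0 hcop.symm (by rw [hsplit]; ring) hw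
      refine ⟨B + η, ?_⟩
      have h3 : (B + η) ^ 2 + (B + η) = (B ^ 2 + B) + (η ^ 2 + η) := by (first | ring1 | (ring_nf; reduce_mod_char!) | (ring_nf; reduce_mod_char!; ring_nf))
      rw [h3, hη, hsplit]
      exact add_right_self' _ _
  · -- X does not divide e
    obtain ⟨g, hg⟩ := X_dvd_add hXh hXe
    have hg0 : g ≠ 0 := by
      rintro rfl
      rw [mul_zero] at hg
      exact hs0 hg
    obtain ⟨G, hGd⟩ : ∃ G, G = algebraMap K[X] (RatFunc K) g := ⟨_, rfl⟩
    have hG0 : G ≠ 0 := by rw [hGd]; exact aX_ne hg0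
    have hgF : H + E = RatFunc.X * G := by
      rw [hHd, hEd, hGd, ← map_add, hg, map_mul, RatFunc.algebraMap_X]
    have hXe' : IsCoprime X e := coprime_X hXe
    have hge : IsCoprime g e := by
      rw [hg] at hse; exact hse.of_mul_left_right
    have hgh : IsCoprime g h := by
      rw [hg] at hsh; exact hsh.of_mul_left_right
    obtain ⟨t, ht⟩ : ∃ t, t = E / (RatFunc.X * H) := ⟨_, rfl⟩
    have ht' : t * (RatFunc.X * H) = E := by rw [ht]; field_simp
    have hEH : E * H ^ 2 ≠ 0 := mul_ne_zero hEE (pow_ne_zero 2 hH)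
    have hB3 : ((B + t) ^ 2 + (B + t)) * (E * H ^ 2) = RatFunc.X ^ 2 * G ^ 3 := by
      apply mul_left_cancel₀ (pow_ne_zero 2 hX0)
      linear_combination (norm := (first | ring1 | (ring_nf; reduce_mod_char!) | (ring_nf; reduce_mod_char!; ring_nf))) (hB2 + (E * (t * RatFunc.X * H + E) + RatFunc.X * H * E) * ht'
        + RatFunc.X * ((H + E) ^ 2 + (H + E) * RatFunc.X * G + RatFunc.X ^ 2 * G ^ 2) * hgF)
    have hB4 : (B + t) ^ 2 + (B + t) = algebraMap K[X] (RatFunc K) (X ^ 2 * g ^ 3)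
        / algebraMap K[X] (RatFunc K) (e * h ^ 2) := by
      simp only [map_mul, map_pow, RatFunc.algebraMap_X]
      rw [← hHd, ← hEd, ← hGd, eq_div_iff hEH]
      exact hB3
    have hUV : IsCoprime (X ^ 2 * g ^ 3) (e * h ^ 2) := by
      apply IsCoprime.mul_left
      · exact hXe'.pow_left.mul_right (IsCoprime.pow hXh')
      · exact hge.pow_left.mul_right (IsCoprime.pow hgh)
    obtain ⟨m, n, -, hV, -⟩ := wp_lowest (mul_ne_zero he (pow_ne_zero 2 hh)) hUV hB4
    have hhn : h ∣ n := by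
      apply sq_dvd_sq
      rw [← hV]; exact Dvd.intro_left _ rfl
    obtain ⟨ε, hε⟩ := hhn
    have heε : e = ε ^ 2 := by
      rw [hε] at hV
      apply mul_right_cancel₀ (pow_ne_zero 2 hh)
      rw [hV]; ring
    have hε0 : ε ≠ 0 := by
      rintro rfl
      apply he
      rw [heε]; ring
    have hcop : IsCoprime ε h := by
      have h3 := hc.symm
      rw [heε] at h3
      exact (IsCoprime.pow_left_iff (by norm_num)).1 h3
    have hEε : (algebraMap K[X] (RatFunc K) ε) ^ 2 = E := by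
      rw [hEd, heε, map_pow]
    have hsplit : (B + t) ^ 2 + (B + t) = algebraMap K[X] (RatFunc K) g / algebraMap K[X] (RatFunc K) ε ^ 2
        + algebraMap K[X] (RatFunc K) (g * ε ^ 2) / algebraMap K[X] (RatFunc K) h ^ 2 := by
      simp only [map_mul, map_pow]
      rw [hEε, ← hHd, ← hGd, div_add_div _ _ hEE (pow_ne_zero 2 hH), eq_div_iff hEH, hB3]
      linear_combination (norm := (first | ring1 | (ring_nf; reduce_mod_char!) | (ring_nf; reduce_mod_char!; ring_nf))) (-(G * (H + E + RatFunc.X * G)) * hgF)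
    have htarget : (H / E + 1) / RatFunc.X
        = algebraMap K[X] (RatFunc K) g / algebraMap K[X] (RatFunc K) ε ^ 2 := by
      rw [hEε, ← hGd]
      field_simp
      exact hgF
    rw [htarget]
    have hde : e.natDegree = 2 * ε.natDegree := by rw [heε, natDegree_pow]
    by_cases hdeg : g.natDegree < 2 * ε.natDegree
    · exact wp_split hε0 hh hcop hsplit hdeg
    · have hdg : (h + e).natDegree = 1 + g.natDegree := by
        rw [hg, natDegree_mul X_ne_zero hg0, natDegree_X]
      have hdh : (h + e).natDegree ≤ h.natDegree := by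
        have := natDegree_add_le h e
        omega
      have hw : (g * ε ^ 2).natDegree < 2 * h.natDegree := by
        have h3 : (g * ε ^ 2 : K[X]).natDegree ≤ g.natDegree + 2 * ε.natDegree := by
          refine le_trans natDegree_mul_le ?_
          rw [natDegree_pow]
        omega
      obtain ⟨η, hη⟩ := wp_split hh hε0 hcop.symm (by rw [hsplit]; ring) hw
      refine ⟨B + t + η, ?_⟩
      have h3 : (B + t + η) ^ 2 + (B + t + η) = ((B + t) ^ 2 + (B + t)) + (η ^ 2 + η) := by (first | ring1 | (ring_nf; reduce_mod_char!) | (ring_nf; reduce_mod_char!; ring_nf))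
      rw [h3, hη, hsplit]
      exact add_right_self' _ _

/-- the first Artin-Schreier relation has only the trivial solution -/
lemma lemD (N : ℕ) : ∀ h e : K[X], h ≠ 0 → e ≠ 0 → IsCoprime h e → h.natDegree ≤ N →
    e.natDegree ≤ N → E1 (algebraMap K[X] (RatFunc K) h / algebraMap K[X] (RatFunc K) e) → h = e := by
  induction N using Nat.strong_induction_on with
  | _ N ih =>
    intro h e hh he hc hdh hde hE
    by_contra hne
    have hch : CharP (RatFunc K) 2 := inferInstance
    have hchK : CharP K 2 := inferInstance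
    have hX0 : (RatFunc.X : (RatFunc K)) ≠ 0 := RatFunc.X_ne_zero
    obtain ⟨ξ, hξ⟩ := stepD hh he hc hne hE
    obtain ⟨B, hB⟩ := hE
    obtain ⟨r, hr⟩ : ∃ r, r = algebraMap K[X] (RatFunc K) h / algebraMap K[X] (RatFunc K) e := ⟨_, rfl⟩
    have hr0 : r ≠ 0 := by rw [hr]; exact div_ne_zero (aX_ne hh) (aX_ne he)
    rw [← hr] at hξ hB
    -- l = X r (B + ξ)
    obtain ⟨l, hl⟩ : ∃ l, l = RatFunc.X * r * (B + ξ) := ⟨_, rfl⟩
    have hξ2 : (ξ ^ 2 + ξ) * RatFunc.X = r + 1 := by rw [hξ]; field_simp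
    have hB2 : (B ^ 2 + B) * (RatFunc.X ^ 2 * r ^ 2) = (r + 1) * RatFunc.X * r ^ 2 + (RatFunc.X + 1) := by
      rw [hB]; field_simp
    have hl2 : l ^ 2 + RatFunc.X * r * l = RatFunc.X + 1 := by
      rw [hl]
      linear_combination (norm := (first | ring1 | (ring_nf; reduce_mod_char!) | (ring_nf; reduce_mod_char!; ring_nf))) (hB2 + (RatFunc.X * r ^ 2) * hξ2)
    have hl0 : l ≠ 0 := by
      rintro h0
      rw [h0] at hl2
      apply (X1_ne : (RatFunc.X + 1 : (RatFunc K)) ≠ 0)
      rw [← hl2]; ring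
    have hrl : r * (RatFunc.X * l) = l ^ 2 + RatFunc.X + 1 := by
      linear_combination (norm := (first | ring1 | (ring_nf; reduce_mod_char!) | (ring_nf; reduce_mod_char!; ring_nf))) hl2
    have hrel : RatFunc.X ^ 2 * (ξ ^ 2 + ξ) = l + RatFunc.X + (RatFunc.X + 1) / l := by
      have h1 : RatFunc.X ^ 2 * (ξ ^ 2 + ξ) = RatFunc.X * (r + 1) := by
        rw [← hξ2]; ring
      rw [h1]
      apply mul_left_cancel₀ hl0
      have h2 : l * (l + RatFunc.X + (RatFunc.X + 1) / l) = l ^ 2 + l * RatFunc.X + (RatFunc.X + 1) := by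
        field_simp
      rw [h2]
      linear_combination hrl
    obtain ⟨r1, hr10, hE1, hor⟩ := lemC hl0 hrel
    have hrr1 : r * (RatFunc.X * r1 ^ 2) = r1 ^ 4 + RatFunc.X + 1 := by
      rcases hor with h1 | h1
      · rw [h1] at hrl
        rw [hrl]; ring
      · have h2 : l * r1 ^ 2 = RatFunc.X + 1 := by rw [← h1]; field_simp
        have h3 : (RatFunc.X + 1 : (RatFunc K)) ≠ 0 := X1_ne
        apply mul_left_cancel₀ h3
        linear_combination (-(r * RatFunc.X * r1 ^ 2) + l * r1 ^ 2 + RatFunc.X + 1) * h2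
          + (r1 ^ 4) * hrl
    obtain ⟨m, n, hm, hn, hmn, hr1e⟩ := exists_frac' hr10
    have hAm : algebraMap K[X] (RatFunc K) m ≠ 0 := aX_ne hm
    have hAn : algebraMap K[X] (RatFunc K) n ≠ 0 := aX_ne hn
    have hAe : algebraMap K[X] (RatFunc K) e ≠ 0 := aX_ne he
    have hpoly : h * (X * m ^ 2 * n ^ 2) = (m ^ 4 + (X + 1) * n ^ 4) * e := by
      apply RatFunc.algebraMap_injective K
      simp only [map_mul, map_add, map_pow, RatFunc.algebraMap_X, map_one]
      rw [hr, hr1e] at hrr1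
      field_simp at hrr1
      linear_combination hrr1
    -- degree of numerator
    have hd1 : (m ^ 4).natDegree = 4 * m.natDegree := natDegree_pow _ _
    have hX1d : (X + 1 : K[X]).natDegree = 1 := by
      rw [← C_1]; exact natDegree_X_add_C 1
    have hX10 : (X + 1 : K[X]) ≠ 0 := by
      rw [← C_1]; exact X_add_C_ne_zero 1
    have hd2 : ((X + 1) * n ^ 4 : K[X]).natDegree = 1 + 4 * n.natDegree := by
      rw [natDegree_mul hX10 (pow_ne_zero 4 hn), hX1d, natDegree_pow]
    have hd3 : (m ^ 4 + (X + 1) * n ^ 4 : K[X]).natDegree = max (4 * m.natDegree) (1 + 4 * n.natDegree) := by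
      rcases lt_or_gt_of_ne (show 4 * m.natDegree ≠ 1 + 4 * n.natDegree by omega) with h1 | h1
      · rw [natDegree_add_eq_right_of_natDegree_lt (by rw [hd1, hd2]; exact h1), hd2]
        omega
      · rw [natDegree_add_eq_left_of_natDegree_lt (by rw [hd1, hd2]; exact h1), hd1]
        omega
    have hN0 : (m ^ 4 + (X + 1) * n ^ 4 : K[X]) ≠ 0 := by
      intro h0
      rw [h0, natDegree_zero] at hd3
      omega
    have hdvd : h ∣ m ^ 4 + (X + 1) * n ^ 4 := by
      apply hc.dvd_of_dvd_mul_right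
      rw [← hpoly]; exact Dvd.intro _ rfl
    obtain ⟨k, hk⟩ := hdvd
    have hk0 : k ≠ 0 := by
      rintro rfl
      rw [mul_zero] at hk
      exact hN0 hk
    have hk2 : X * m ^ 2 * n ^ 2 = e * k := by
      apply mul_left_cancel₀ hh
      rw [hpoly, hk]; ring
    have hNn : IsCoprime (m ^ 4 + (X + 1) * n ^ 4) n := by
      have h1 : IsCoprime (m ^ 4) n := hmn.pow_left
      have h2 := h1.add_mul_left_left ((X + 1) * n ^ 3)
      have h3 : m ^ 4 + n * ((X + 1) * n ^ 3) = m ^ 4 + (X + 1) * n ^ 4 := by ring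
      rwa [h3] at h2
    have hkn : IsCoprime k n := hNn.of_isCoprime_of_dvd_left (by rw [hk]; exact Dvd.intro_left _ rfl)
    have hkm : k ∣ X * m ^ 2 := by
      have h1 : k ∣ X * m ^ 2 * n ^ 2 := by rw [hk2]; exact Dvd.intro_left _ rfl
      exact (hkn.pow_right (n := 2)).dvd_of_dvd_mul_right h1
    have hkX : k ∣ X * (X + 1) := by
      have h1 : k ∣ X * (m ^ 4 + (X + 1) * n ^ 4) := by
        rw [hk]; exact Dvd.intro_left (X * h) (by ring)
      have h2 : k ∣ X * m ^ 2 * m ^ 2 := dvd_mul_of_dvd_left hkm _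
      have h3 : k ∣ X * (X + 1) * n ^ 4 := by
        have h4 := dvd_sub h1 h2
        have h5 : X * (m ^ 4 + (X + 1) * n ^ 4) - X * m ^ 2 * m ^ 2 = X * (X + 1) * n ^ 4 := by ring
        rwa [h5] at h4
      exact (hkn.pow_right (n := 4)).dvd_of_dvd_mul_right h3
    have hkd : k.natDegree ≤ 2 := by
      have h1 := natDegree_le_of_dvd hkX (mul_ne_zero X_ne_zero hX10)
      rw [natDegree_mul X_ne_zero hX10, natDegree_X, hX1d] at h1
      exact h1
    have hNd : (m ^ 4 + (X + 1) * n ^ 4 : K[X]).natDegree = h.natDegree + k.natDegree := by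
      rw [hk, natDegree_mul hh hk0]
    rw [hd3] at hNd
    have hmn1 : m = n := by
      by_cases hpos : m.natDegree = 0 ∧ n.natDegree = 0
      · have h1 : ∀ f : K[X], f ≠ 0 → f.natDegree = 0 → f = 1 := by
          intro f hf hd
          rw [eq_C_of_natDegree_eq_zero hd] at hf ⊢
          have : f.coeff 0 ≠ 0 := by
            intro h0; apply hf; rw [h0, C_0]
          rw [ne_zero_eq_one this, C_1]
        rw [h1 m hm hpos.1, h1 n hn hpos.2]
      · apply ih (max m.natDegree n.natDegree) (by omega) m n hm hn hmn (le_max_left _ _)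
          (le_max_right _ _)
        rw [← hr1e]; exact hE1
    have hr11 : r1 = 1 := by
      rw [hr1e, hmn1]; exact div_self hAn
    rw [hr11] at hrr1
    have hr1' : r = 1 := by
      apply mul_right_cancel₀ hX0
      linear_combination (norm := (first | ring1 | (ring_nf; reduce_mod_char!) | (ring_nf; reduce_mod_char!; ring_nf))) hrr1
    rw [hr] at hr1'
    have h1 : algebraMap K[X] (RatFunc K) h = algebraMap K[X] (RatFunc K) e := by
      rw [div_eq_one_iff_eq hAe] at hr1'
      exact hr1'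
    exact hne (RatFunc.algebraMap_injective K h1)

lemma lemD' {r : (RatFunc K)} (hr : r ≠ 0) (hE : E1 r) : r = 1 := by
  obtain ⟨h, e, hh, he, hc, rfl⟩ := exists_frac' hr
  have := lemD (max h.natDegree e.natDegree) h e hh he hc (le_max_left _ _) (le_max_right _ _) hE
  rw [this]
  exact div_self (aX_ne he)

/-- a two-dimensional kernel and a fixed vector do not coexist -/
theorem type6 (Δ a u : (RatFunc K)) (hΔ : Δ ≠ 0) (ha0 : a ≠ 0) (ha1 : a ≠ 1)
    (ha : ph2 (RatFunc.X + Δ) Δ a = 0) (hu0 : u ≠ 0) (hu : ph2 (RatFunc.X + Δ) Δ u = u) : False := by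
  have hch : CharP (RatFunc K) 2 := inferInstance
  have hX0 : (RatFunc.X : (RatFunc K)) ≠ 0 := RatFunc.X_ne_zero
  have hone : ph2 (RatFunc.X + Δ) Δ (1 : (RatFunc K)) = 0 := by unfold ph2; (first | ring1 | (ring_nf; reduce_mod_char!) | (ring_nf; reduce_mod_char!; ring_nf))
  have hs : a ^ 2 + a ≠ 0 := by
    intro h
    have h1 : a * (a + 1) = 0 := by linear_combination h
    rcases mul_eq_zero.1 h1 with h2 | h2
    · exact ha0 h2
    · exact ha1 (CharTwo.add_eq_zero.1 h2)
  have hu1 : u ≠ 1 := by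
    rintro rfl
    rw [hone] at hu
    exact zero_ne_one hu
  have e1 : Δ * (a ^ 2 + a) = RatFunc.X := by
    rw [ph2_fac] at ha
    apply mul_left_cancel₀ hs
    linear_combination (norm := (first | ring1 | (ring_nf; reduce_mod_char!) | (ring_nf; reduce_mod_char!; ring_nf))) ha
  rw [ph2_fac] at hu
  have e2 : (a ^ 2 + a) * (RatFunc.X * (u + 1) + 1) = RatFunc.X * u * (u + 1) ^ 2 := by
    apply mul_left_cancel₀ hu0
    linear_combination (norm := (first | ring1 | (ring_nf; reduce_mod_char!) | (ring_nf; reduce_mod_char!; ring_nf))) ((a ^ 2 + a) * hu - (u ^ 2 + u) ^ 2 * e1)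
  obtain ⟨l, hl⟩ : ∃ l, l = RatFunc.X * u + RatFunc.X + 1 := ⟨_, rfl⟩
  have e3 : (a ^ 2 + a) * l = RatFunc.X * u * (u + 1) ^ 2 := by
    rw [hl, ← e2]; ring
  have hl0 : l ≠ 0 := by
    intro h0
    rw [h0, mul_zero] at e3
    have h1 : u + 1 ≠ 0 := fun h => hu1 (CharTwo.add_eq_zero.1 h)
    exact (mul_ne_zero (mul_ne_zero hX0 hu0) (pow_ne_zero 2 h1)) e3.symm
  have hrel : RatFunc.X ^ 2 * ((a + u) ^ 2 + (a + u)) = l + RatFunc.X + (RatFunc.X + 1) / l := by
    apply mul_left_cancel₀ hl0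
    have h2 : l * (l + RatFunc.X + (RatFunc.X + 1) / l) = l ^ 2 + l * RatFunc.X + (RatFunc.X + 1) := by
      field_simp
    rw [h2]
    have h3 : l * (RatFunc.X ^ 2 * ((a + u) ^ 2 + (a + u)))
        = RatFunc.X ^ 2 * ((a ^ 2 + a) * l) + RatFunc.X ^ 2 * (u ^ 2 + u) * l := by (first | ring1 | (ring_nf; reduce_mod_char!) | (ring_nf; reduce_mod_char!; ring_nf))
    rw [h3, e3, hl]
    (first | ring1 | (ring_nf; reduce_mod_char!) | (ring_nf; reduce_mod_char!; ring_nf))
  obtain ⟨r, hr0, hE, hor⟩ := lemC hl0 hrel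
  have hr1 := lemD' hr0 hE
  rw [hr1] at hor
  rcases hor with h1 | h1
  · apply hu1
    rw [h1] at hl
    apply mul_left_cancel₀ hX0
    linear_combination (norm := (first | ring1 | (ring_nf; reduce_mod_char!) | (ring_nf; reduce_mod_char!; ring_nf))) hl
  · apply hu0
    have h2 : l = RatFunc.X + 1 := by
      have h3 : RatFunc.X + 1 = l := by
        field_simp at h1
        linear_combination h1
      exact h3.symm
    rw [h2] at hl
    apply mul_left_cancel₀ hX0
    linear_combination (norm := (first | ring1 | (ring_nf; reduce_mod_char!) | (ring_nf; reduce_mod_char!; ring_nf))) hl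

end

end Pool.Agent.W82
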